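import Pool.Agent.LB24.Defs
import Pool.Agent.LT.CovMid
import Pool.Agent.LT.Row

/-!
# LB24, module BOX: covering a box, travelling in a convex region

`cov_bx` is `LT/CovMid.lean` (`cov_mid`) for `m = 2 h + 1` translated by `p - (h, h)`
(`Cov.shift_by` of `LT/Row.lean`; `mid (2h+1)` contains the sites at distance `≤ h/2` of the centre;
`(2h+1)² √(2h+1) ≤ 9·2 h² √h`).

`travel_reg`: intermediate points `z_k`, `k = 0..K`, `z_k = p + ⌊(k (q - p)) / K⌋` (coordinatewise, integer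
division; `z_0 = p`, `z_K = q`); consecutive points differ by at most `H + 1`; for `z` in `bx (z_k) (2H-1)`,
`|cr v_j z| ≤ max(|cr v_j p|, |cr v_j q|) + V (2H - 1 + 1) ≤ h_j` since
`K cr v_j z_k = (K - k) cr v_j p + k cr v_j q - (error)`, `|error| ≤ V K`.  So `z_k → z_{k+1}` inside
`bx (z_k) (2H-1) ⊆ D` by `cov_bx` (`H + 1 ≤ 2H - 1` since `H ≥ 2`).
-/

open MeasureTheory Filter Topology
open scoped NNReal ENNReal Pointwise

namespace Pool.Agent.LB24

open Pool.Agent.LT Pool.Agent.WSB71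

theorem cov_bx : ∃ C : ℝ, 1 ≤ C ∧ ∀ β : ℝ, 1 ≤ β → ∀ h : ℕ, 1 ≤ h → ∀ p x y : Site,
    x ∈ bx p h → y ∈ bx p h →
    Cov (bx p h) (bx p (h / 2)) β (C * β * ((h : ℝ) ^ 2 * Real.sqrt h)) x y
      (C * β * Real.sqrt h) := by
  obtain ⟨C, hC1, hC⟩ := cov_mid
  refine ⟨18 * C, by linarith, ?_⟩
  intro β hβ h hh p x y hx hy
  have hh' : (1 : ℝ) ≤ h := by exact_mod_cast hh
  obtain ⟨v, hv⟩ : ∃ v : Site, v = (p.1 - h, p.2 - h) := ⟨_, rfl⟩
  have hv1 : v.1 = p.1 - h := by rw [hv]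
  have hv2 : v.2 = p.2 - h := by rw [hv]
  have hsq : ∀ z : Site, z ∈ bx p h → z - v ∈ sq (2 * h + 1) := by
    intro z hz
    rw [mem_bx, abs_le, abs_le] at hz
    rw [mem_sq, Prod.fst_sub, Prod.snd_sub, hv1, hv2]
    omega
  have h1 := (hC (2 * h + 1) (by omega) β hβ (x - v) (hsq x hx) (y - v) (hsq y hy)).shift_by v
    (A' := bx p h) (R' := bx p (h / 2)) (by
      intro z hz
      rw [mem_sq] at hz
      rw [mem_bx, Prod.fst_add, Prod.snd_add, hv1, hv2, abs_le, abs_le]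
      omega) (by
      intro z hz
      refine ⟨z - v, ?_, by abel⟩
      rw [mem_bx, abs_le, abs_le] at hz
      unfold mid
      rw [Finset.mem_filter, mem_sq, Prod.fst_sub, Prod.snd_sub, hv1, hv2]
      push_cast at hz ⊢
      omega)
  have e1 : v + (x - v) = x := by abel
  have e2 : v + (y - v) = y := by abel
  rw [e1, e2] at h1
  have hs : Real.sqrt ((2 * h + 1 : ℕ) : ℝ) ≤ 2 * Real.sqrt h := by
    have : (2 : ℝ) * Real.sqrt h = Real.sqrt (4 * h) := by
      rw [Real.sqrt_mul (by norm_num), show (4 : ℝ) = 2 ^ 2 by norm_num,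
        Real.sqrt_sq (by norm_num)]
    rw [this]
    apply Real.sqrt_le_sqrt
    push_cast
    linarith
  have hm2 : (((2 * h + 1 : ℕ) : ℝ)) ^ 2 ≤ 9 * (h : ℝ) ^ 2 := by
    push_cast
    nlinarith
  have hCβ : 0 ≤ C * β := by positivity
  refine h1.mono (le_refl _) (le_refl _) le_rfl ?_ ?_
  · calc C * β * (((2 * h + 1 : ℕ) : ℝ) ^ 2 * Real.sqrt ((2 * h + 1 : ℕ) : ℝ))
        ≤ C * β * ((9 * (h : ℝ) ^ 2) * (2 * Real.sqrt h)) := by
          apply mul_le_mul_of_nonneg_left _ hCβ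
          exact mul_le_mul hm2 hs (Real.sqrt_nonneg _) (by positivity)
      _ = 18 * C * β * ((h : ℝ) ^ 2 * Real.sqrt h) := by ring
  · calc C * β * Real.sqrt ((2 * h + 1 : ℕ) : ℝ) ≤ C * β * (2 * Real.sqrt h) :=
          mul_le_mul_of_nonneg_left hs hCβ
      _ ≤ 18 * C * β * Real.sqrt h := by
          have : 0 ≤ C * β * Real.sqrt h := by positivity
          linarith

/-- Bound on the cross product. -/
lemma abs_cr_le {w u : Site} {V b : ℤ} (hV : |w.1| + |w.2| ≤ V) (h1 : |u.1| ≤ b) (h2 : |u.2| ≤ b) :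
    |cr w u| ≤ V * b := by
  have hb : 0 ≤ b := (abs_nonneg _).trans h1
  unfold cr
  calc |u.1 * w.2 - u.2 * w.1| ≤ |u.1 * w.2| + |u.2 * w.1| := abs_sub _ _
    _ = |u.1| * |w.2| + |u.2| * |w.1| := by rw [abs_mul, abs_mul]
    _ ≤ b * |w.2| + b * |w.1| := by
        have := mul_le_mul_of_nonneg_right h1 (abs_nonneg w.2)
        have := mul_le_mul_of_nonneg_right h2 (abs_nonneg w.1)
        linarith
    _ = (|w.1| + |w.2|) * b := by ring
    _ ≤ V * b := mul_le_mul_of_nonneg_right hV hb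

lemma cr_add' (w u u' : Site) : cr w (u + u') = cr w u + cr w u' := by
  unfold cr
  rw [Prod.fst_add, Prod.snd_add]
  ring

theorem travel_reg : ∃ C : ℝ, 1 ≤ C ∧ ∀ β : ℝ, 1 ≤ β → ∀ (m : ℕ) (v : Fin m → Site)
    (h : Fin m → ℤ) (D : Finset Site), (∀ z, InReg v h z → z ∈ D) →
    ∀ V : ℕ, (∀ j, |(v j).1| + |(v j).2| ≤ V) → ∀ H K : ℕ, 2 ≤ H → 1 ≤ K → ∀ p q : Site,
    (∀ j, |cr (v j) p| + V * (2 * H) ≤ h j) → (∀ j, |cr (v j) q| + V * (2 * H) ≤ h j) →
    |p.1 - q.1| ≤ (K * H : ℕ) → |p.2 - q.2| ≤ (K * H : ℕ) →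
    Cov D ∅ β (K * (C * β * ((H : ℝ) ^ 2 * Real.sqrt H))) p q (K * (C * β * Real.sqrt H)) := by
  obtain ⟨C, hC1, hC⟩ := cov_bx
  refine ⟨8 * C, by linarith, ?_⟩
  intro β hβ m v h D hD V hV H K hH hK p q hp hq hpq1 hpq2
  have hK0 : (0 : ℤ) < K := by exact_mod_cast hK
  have hH' : (2 : ℝ) ≤ H := by exact_mod_cast hH
  have hCβ : 0 ≤ C * β := by positivity
  -- the intermediate points
  obtain ⟨Z, hZ⟩ : ∃ Z : ℕ → Site, ∀ k, Z k =
    (p.1 + ((k : ℤ) * (q.1 - p.1)) / K, p.2 + ((k : ℤ) * (q.2 - p.2)) / K) := ⟨_, fun _ => rfl⟩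
  have hZ1 : ∀ k, (Z k).1 = p.1 + ((k : ℤ) * (q.1 - p.1)) / K := fun k => by rw [hZ]
  have hZ2 : ∀ k, (Z k).2 = p.2 + ((k : ℤ) * (q.2 - p.2)) / K := fun k => by rw [hZ]
  have hZ0 : Z 0 = p := by
    apply Prod.ext
    · rw [hZ1]; simp
    · rw [hZ2]; simp
  have hZK : Z K = q := by
    apply Prod.ext
    · rw [hZ1, Int.mul_ediv_cancel_left _ hK0.ne']; ring
    · rw [hZ2, Int.mul_ediv_cancel_left _ hK0.ne']; ring
  -- rounding
  have hr : ∀ a : ℤ, 0 ≤ a - K * (a / K) ∧ a - K * (a / K) < K := by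
    intro a
    have e1 := Int.emod_add_mul_ediv a K
    have e2 := Int.emod_nonneg a hK0.ne'
    have e3 := Int.emod_lt_of_pos a hK0
    constructor <;> linarith
  have hstep : ∀ (k : ℕ) (d : ℤ), |d| ≤ K * H →
      |((k + 1 : ℕ) : ℤ) * d / K - (k : ℤ) * d / K| ≤ H + 1 := by
    intro k d hd
    obtain ⟨a1, a2⟩ := hr (((k + 1 : ℕ) : ℤ) * d)
    obtain ⟨b1, b2⟩ := hr ((k : ℤ) * d)
    obtain ⟨X, hX⟩ : ∃ X : ℤ, X = ((k + 1 : ℕ) : ℤ) * d / K := ⟨_, rfl⟩
    obtain ⟨Y, hY⟩ : ∃ Y : ℤ, Y = (k : ℤ) * d / K := ⟨_, rfl⟩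
    rw [← hX] at a1 a2
    rw [← hY] at b1 b2
    rw [← hX, ← hY]
    push_cast at a1 a2
    rw [abs_le] at hd ⊢
    have e1 : (K : ℤ) * (-(H + 1)) ≤ K * (X - Y) := by nlinarith
    have e2 : (K : ℤ) * (X - Y) ≤ K * (H + 1) := by nlinarith
    exact ⟨le_of_mul_le_mul_left e1 hK0, le_of_mul_le_mul_left e2 hK0⟩
  have hdiff : ∀ k, Z (k + 1) ∈ bx (Z k) (2 * H - 1) := by
    intro k
    rw [mem_bx, hZ1, hZ1, hZ2, hZ2]
    have d1 : |q.1 - p.1| ≤ K * H := by rw [abs_sub_comm]; exact_mod_cast hpq1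
    have d2 : |q.2 - p.2| ≤ K * H := by rw [abs_sub_comm]; exact_mod_cast hpq2
    have s1 := hstep k _ d1
    have s2 := hstep k _ d2
    have e : ((2 * H - 1 : ℕ) : ℤ) = 2 * H - 1 := by omega
    rw [e]
    constructor
    · rw [add_sub_add_left_eq_sub]; omega
    · rw [add_sub_add_left_eq_sub]; omega
  have hself : ∀ k, Z k ∈ bx (Z k) (2 * H - 1) := by
    intro k
    rw [mem_bx]
    simp
  have hcrZ : ∀ k ≤ K, ∀ j, |cr (v j) (Z k)| + V * (2 * H - 1) ≤ h j := by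
    intro k hk j
    obtain ⟨a1, a2⟩ := hr ((k : ℤ) * (q.1 - p.1))
    obtain ⟨b1, b2⟩ := hr ((k : ℤ) * (q.2 - p.2))
    obtain ⟨r, hrr⟩ : ∃ r : Site, r = ((k : ℤ) * (q.1 - p.1) - K * ((k : ℤ) * (q.1 - p.1) / K),
      (k : ℤ) * (q.2 - p.2) - K * ((k : ℤ) * (q.2 - p.2) / K)) := ⟨_, rfl⟩
    have r1 : |r.1| ≤ (K : ℤ) := by rw [hrr]; dsimp only; rw [abs_le]; constructor <;> linarith
    have r2 : |r.2| ≤ (K : ℤ) := by rw [hrr]; dsimp only; rw [abs_le]; constructor <;> linarith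
    have hcr := abs_cr_le (hV j) r1 r2
    have key : (K : ℤ) * cr (v j) (Z k) = (K - k) * cr (v j) p + k * cr (v j) q - cr (v j) r := by
      unfold cr
      rw [hZ1, hZ2, hrr]
      ring
    have hp' := hp j
    have hq' := hq j
    have hk' : (k : ℤ) ≤ K := by exact_mod_cast hk
    have hk0 : (0 : ℤ) ≤ k := by positivity
    have h5 : (K : ℤ) * |cr (v j) (Z k)| ≤ K * (h j - V * (2 * H) + V) := by
      calc (K : ℤ) * |cr (v j) (Z k)| = |(K : ℤ) * cr (v j) (Z k)| := by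
            rw [abs_mul, abs_of_pos hK0]
        _ = |(K - k) * cr (v j) p + k * cr (v j) q - cr (v j) r| := by rw [key]
        _ ≤ |(K - k) * cr (v j) p| + |k * cr (v j) q| + |cr (v j) r| :=
            (abs_sub _ _).trans (by gcongr; exact abs_add_le _ _)
        _ = (K - k) * |cr (v j) p| + k * |cr (v j) q| + |cr (v j) r| := by
            rw [abs_mul, abs_mul, abs_of_nonneg (by linarith : (0 : ℤ) ≤ K - k),
              abs_of_nonneg hk0]
        _ ≤ (K - k) * (h j - V * (2 * H)) + k * (h j - V * (2 * H)) + V * K := by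
            have m1 := mul_le_mul_of_nonneg_left (by linarith : |cr (v j) p| ≤ h j - V * (2 * H))
              (by linarith : (0 : ℤ) ≤ K - k)
            have m2 := mul_le_mul_of_nonneg_left (by linarith : |cr (v j) q| ≤ h j - V * (2 * H)) hk0
            linarith
        _ = K * (h j - V * (2 * H) + V) := by ring
    have h6 := le_of_mul_le_mul_left h5 hK0
    linarith
  have hsub : ∀ k ≤ K, bx (Z k) (2 * H - 1) ⊆ D := by
    intro k hk z hz
    apply hD
    intro j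
    rw [mem_bx] at hz
    have e : ((2 * H - 1 : ℕ) : ℤ) = 2 * H - 1 := by omega
    rw [e] at hz
    have h7 : |cr (v j) (z - Z k)| ≤ V * (2 * H - 1) :=
      abs_cr_le (hV j) (by rw [Prod.fst_sub]; exact hz.1) (by rw [Prod.snd_sub]; exact hz.2)
    have h8 : cr (v j) z = cr (v j) (Z k) + cr (v j) (z - Z k) := by
      rw [← cr_add']
      congr 1
      abel
    rw [h8]
    have h9 := hcrZ k hk j
    have h10 := abs_add_le (cr (v j) (Z k)) (cr (v j) (z - Z k))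
    linarith
  -- one step
  have hnat : ((2 * H - 1 : ℕ) : ℝ) ≤ 2 * H := by
    have : ((2 * H - 1 : ℕ) : ℝ) ≤ ((2 * H : ℕ) : ℝ) := by exact_mod_cast Nat.sub_le _ _
    push_cast at this
    exact this
  have hnat0 : (0 : ℝ) ≤ ((2 * H - 1 : ℕ) : ℝ) := Nat.cast_nonneg _
  have hs : Real.sqrt ((2 * H - 1 : ℕ) : ℝ) ≤ 2 * Real.sqrt H := by
    have : (2 : ℝ) * Real.sqrt H = Real.sqrt (4 * H) := by
      rw [Real.sqrt_mul (by norm_num), show (4 : ℝ) = 2 ^ 2 by norm_num,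
        Real.sqrt_sq (by norm_num)]
    rw [this]
    apply Real.sqrt_le_sqrt
    linarith
  have hone : ∀ k < K, Cov D ∅ β (8 * C * β * ((H : ℝ) ^ 2 * Real.sqrt H)) (Z k) (Z (k + 1))
      (8 * C * β * Real.sqrt H) := by
    intro k hk
    have h1 := hC β hβ (2 * H - 1) (by omega) (Z k) (Z k) (Z (k + 1)) (hself k) (hdiff k)
    refine h1.mono (hsub k hk.le) (Finset.empty_subset _) le_rfl ?_ ?_
    · calc C * β * (((2 * H - 1 : ℕ) : ℝ) ^ 2 * Real.sqrt ((2 * H - 1 : ℕ) : ℝ))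
          ≤ C * β * ((2 * H) ^ 2 * (2 * Real.sqrt H)) := by
            apply mul_le_mul_of_nonneg_left _ hCβ
            exact mul_le_mul (pow_le_pow_left₀ hnat0 hnat 2) hs (Real.sqrt_nonneg _) (by positivity)
        _ = 8 * C * β * ((H : ℝ) ^ 2 * Real.sqrt H) := by ring
    · calc C * β * Real.sqrt ((2 * H - 1 : ℕ) : ℝ) ≤ C * β * (2 * Real.sqrt H) :=
            mul_le_mul_of_nonneg_left hs hCβ
        _ ≤ 8 * C * β * Real.sqrt H := by
            have : 0 ≤ C * β * Real.sqrt H := by positivity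
            linarith
  have hind : ∀ k ≤ K, Cov D ∅ β (k * (8 * C * β * ((H : ℝ) ^ 2 * Real.sqrt H))) p (Z k)
      (k * (8 * C * β * Real.sqrt H)) := by
    intro k
    induction k with
    | zero =>
      intro _
      rw [hZ0]
      have hpD : p ∈ D := by
        have := hsub 0 (Nat.zero_le _) (hself 0)
        rwa [hZ0] at this
      exact (cov_refl hpD β).mono (le_refl _) (le_refl _) le_rfl (by simp) (by simp)
    | succ k ih =>
      intro hk
      have h1 := (ih (by omega)).comp (hone k (by omega))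
      refine h1.mono (le_refl _) (Finset.empty_subset _) le_rfl ?_ ?_
      · push_cast; linarith
      · push_cast; linarith
  have := hind K le_rfl
  rwa [hZK] at this

end Pool.Agent.LB24
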