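import Pool.Agent.WSB71.RealDef

/-!
# LB24, module SCALE: the centres of the dyadic squares at scale `i`

`Sc v h V M i p`: `p ∈ 2^i ℤ²`, the box of radius `2 · 2^i` around `p` is in the region, and `p` is at distance
at most `M 2^i` (in `cr` units) from its boundary.

 * `reg_bound`: `cr w v • u = cr w u • v - cr v u • w`.
 * `sc_cover`: `d = min_j (h_j - |cr v_j z|) ≥ B`; `i` the largest number `≤ I` with `4 V 2^i ≤ d`; `p` = `z`
   rounded to `2^i ℤ²` (`p = 2^i (z / 2^i)` coordinatewise), `|z - p| ≤ 2^i`;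
   `|cr v_j p| + 2 V 2^i ≤ |cr v_j z| + 3 V 2^i ≤ h_j`.  If `i = I`: closeness by `h_j < M 2^I`; if `i < I`:
   `d < 8 V 2^i`, for the `j` which achieves the minimum `h_j < |cr v_j p| + 9 V 2^i`.
 * `sc_parent`: `q` = `(1 - s) p` rounded to `2^(i+1) ℤ²` (`round`), `s = A 2^i / N ≤ 1`, error `≤ 2^i` in each
   coordinate; `|cr v_j q| ≤ (1-s) |cr v_j p| + V 2^i ≤ (1-s) h_j + V 2^i ≤ h_j - A r 2^i + V 2^i`
   and `5 V ≤ A r`; closeness: `|p - q| ≤ s |p| + 2^i ≤ (A R + 1) 2^i`.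
 * `sc_card`: `p = 2^i p'`, `|p'| ≤ R N / 2^i`; for the `j` of the closeness condition,
   `cr v_j p'` or `- cr v_j p'` is in an interval of length `M`: at most `M + 1` values; `p'` is determined by
   `cr v_j p'` and one of its coordinates (injection into a product of two intervals).
-/

open MeasureTheory Filter Topology
open scoped NNReal ENNReal Pointwise

namespace Pool.Agent.LB24

open Pool.Agent.LT Pool.Agent.WSB71

/-- The centres at scale `i`. -/
def Sc {m : ℕ} (v : Fin m → Site) (h : Fin m → ℤ) (V M : ℕ) (i : ℕ) (p : Site) : Prop :=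
  (2 ^ i : ℤ) ∣ p.1 ∧ (2 ^ i : ℤ) ∣ p.2 ∧ (∀ j, |cr (v j) p| + V * (2 * 2 ^ i) ≤ h j) ∧
    ∃ j, h j < |cr (v j) p| + M * 2 ^ i

end Pool.Agent.LB24
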