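import Pool.Agent.LB24.Defs
import Pool.Agent.LB24.ScaleDef

/-!
# LB24, module SCALE part 1 (proof plan in `ScaleDef.lean`)
-/

open MeasureTheory Filter Topology
open scoped NNReal ENNReal Pointwise

namespace Pool.Agent.LB24

open Pool.Agent.LT Pool.Agent.WSB71

private lemma abs_cr_le {v u : Site} {V c : ℤ} (hV : |v.1| + |v.2| ≤ V)
    (h1 : |u.1| ≤ c) (h2 : |u.2| ≤ c) : |cr v u| ≤ V * c := by
  unfold cr
  have hc : 0 ≤ c := (abs_nonneg _).trans h1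
  calc |u.1 * v.2 - u.2 * v.1| ≤ |u.1 * v.2| + |u.2 * v.1| := abs_sub _ _
    _ = |u.1| * |v.2| + |u.2| * |v.1| := by rw [abs_mul, abs_mul]
    _ ≤ c * |v.2| + c * |v.1| := by gcongr
    _ = (|v.1| + |v.2|) * c := by ring
    _ ≤ V * c := by gcongr

private lemma coord_bound {D x A B v w V L : ℤ} (hD : D ≠ 0) (e : D * x = A * v - B * w)
    (hA : |A| ≤ L) (hB : |B| ≤ L) (hv : |v| ≤ V) (hw : |w| ≤ V) : |x| ≤ 2 * V * L := by
  have hL : 0 ≤ L := (abs_nonneg _).trans hA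
  have hV : 0 ≤ V := (abs_nonneg _).trans hv
  have h1 : 1 ≤ |D| := Int.one_le_abs hD
  calc |x| = 1 * |x| := (one_mul _).symm
    _ ≤ |D| * |x| := mul_le_mul_of_nonneg_right h1 (abs_nonneg _)
    _ = |A * v - B * w| := by rw [← abs_mul, e]
    _ ≤ |A * v| + |B * w| := abs_sub _ _
    _ = |A| * |v| + |B| * |w| := by rw [abs_mul, abs_mul]
    _ ≤ L * V + L * V := by gcongr
    _ = 2 * V * L := by ring

theorem reg_bound {m : ℕ} (v : Fin m → Site) (i₀ j₀ : Fin m) (hij : cr (v i₀) (v j₀) ≠ 0)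
    (V : ℕ) (hV : ∀ j, |(v j).1| + |(v j).2| ≤ V) (h : Fin m → ℤ) (L : ℤ) (hL : ∀ j, h j ≤ L)
    (z : Site) (hz : InReg v h z) : |z.1| ≤ 2 * V * L ∧ |z.2| ≤ 2 * V * L := by
  have hA : |cr (v i₀) z| ≤ L := (hz i₀).trans (hL i₀)
  have hB : |cr (v j₀) z| ≤ L := (hz j₀).trans (hL j₀)
  have a1 := hV i₀
  have a2 := hV j₀
  have b1 := abs_nonneg (v i₀).1
  have b2 := abs_nonneg (v i₀).2
  have b3 := abs_nonneg (v j₀).1
  have b4 := abs_nonneg (v j₀).2
  constructor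
  · refine coord_bound hij (A := cr (v i₀) z) (B := cr (v j₀) z) (v := (v j₀).1) (w := (v i₀).1)
      ?_ hA hB (by linarith) (by linarith)
    unfold cr
    ring
  · refine coord_bound hij (A := cr (v i₀) z) (B := cr (v j₀) z) (v := (v j₀).2) (w := (v i₀).2)
      ?_ hA hB (by linarith) (by linarith)
    unfold cr
    ring

theorem sc_cover {m : ℕ} (hm : 0 < m) (v : Fin m → Site) (V M : ℕ)
    (hV : ∀ j, |(v j).1| + |(v j).2| ≤ V) (hV1 : 1 ≤ V) (hM : 9 * V ≤ M) (h : Fin m → ℤ)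
    (i₀ I : ℕ) (hI : i₀ ≤ I) (hhI : ∀ j, h j < M * 2 ^ I)
    (z : Site) (hz : ∀ j, |cr (v j) z| + 4 * V * 2 ^ i₀ ≤ h j) :
    ∃ i, i₀ ≤ i ∧ i ≤ I ∧ ∃ p, Sc v h V M i p ∧ z ∈ bx p (2 ^ i) := by
  classical
  set P : ℕ → Prop := fun i => ∀ j, |cr (v j) z| + 4 * V * 2 ^ i ≤ h j with hP
  have hP0 : P i₀ := hz
  set i := Nat.findGreatest P I with hi
  have hi0 : i₀ ≤ i := Nat.le_findGreatest hI hP0
  have hiI : i ≤ I := Nat.findGreatest_le I
  have hPi : P i := Nat.findGreatest_spec hI hP0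
  refine ⟨i, hi0, hiI, ?_⟩
  have hpos : (0 : ℤ) < 2 ^ i := by positivity
  have d1 : |z.1 - 2 ^ i * (z.1 / 2 ^ i)| ≤ (2 ^ i : ℤ) := by
    have e := Int.emod_add_mul_ediv z.1 (2 ^ i)
    have n1 := Int.emod_nonneg z.1 hpos.ne'
    have n2 := Int.emod_lt_of_pos z.1 hpos
    rw [abs_le]
    constructor <;> linarith
  have d2 : |z.2 - 2 ^ i * (z.2 / 2 ^ i)| ≤ (2 ^ i : ℤ) := by
    have e := Int.emod_add_mul_ediv z.2 (2 ^ i)
    have n1 := Int.emod_nonneg z.2 hpos.ne'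
    have n2 := Int.emod_lt_of_pos z.2 hpos
    rw [abs_le]
    constructor <;> linarith
  set p : Site := (2 ^ i * (z.1 / 2 ^ i), 2 ^ i * (z.2 / 2 ^ i)) with hp
  have hdiff : ∀ j, |cr (v j) p - cr (v j) z| ≤ V * 2 ^ i := by
    intro j
    have e : cr (v j) p - cr (v j) z = - cr (v j) (z - p) := by
      unfold cr
      simp only [Prod.fst_sub, Prod.snd_sub]
      ring
    rw [e, abs_neg]
    exact abs_cr_le (hV j) d1 d2
  refine ⟨p, ⟨Dvd.intro _ rfl, Dvd.intro _ rfl, ?_, ?_⟩, ?_⟩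
  · intro j
    have h1 := abs_le.1 (hdiff j)
    have h2 := hPi j
    have h3 : |cr (v j) p| ≤ |cr (v j) z| + V * 2 ^ i := by
      have := abs_sub_abs_le_abs_sub (cr (v j) p) (cr (v j) z)
      have := hdiff j
      linarith
    linarith
  · by_cases hlt : i < I
    · have hn := Nat.findGreatest_is_greatest (P := P) (n := I) (k := i + 1) (by omega) (by omega)
      rw [hP] at hn
      push Not at hn
      obtain ⟨j, hj⟩ := hn
      refine ⟨j, ?_⟩
      have h3 : |cr (v j) z| ≤ |cr (v j) p| + V * 2 ^ i := by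
        have h4 := abs_sub_abs_le_abs_sub (cr (v j) z) (cr (v j) p)
        have h5 := hdiff j
        rw [abs_sub_comm] at h5
        linarith
      have h6 : (9 * V : ℤ) * 2 ^ i ≤ M * 2 ^ i :=
        mul_le_mul_of_nonneg_right (by exact_mod_cast hM) hpos.le
      have h7 : (4 : ℤ) * V * 2 ^ (i + 1) = 8 * V * 2 ^ i := by ring
      rw [h7] at hj
      linarith
    · have hiI' : i = I := le_antisymm hiI (not_lt.1 hlt)
      refine ⟨⟨0, hm⟩, ?_⟩
      have h1 := hhI ⟨0, hm⟩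
      have h2 := abs_nonneg (cr (v ⟨0, hm⟩) p)
      rw [hiI']
      linarith
  · rw [mem_bx]
    push_cast
    exact ⟨d1, d2⟩

end Pool.Agent.LB24
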