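import Pool.Agent.LB24.ScaleDef

/-!
# LB24, module SCALE part 2 (proof plan in `ScaleDef.lean`)
-/

open MeasureTheory Filter Topology
open scoped NNReal ENNReal Pointwise

namespace Pool.Agent.LB24

open Pool.Agent.LT Pool.Agent.WSB71

/-- `cr v` of a real vector with coordinates at most `c`. -/
private lemma abs_crR_le {v : Site} {V : ℕ} {a b c : ℝ} (hV : |v.1| + |v.2| ≤ (V : ℤ))
    (h1 : |a| ≤ c) (h2 : |b| ≤ c) : |a * v.2 - b * v.1| ≤ V * c := by
  have hc : 0 ≤ c := (abs_nonneg _).trans h1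
  have hV' : |(v.1 : ℝ)| + |(v.2 : ℝ)| ≤ V := by exact_mod_cast hV
  calc |a * v.2 - b * v.1| ≤ |a * v.2| + |b * v.1| := abs_sub _ _
    _ = |a| * |(v.2 : ℝ)| + |b| * |(v.1 : ℝ)| := by rw [abs_mul, abs_mul]
    _ ≤ c * |(v.2 : ℝ)| + c * |(v.1 : ℝ)| := by gcongr
    _ = (|(v.1 : ℝ)| + |(v.2 : ℝ)|) * c := by ring
    _ ≤ V * c := by gcongr

/-- Rounding to a multiple of `D`. -/
private lemma round_err {D : ℝ} (hD : 0 < D) (x : ℝ) : |D * round (x / D) - x| ≤ D / 2 := by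
  have h := abs_sub_round (x / D)
  have e : D * round (x / D) - x = - (D * (x / D - round (x / D))) := by
    field_simp; ring
  rw [e, abs_neg, abs_mul, abs_of_pos hD]
  calc D * |x / D - round (x / D)| ≤ D * (1 / 2) := by gcongr
    _ = D / 2 := by ring

theorem sc_parent {m : ℕ} (v : Fin m → Site) (V M : ℕ)
    (hV : ∀ j, |(v j).1| + |(v j).2| ≤ V) {A r R N : ℝ} (hA : 0 < A) (hr : 0 < r) (hR : 0 ≤ R)
    (hN : 0 < N) (hAr : 5 * V ≤ A * r) (hM : V * (A * R + 1) ≤ M)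
    (h : Fin m → ℤ) (hh : ∀ j, r * N ≤ h j) (i : ℕ) (hi : A * 2 ^ i ≤ N) (p : Site)
    (hp : Sc v h V M i p) (hp1 : |(p.1 : ℝ)| ≤ R * N) (hp2 : |(p.2 : ℝ)| ≤ R * N) :
    ∃ q, Sc v h V M (i + 1) q ∧ |(p.1 : ℝ) - q.1| ≤ (A * R + 1) * 2 ^ i ∧
      |(p.2 : ℝ) - q.2| ≤ (A * R + 1) * 2 ^ i := by
  obtain ⟨-, -, hin, j₀, hj₀⟩ := hp
  set s : ℝ := A * 2 ^ i / N with hs
  have hE : (0 : ℝ) < 2 ^ i := by positivity
  have hs0 : 0 ≤ s := by rw [hs]; positivity
  have hs1 : s ≤ 1 := by rw [hs, div_le_one hN]; exact hi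
  have hsN : s * N = A * 2 ^ i := by rw [hs]; field_simp
  have hD : (0 : ℝ) < 2 ^ (i + 1) := by positivity
  have hD2 : (2 : ℝ) ^ (i + 1) / 2 = 2 ^ i := by rw [pow_succ]; ring
  set q : Site := (2 ^ (i + 1) * round ((1 - s) * p.1 / 2 ^ (i + 1)),
    2 ^ (i + 1) * round ((1 - s) * p.2 / 2 ^ (i + 1))) with hq
  have e1 : |(q.1 : ℝ) - (1 - s) * p.1| ≤ 2 ^ i := by
    have := round_err hD ((1 - s) * p.1)
    rw [hD2] at this
    rw [hq]; push_cast; exact this
  have e2 : |(q.2 : ℝ) - (1 - s) * p.2| ≤ 2 ^ i := by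
    have := round_err hD ((1 - s) * p.2)
    rw [hD2] at this
    rw [hq]; push_cast; exact this
  have d1 : |(p.1 : ℝ) - q.1| ≤ (A * R + 1) * 2 ^ i := by
    have e : (p.1 : ℝ) - q.1 = s * p.1 - (q.1 - (1 - s) * p.1) := by ring
    rw [e]
    refine (abs_sub _ _).trans ?_
    have : |s * (p.1 : ℝ)| ≤ A * R * 2 ^ i := by
      rw [abs_mul, abs_of_nonneg hs0]
      calc s * |(p.1 : ℝ)| ≤ s * (R * N) := by gcongr
        _ = R * (s * N) := by ring
        _ = A * R * 2 ^ i := by rw [hsN]; ring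
    linarith
  have d2 : |(p.2 : ℝ) - q.2| ≤ (A * R + 1) * 2 ^ i := by
    have e : (p.2 : ℝ) - q.2 = s * p.2 - (q.2 - (1 - s) * p.2) := by ring
    rw [e]
    refine (abs_sub _ _).trans ?_
    have : |s * (p.2 : ℝ)| ≤ A * R * 2 ^ i := by
      rw [abs_mul, abs_of_nonneg hs0]
      calc s * |(p.2 : ℝ)| ≤ s * (R * N) := by gcongr
        _ = R * (s * N) := by ring
        _ = A * R * 2 ^ i := by rw [hsN]; ring
    linarith
  refine ⟨q, ⟨⟨_, rfl⟩, ⟨_, rfl⟩, ?_, j₀, ?_⟩, d1, d2⟩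
  · intro j
    have e : ((cr (v j) q : ℤ) : ℝ) = (1 - s) * ((cr (v j) p : ℤ) : ℝ)
        + (((q.1 : ℝ) - (1 - s) * p.1) * (v j).2 - ((q.2 : ℝ) - (1 - s) * p.2) * (v j).1) := by
      unfold cr; push_cast; ring
    have g1 : |(1 - s) * ((cr (v j) p : ℤ) : ℝ)| ≤ (1 - s) * h j := by
      rw [abs_mul, abs_of_nonneg (by linarith)]
      have : |cr (v j) p| ≤ h j := by
        have := hin j
        have h2 : (0 : ℤ) ≤ V * (2 * 2 ^ i) := by positivity
        linarith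
      have : |((cr (v j) p : ℤ) : ℝ)| ≤ h j := by exact_mod_cast this
      exact mul_le_mul_of_nonneg_left this (by linarith)
    have g2 := abs_crR_le (hV j) e1 e2
    have g3 : A * r * 2 ^ i ≤ s * h j := by
      calc A * r * 2 ^ i = r * (s * N) := by rw [hsN]; ring
        _ = s * (r * N) := by ring
        _ ≤ s * h j := mul_le_mul_of_nonneg_left (hh j) hs0
    have g4 : (5 * V : ℝ) * 2 ^ i ≤ A * r * 2 ^ i := mul_le_mul_of_nonneg_right hAr hE.le
    have g5 : |((cr (v j) q : ℤ) : ℝ)| ≤ h j - 4 * V * 2 ^ i := by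
      rw [e]
      refine (abs_add_le _ _).trans ?_
      linarith
    have g6 : |((cr (v j) q : ℤ) : ℝ)| + V * (2 * 2 ^ (i + 1)) ≤ h j := by
      rw [pow_succ]; linarith
    exact_mod_cast g6
  · have e : ((cr (v j₀) p : ℤ) : ℝ) = ((cr (v j₀) q : ℤ) : ℝ)
        + (((p.1 : ℝ) - q.1) * (v j₀).2 - ((p.2 : ℝ) - q.2) * (v j₀).1) := by
      unfold cr; push_cast; ring
    have g2 := abs_crR_le (hV j₀) d1 d2
    have g3 : |((cr (v j₀) p : ℤ) : ℝ)| ≤ |((cr (v j₀) q : ℤ) : ℝ)| + V * ((A * R + 1) * 2 ^ i) := by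
      rw [e]
      exact (abs_add_le _ _).trans (by linarith)
    have g4 : (V : ℝ) * ((A * R + 1) * 2 ^ i) ≤ M * 2 ^ i := by
      calc (V : ℝ) * ((A * R + 1) * 2 ^ i) = V * (A * R + 1) * 2 ^ i := by ring
        _ ≤ M * 2 ^ i := mul_le_mul_of_nonneg_right hM hE.le
    have g5 : (h j₀ : ℝ) < |((cr (v j₀) p : ℤ) : ℝ)| + M * 2 ^ i := by exact_mod_cast hj₀
    have g6 : (h j₀ : ℝ) < |((cr (v j₀) q : ℤ) : ℝ)| + M * 2 ^ (i + 1) := by
      rw [pow_succ]; linarith
    exact_mod_cast g6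

/-- The points on the line with a bounded coordinate. -/
private lemma card_line {w : Site} (hw : w ≠ 0) (C : Finset ℤ) {B : ℤ} (hB : 0 ≤ B)
    (S : Finset Site) (hS : ∀ x ∈ S, cr w x ∈ C ∧ |x.1| ≤ B ∧ |x.2| ≤ B) :
    (S.card : ℤ) ≤ C.card * (2 * B + 1) := by
  have hI : ((Finset.Icc (-B) B).card : ℤ) = 2 * B + 1 := by
    rw [Int.card_Icc]
    rw [Int.toNat_of_nonneg (by linarith)]
    ring
  have hcard : S.card ≤ (C ×ˢ Finset.Icc (-B) B).card := by
    by_cases h1 : w.1 = 0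
    · have h2 : w.2 ≠ 0 := fun h2 => hw (Prod.ext h1 h2)
      refine Finset.card_le_card_of_injOn (fun x => (cr w x, x.2)) ?_ ?_
      · intro x hx
        obtain ⟨a, b, c⟩ := hS x hx
        simp only [Finset.coe_product, Set.mem_prod, Finset.mem_coe, Finset.mem_Icc]
        exact ⟨a, abs_le.1 c⟩
      · intro x _ y _ hxy
        simp only [Prod.mk.injEq] at hxy
        obtain ⟨e1, e2⟩ := hxy
        unfold cr at e1
        rw [h1] at e1
        simp only [mul_zero, sub_zero] at e1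
        exact Prod.ext (mul_right_cancel₀ h2 e1) e2
    · refine Finset.card_le_card_of_injOn (fun x => (cr w x, x.1)) ?_ ?_
      · intro x hx
        obtain ⟨a, b, c⟩ := hS x hx
        simp only [Finset.coe_product, Set.mem_prod, Finset.mem_coe, Finset.mem_Icc]
        exact ⟨a, abs_le.1 b⟩
      · intro x _ y _ hxy
        simp only [Prod.mk.injEq] at hxy
        obtain ⟨e1, e2⟩ := hxy
        unfold cr at e1
        rw [e2] at e1
        have e3 : x.2 * w.1 = y.2 * w.1 := by linarith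
        exact Prod.ext e2 (mul_right_cancel₀ h1 e3)
  rw [Finset.card_product] at hcard
  calc (S.card : ℤ) ≤ ((C.card * (Finset.Icc (-B) B).card : ℕ) : ℤ) := by exact_mod_cast hcard
    _ = C.card * (2 * B + 1) := by push_cast [hI]; rfl

theorem sc_card {m : ℕ} (v : Fin m → Site) (hv : ∀ j, v j ≠ 0) (V M : ℕ) {R N : ℝ}
    (hR : 0 ≤ R) (hN : 0 < N) (h : Fin m → ℤ) (i : ℕ) (hi : (2 : ℝ) ^ i ≤ N) (T : Finset Site)
    (hT : ∀ p ∈ T, Sc v h V M i p ∧ |(p.1 : ℝ)| ≤ R * N ∧ |(p.2 : ℝ)| ≤ R * N) :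
    (T.card : ℝ) ≤ 2 * m * (M + 2) * (2 * R + 1) * (N / 2 ^ i) := by
  classical
  have hE : (0 : ℝ) < 2 ^ i := by positivity
  have hEz : (0 : ℤ) < 2 ^ i := by positivity
  set B : ℤ := ⌊R * N / 2 ^ i⌋ with hB
  have hB0 : 0 ≤ B := Int.floor_nonneg.2 (by positivity)
  have hB1 : (B : ℝ) ≤ R * N / 2 ^ i := Int.floor_le _
  -- the sets `T j`
  set TT : Fin m → Finset Site := fun j => T.filter (fun p => h j < |cr (v j) p| + M * 2 ^ i) with hTT
  have hsub : T ⊆ Finset.univ.biUnion TT := by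
    intro p hp
    obtain ⟨⟨-, -, -, j, hj⟩, -⟩ := hT p hp
    rw [Finset.mem_biUnion]
    exact ⟨j, Finset.mem_univ _, by rw [hTT, Finset.mem_filter]; exact ⟨hp, hj⟩⟩
  have hone : ∀ j, ((TT j).card : ℤ) ≤ (2 * M : ℕ) * (2 * B + 1) := by
    intro j
    set K : ℤ := h j / 2 ^ i with hK
    set C : Finset ℤ := Finset.Icc (K - M + 1) K ∪ Finset.Icc (-K) (-(K - M + 1)) with hC
    have hCc : C.card ≤ 2 * M := by
      refine (Finset.card_union_le _ _).trans ?_
      rw [Int.card_Icc, Int.card_Icc]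
      have a1 : (K + 1 - (K - M + 1)).toNat = M := by
        have : K + 1 - (K - M + 1) = (M : ℤ) := by ring
        rw [this, Int.toNat_natCast]
      have a2 : (-(K - M + 1) + 1 - (-K)).toNat = M := by
        have : -(K - M + 1) + 1 - (-K) = (M : ℤ) := by ring
        rw [this, Int.toNat_natCast]
      rw [a1, a2]; omega
    set S : Finset Site := (TT j).image (fun p => ((p.1 / 2 ^ i, p.2 / 2 ^ i) : Site)) with hS
    have hinj : S.card = (TT j).card := by
      rw [hS]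
      refine Finset.card_image_of_injOn ?_
      intro x hx y hy hxy
      rw [hTT, Finset.coe_filter] at hx hy
      obtain ⟨⟨dx1, dx2, -⟩, -⟩ := hT x hx.1
      obtain ⟨⟨dy1, dy2, -⟩, -⟩ := hT y hy.1
      simp only [Prod.mk.injEq] at hxy
      refine Prod.ext ?_ ?_
      · rw [← Int.ediv_mul_cancel dx1, ← Int.ediv_mul_cancel dy1, hxy.1]
      · rw [← Int.ediv_mul_cancel dx2, ← Int.ediv_mul_cancel dy2, hxy.2]
    have hcl := card_line (hv j) C hB0 S ?_
    · rw [hinj] at hcl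
      refine hcl.trans ?_
      have : (C.card : ℤ) ≤ (2 * M : ℕ) := by exact_mod_cast hCc
      exact mul_le_mul_of_nonneg_right this (by linarith)
    · intro x hx
      rw [hS, Finset.mem_image] at hx
      obtain ⟨p, hp, rfl⟩ := hx
      rw [hTT, Finset.mem_filter] at hp
      obtain ⟨hpT, hpj⟩ := hp
      obtain ⟨⟨⟨a, ha⟩, ⟨b, hb⟩, hin, -⟩, hp1, hp2⟩ := hT p hpT
      have q1 : p.1 / 2 ^ i = a := by rw [ha]; exact Int.mul_ediv_cancel_left _ hEz.ne'
      have q2 : p.2 / 2 ^ i = b := by rw [hb]; exact Int.mul_ediv_cancel_left _ hEz.ne'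
      have hcrp : cr (v j) p = 2 ^ i * cr (v j) (a, b) := by
        unfold cr; rw [ha, hb]; ring
      have habs : |cr (v j) p| = 2 ^ i * |cr (v j) (a, b)| := by
        rw [hcrp, abs_mul, abs_of_pos hEz]
      have bnd : ∀ (x y : ℤ), x = 2 ^ i * y → |(x : ℝ)| ≤ R * N → |y| ≤ B := by
        intro x y hxy hx
        rw [hB, Int.le_floor]
        rw [le_div_iff₀ hE]
        rw [hxy] at hx
        push_cast at hx ⊢
        rw [abs_mul, abs_of_pos hE] at hx
        linarith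
      refine ⟨?_, ?_, ?_⟩
      · rw [q1, q2]
        have up : |cr (v j) (a, b)| ≤ K := by
          rw [hK, Int.le_ediv_iff_mul_le hEz]
          have := hin j
          have h2 : (0 : ℤ) ≤ V * (2 * 2 ^ i) := by positivity
          rw [habs] at this
          linarith
        have lo : K - M + 1 ≤ |cr (v j) (a, b)| := by
          have : K < |cr (v j) (a, b)| + M := by
            rw [hK, Int.ediv_lt_iff_lt_mul hEz]
            rw [habs] at hpj
            linarith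
          linarith
        rw [hC, Finset.mem_union, Finset.mem_Icc, Finset.mem_Icc]
        rcases le_total 0 (cr (v j) (a, b)) with h0 | h0
        · rw [abs_of_nonneg h0] at up lo
          left; exact ⟨lo, up⟩
        · rw [abs_of_nonpos h0] at up lo
          right; constructor <;> linarith
      · rw [q1]; exact bnd _ _ ha hp1
      · rw [q2]; exact bnd _ _ hb hp2
  have hsum : (T.card : ℤ) ≤ m * ((2 * M : ℕ) * (2 * B + 1)) := by
    calc (T.card : ℤ) ≤ ((Finset.univ.biUnion TT).card : ℤ) := by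
          exact_mod_cast Finset.card_le_card hsub
      _ ≤ ((∑ j, (TT j).card : ℕ) : ℤ) := by exact_mod_cast Finset.card_biUnion_le
      _ = ∑ j, ((TT j).card : ℤ) := by push_cast; rfl
      _ ≤ ∑ _j : Fin m, ((2 * M : ℕ) : ℤ) * (2 * B + 1) := Finset.sum_le_sum (fun j _ => hone j)
      _ = m * ((2 * M : ℕ) * (2 * B + 1)) := by simp
  have hsumR : (T.card : ℝ) ≤ m * ((2 * M) * (2 * B + 1)) := by exact_mod_cast hsum
  have hN1 : 1 ≤ N / 2 ^ i := by rw [le_div_iff₀ hE]; linarith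
  have hb2 : 2 * (B : ℝ) + 1 ≤ (2 * R + 1) * (N / 2 ^ i) := by
    have : R * N / 2 ^ i = R * (N / 2 ^ i) := by ring
    rw [this] at hB1
    linarith
  have hm0 : (0 : ℝ) ≤ m := Nat.cast_nonneg _
  have hM0 : (0 : ℝ) ≤ M := Nat.cast_nonneg _
  calc (T.card : ℝ) ≤ m * ((2 * M) * (2 * B + 1)) := hsumR
    _ ≤ m * ((2 * M) * ((2 * R + 1) * (N / 2 ^ i))) := by gcongr
    _ ≤ m * ((2 * (M + 2)) * ((2 * R + 1) * (N / 2 ^ i))) := by gcongr; linarith
    _ = 2 * m * (M + 2) * (2 * R + 1) * (N / 2 ^ i) := by ring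

end Pool.Agent.LB24
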