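import Pool.Agent.LT.Row
import Pool.Agent.WSB71.Defs

/-!
# LB24, module TREE: depth first search in a tree of sites

Levels `0, ..., n`, `S i` the nodes of level `i`, `par i : S i → S (i+1)`, `S n = {0}`.

`tree_tour`: by induction on `i ≤ n`: for `p ∈ S i` there is a closed loop at `p` which covers the regions
`R j q` of all descendants `q ∈ S j` of `p` (`j ≤ i`); define
`L 0 p = c 0`, `L (i+1) p = c (i+1) + ∑ q ∈ S i with par i q = p, (L i q + 2 c i)`;
inner induction over the finset of children (loop at `p`, down to `q`, loop of `q`, up to `p`).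
Summing over `p` with `Finset.sum_fiberwise_of_maps_to` gives
`∑ p ∈ S i, L i p ≤ 3 ∑ j ≤ i, #(S j) c j`.
`tree_travel`: follow the parents.
-/

open MeasureTheory Filter Topology
open scoped NNReal ENNReal Pointwise

namespace Pool.Agent.LB24

open Pool.Agent.LT Pool.Agent.WSB71

/-- The accumulated cost of the subtree below `p`. -/
noncomputable def treeL (S : ℕ → Finset Site) (par : ℕ → Site → Site) (f : ℕ → ℝ) :
    ℕ → Site → ℝ
  | 0, _ => f 0
  | (i + 1), p => f (i + 1) + ∑ q ∈ S i with par i q = p, (treeL S par f i q + 2 * f i)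

/-- The region covered by the tour of the subtree below `p`. -/
noncomputable def treeReg (S : ℕ → Finset Site) (par : ℕ → Site → Site) (R : ℕ → Site → Finset Site) :
    ℕ → Site → Finset Site
  | 0, p => R 0 p
  | (i + 1), p => R (i + 1) p ∪ ((S i).filter (fun q => par i q = p)).biUnion (treeReg S par R i)

lemma treeL_sum (S : ℕ → Finset Site) (par : ℕ → Site → Site) (f : ℕ → ℝ) (n : ℕ)
    (hpar : ∀ i < n, ∀ p ∈ S i, par i p ∈ S (i + 1)) (i : ℕ) (hi : i ≤ n) :
    ∑ p ∈ S i, treeL S par f i p + 2 * ((S i).card * f i) =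
      3 * ∑ j ∈ Finset.range (i + 1), (S j).card * f j := by
  induction i with
  | zero =>
    simp only [treeL, Finset.sum_const, nsmul_eq_mul, Finset.range_one, Finset.sum_singleton,
      zero_add]
    ring
  | succ i ih =>
    have ih' := ih (by omega)
    rw [Finset.sum_range_succ]
    have h1 : ∑ p ∈ S (i + 1), treeL S par f (i + 1) p =
        (S (i + 1)).card * f (i + 1) + ∑ q ∈ S i, (treeL S par f i q + 2 * f i) := by
      simp only [treeL]
      rw [Finset.sum_add_distrib, Finset.sum_const, nsmul_eq_mul,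
        Finset.sum_fiberwise_of_maps_to (hpar i (by omega))]
    rw [h1, Finset.sum_add_distrib, Finset.sum_const, nsmul_eq_mul]
    linear_combination ih'

lemma treeReg_mem (S : ℕ → Finset Site) (par : ℕ → Site → Site) (R : ℕ → Site → Finset Site) (n : ℕ)
    (hpar : ∀ i < n, ∀ p ∈ S i, par i p ∈ S (i + 1)) (i : ℕ) (hi : i ≤ n) :
    ∀ j ≤ i, ∀ q ∈ S j, ∀ z ∈ R j q, ∃ p ∈ S i, z ∈ treeReg S par R i p := by
  induction i with
  | zero =>
    intro j hj q hq z hz
    obtain rfl : j = 0 := by omega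
    exact ⟨q, hq, by simpa [treeReg] using hz⟩
  | succ i ih =>
    intro j hj q hq z hz
    rcases Nat.lt_or_ge j (i + 1) with h | h
    · obtain ⟨p, hp, hzp⟩ := ih (by omega) j (by omega) q hq z hz
      refine ⟨par i p, hpar i (by omega) p hp, ?_⟩
      simp only [treeReg, Finset.mem_union, Finset.mem_biUnion, Finset.mem_filter]
      exact Or.inr ⟨p, ⟨hp, rfl⟩, hzp⟩
    · obtain rfl : j = i + 1 := by omega
      refine ⟨q, hq, ?_⟩
      simp only [treeReg, Finset.mem_union]
      exact Or.inl hz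

lemma tree_cov {D : Finset Site} {β : ℝ} (S : ℕ → Finset Site) (par : ℕ → Site → Site)
    (R : ℕ → Site → Finset Site) (τ c : ℕ → ℝ) (n : ℕ)
    (hloop : ∀ i ≤ n, ∀ p ∈ S i, Cov D (R i p) β (τ i) p p (c i))
    (hup : ∀ i < n, ∀ p ∈ S i, Cov D ∅ β (τ i) p (par i p) (c i))
    (hdown : ∀ i < n, ∀ p ∈ S i, Cov D ∅ β (τ i) (par i p) p (c i)) (i : ℕ) (hi : i ≤ n) :
    ∀ p ∈ S i, Cov D (treeReg S par R i p) β (treeL S par τ i p) p p (treeL S par c i p) := by
  induction i with
  | zero =>
    intro p hp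
    simpa [treeL, treeReg] using hloop 0 (Nat.zero_le _) p hp
  | succ i ih =>
    intro p hp
    have key : ∀ T : Finset Site, T ⊆ (S i).filter (fun q => par i q = p) →
        Cov D (R (i + 1) p ∪ T.biUnion (treeReg S par R i)) β
          (τ (i + 1) + ∑ q ∈ T, (treeL S par τ i q + 2 * τ i)) p p
          (c (i + 1) + ∑ q ∈ T, (treeL S par c i q + 2 * c i)) := by
      intro T
      induction T using Finset.induction_on with
      | empty =>
        intro _
        simpa using hloop (i + 1) hi p hp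
      | insert q T hq ihT =>
        intro hT
        have hqS : q ∈ S i ∧ par i q = p := by
          have := hT (Finset.mem_insert_self q T)
          simpa only [Finset.mem_filter] using this
        have h1 := ihT ((Finset.subset_insert q T).trans hT)
        have h2 := hdown i (by omega) q hqS.1
        have h3 := ih (by omega) q hqS.1
        have h4 := hup i (by omega) q hqS.1
        rw [hqS.2] at h2 h4
        have h5 := ((h1.comp h2).comp h3).comp h4
        rw [Finset.sum_insert hq, Finset.sum_insert hq]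
        refine h5.mono (le_refl _) ?_ le_rfl (le_of_eq (by ring)) (le_of_eq (by ring))
        intro z hz
        simp only [Finset.mem_union, Finset.mem_biUnion, Finset.mem_insert, Finset.notMem_empty,
          or_false] at hz ⊢
        rcases hz with hz | ⟨w, rfl | hw, hz⟩
        · exact Or.inl (Or.inl hz)
        · exact Or.inr hz
        · exact Or.inl (Or.inr ⟨w, hw, hz⟩)
    have := key _ (Finset.Subset.refl _)
    simpa only [treeReg, treeL] using this

theorem tree_tour {D : Finset Site} {β : ℝ} (S : ℕ → Finset Site) (par : ℕ → Site → Site)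
    (R : ℕ → Site → Finset Site) (τ c : ℕ → ℝ) (n : ℕ)
    (hτ : ∀ i, 0 ≤ τ i) (hc : ∀ i, 0 ≤ c i)
    (hpar : ∀ i < n, ∀ p ∈ S i, par i p ∈ S (i + 1))
    (hloop : ∀ i ≤ n, ∀ p ∈ S i, Cov D (R i p) β (τ i) p p (c i))
    (hup : ∀ i < n, ∀ p ∈ S i, Cov D ∅ β (τ i) p (par i p) (c i))
    (hdown : ∀ i < n, ∀ p ∈ S i, Cov D ∅ β (τ i) (par i p) p (c i))
    (hroot : S n = {0}) :
    Cov D ((Finset.range (n + 1)).biUnion fun i => (S i).biUnion (R i)) β
      (3 * ∑ i ∈ Finset.range (n + 1), (S i).card * τ i) 0 0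
      (3 * ∑ i ∈ Finset.range (n + 1), (S i).card * c i) := by
  have h0 : (0 : Site) ∈ S n := by rw [hroot]; exact Finset.mem_singleton_self _
  have h1 := tree_cov S par R τ c n hloop hup hdown n le_rfl 0 h0
  have hs : ∀ f : ℕ → ℝ, (∀ i, 0 ≤ f i) →
      treeL S par f n 0 ≤ 3 * ∑ i ∈ Finset.range (n + 1), (S i).card * f i := by
    intro f hf
    have h2 := treeL_sum S par f n hpar n le_rfl
    rw [← h2]
    have h3 : ∑ p ∈ S n, treeL S par f n p = treeL S par f n 0 := by
      rw [hroot, Finset.sum_singleton]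
    rw [h3]
    have : 0 ≤ 2 * (((S n).card : ℝ) * f n) := by
      have := hf n
      positivity
    linarith
  refine h1.mono (le_refl _) ?_ le_rfl (hs τ hτ) (hs c hc)
  intro z hz
  simp only [Finset.mem_biUnion, Finset.mem_range] at hz
  obtain ⟨j, hj, q, hq, hzq⟩ := hz
  obtain ⟨p, hp, hzp⟩ := treeReg_mem S par R n hpar n le_rfl j (by omega) q hq z hzq
  rw [hroot, Finset.mem_singleton] at hp
  rw [← hp]
  exact hzp

theorem tree_travel {D : Finset Site} (h0 : (0 : Site) ∈ D) {β : ℝ} (S : ℕ → Finset Site)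
    (par : ℕ → Site → Site) (τ c : ℕ → ℝ) (n : ℕ)
    (hτ : ∀ i, 0 ≤ τ i) (hc : ∀ i, 0 ≤ c i)
    (hpar : ∀ i < n, ∀ p ∈ S i, par i p ∈ S (i + 1))
    (hup : ∀ i < n, ∀ p ∈ S i, Cov D ∅ β (τ i) p (par i p) (c i))
    (hdown : ∀ i < n, ∀ p ∈ S i, Cov D ∅ β (τ i) (par i p) p (c i))
    (hroot : S n = {0}) (i : ℕ) (hi : i ≤ n) (p : Site) (hp : p ∈ S i) :
    Cov D ∅ β (∑ j ∈ Finset.range n, τ j) p 0 (∑ j ∈ Finset.range n, c j) ∧
    Cov D ∅ β (∑ j ∈ Finset.range n, τ j) 0 p (∑ j ∈ Finset.range n, c j) := by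
  have key : ∀ d i : ℕ, i + d = n → ∀ p ∈ S i,
      Cov D ∅ β (∑ j ∈ Finset.Ico i n, τ j) p 0 (∑ j ∈ Finset.Ico i n, c j) ∧
      Cov D ∅ β (∑ j ∈ Finset.Ico i n, τ j) 0 p (∑ j ∈ Finset.Ico i n, c j) := by
    intro d
    induction d with
    | zero =>
      intro i hi p hp
      obtain rfl : i = n := by omega
      rw [hroot, Finset.mem_singleton] at hp
      subst hp
      simp only [Finset.Ico_self, Finset.sum_empty]
      exact ⟨cov_refl h0 β, cov_refl h0 β⟩
    | succ d ih =>
      intro i hi p hp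
      have hin : i < n := by omega
      obtain ⟨h1, h2⟩ := ih (i + 1) (by omega) (par i p) (hpar i hin p hp)
      have h3 := (hup i hin p hp).comp h1
      have h4 := h2.comp (hdown i hin p hp)
      rw [Finset.union_empty] at h3 h4
      rw [Finset.sum_eq_sum_Ico_succ_bot hin, Finset.sum_eq_sum_Ico_succ_bot hin]
      refine ⟨h3, ?_⟩
      rw [add_comm (τ i), add_comm (c i)]
      exact h4
  have hle : ∀ f : ℕ → ℝ, (∀ i, 0 ≤ f i) →
      ∑ j ∈ Finset.Ico i n, f j ≤ ∑ j ∈ Finset.range n, f j := by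
    intro f hf
    refine Finset.sum_le_sum_of_subset_of_nonneg ?_ (fun j _ _ => hf j)
    intro j hj
    rw [Finset.mem_range]
    exact (Finset.mem_Ico.1 hj).2
  obtain ⟨h1, h2⟩ := key (n - i) i (by omega) p hp
  exact ⟨h1.mono (le_refl _) (le_refl _) le_rfl (hle τ hτ) (hle c hc),
    h2.mono (le_refl _) (le_refl _) le_rfl (hle τ hτ) (hle c hc)⟩

end Pool.Agent.LB24
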