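import Pool.Agent.LB24.Box
import Pool.Agent.LB24.ScaleA
import Pool.Agent.LB24.ScaleB
import Pool.Agent.LB24.Tree

/-!
# LB24, module CORE: the tour of the core (assembly of BOX, TREE, SCALE)

`V ≥ max_j (|v_j 1| + |v_j 2|)`, `V ≥ 1`; `R' = 2 V R` bounds the sites of the region (`reg_bound`);
`A = 5V/r + 2`; `M ≥ 9 V, V (A R' + 1), 2 A R`; `I` the largest with `A 2^I ≤ N`, so
`N < 2 A 2^I` and `h_j ≤ R N < M 2^I`.  Levels: level `i < n = I - e + 1` of the tree is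
`{p | Sc v h V M (e + i) p}`, the last level is `{0}`.  `par` by `sc_parent` (choice), for the level `I` the
parent is `0`.  With `q = √2`: loop at `p`: `cov_bx` with radius `2 · 2^s`, `s = e + i` (covers `bx p (2^s)`,
contained in `D`); `p ↔ par p` by `travel_reg` with `H = 2^s`, `K ≥ 2 A R' + 1`.
Cost: `∑ #(S i) Γ β q^s ≤ ∑ Λ Γ β (N / 2^s) q^s ≤ 4 Λ Γ β N / q^e`.
`B = 4 V 2^e` and `sc_cover` shows that everything is covered.  Travels: `a ∈ bx p (2^s)` for some centre `p`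
(`sc_cover`); `a ↔ p` inside `bx p (2 · 2^s)`, `p ↔ 0` by `tree_travel`, cost `∑_i C √(2^i) ≤ C √N`.
-/

open MeasureTheory Filter Topology
open scoped NNReal ENNReal Pointwise

namespace Pool.Agent.LB24

open Pool.Agent.LT Pool.Agent.WSB71

namespace Core

/-- crude bound of the cross product -/
lemma cr_le {v u : Site} {V ρ : ℤ} (hV : |v.1| + |v.2| ≤ V) (h1 : |u.1| ≤ ρ) (h2 : |u.2| ≤ ρ) :
    |cr v u| ≤ V * ρ := by
  have hρ : 0 ≤ ρ := (abs_nonneg _).trans h1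
  unfold cr
  calc |u.1 * v.2 - u.2 * v.1| ≤ |u.1 * v.2| + |u.2 * v.1| := abs_sub _ _
    _ = |u.1| * |v.2| + |u.2| * |v.1| := by rw [abs_mul, abs_mul]
    _ ≤ ρ * |v.2| + ρ * |v.1| := by gcongr
    _ = (|v.1| + |v.2|) * ρ := by ring
    _ ≤ V * ρ := by gcongr

lemma cr_sub (v p z : Site) : cr v (z - p) = cr v z - cr v p := by
  unfold cr
  rw [Prod.fst_sub, Prod.snd_sub]
  ring

lemma bx_sub {m : ℕ} {v : Fin m → Site} {V : ℕ} (hV : ∀ j, |(v j).1| + |(v j).2| ≤ V)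
    {h : Fin m → ℤ} {D : Finset Site} (hD : ∀ z, z ∈ D ↔ ∀ j, |cr (v j) z| ≤ h j) {p : Site}
    {ρ : ℕ} (hp : ∀ j, |cr (v j) p| + V * ρ ≤ h j) : bx p ρ ⊆ D := by
  intro z hz
  rw [mem_bx] at hz
  rw [hD]
  intro j
  have h1 : cr (v j) z = cr (v j) p + cr (v j) (z - p) := by rw [cr_sub]; ring
  have h2 := cr_le (hV j) (u := z - p) (ρ := ρ) hz.1 hz.2
  rw [h1]
  exact (abs_add_le _ _).trans (by have := hp j; linarith)

lemma self_mem_bx (p : Site) (ρ : ℕ) : p ∈ bx p ρ := by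
  rw [mem_bx]
  simp

lemma bx_mono (p : Site) {ρ ρ' : ℕ} (h : ρ ≤ ρ') : bx p ρ ⊆ bx p ρ' := by
  intro z hz
  rw [mem_bx] at hz ⊢
  have : (ρ : ℤ) ≤ ρ' := by exact_mod_cast h
  exact ⟨hz.1.trans this, hz.2.trans this⟩

lemma exists_V {m : ℕ} (v : Fin m → Site) :
    ∃ V : ℕ, 1 ≤ V ∧ ∀ j, |(v j).1| + |(v j).2| ≤ V := by
  refine ⟨(∑ j, (|(v j).1| + |(v j).2|)).toNat + 1, by omega, fun j => ?_⟩
  have h1 : |(v j).1| + |(v j).2| ≤ ∑ j, (|(v j).1| + |(v j).2|) :=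
    Finset.single_le_sum (f := fun j => |(v j).1| + |(v j).2|)
      (fun i _ => add_nonneg (abs_nonneg _) (abs_nonneg _)) (Finset.mem_univ j)
  push_cast
  have h2 := Int.self_le_toNat (∑ j, (|(v j).1| + |(v j).2|))
  linarith

/-- `√2` -/
noncomputable def q : ℝ := Real.sqrt 2

lemma q_sq : q ^ 2 = 2 := Real.sq_sqrt (by norm_num)

lemma q_pos : 0 < q := Real.sqrt_pos.2 (by norm_num)

lemma q_lower : 4 / 3 ≤ q := Real.le_sqrt_of_sq_le (by norm_num)

lemma q_upper : q ≤ 3 / 2 := by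
  unfold q
  rw [Real.sqrt_le_iff]
  norm_num

lemma q_inv : q⁻¹ ≤ 3 / 4 := by
  rw [inv_le_comm₀ q_pos (by norm_num)]
  linarith [q_lower]

lemma two_pow (s : ℕ) : (2 : ℝ) ^ s = q ^ (2 * s) := by
  rw [pow_mul, q_sq]

lemma sqrt_two_pow (s : ℕ) : Real.sqrt ((2 : ℝ) ^ s) = q ^ s := by
  rw [two_pow, mul_comm, pow_mul, Real.sqrt_sq (pow_nonneg q_pos.le s)]

lemma sum_up {a : ℝ} (ha : 4 / 3 ≤ a) (e n : ℕ) :
    ∑ i ∈ Finset.range n, a ^ (e + i) ≤ 3 * a ^ (e + n) := by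
  have ha0 : 0 < a := by linarith
  induction n with
  | zero =>
    rw [Finset.sum_range_zero]
    positivity
  | succ n ih =>
    rw [Finset.sum_range_succ, ← add_assoc, pow_succ]
    have := pow_pos ha0 (e + n)
    nlinarith

lemma sum_down {b : ℝ} (hb0 : 0 ≤ b) (hb : b ≤ 3 / 4) (e n : ℕ) :
    ∑ i ∈ Finset.range n, b ^ (e + i) ≤ 4 * b ^ e := by
  have key : ∑ i ∈ Finset.range n, b ^ (e + i) ≤ 4 * (b ^ e - b ^ (e + n)) := by
    induction n with
    | zero => simp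
    | succ n ih =>
      rw [Finset.sum_range_succ, ← add_assoc, pow_succ]
      have := pow_nonneg hb0 (e + n)
      nlinarith
  have := pow_nonneg hb0 (e + n)
  linarith

/-- covering and travelling in a box -/
lemma loop {C1 : ℝ} (hC1 : 1 ≤ C1) (hbx : ∀ β : ℝ, 1 ≤ β → ∀ h : ℕ, 1 ≤ h → ∀ p x y : Site,
    x ∈ bx p h → y ∈ bx p h →
    Cov (bx p h) (bx p (h / 2)) β (C1 * β * ((h : ℝ) ^ 2 * Real.sqrt h)) x y
      (C1 * β * Real.sqrt h)) {β : ℝ} (hβ : 1 ≤ β) (s : ℕ) {D : Finset Site} {p x y : Site}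
    (hD : bx p (2 * 2 ^ s) ⊆ D) (hx : x ∈ bx p (2 * 2 ^ s)) (hy : y ∈ bx p (2 * 2 ^ s)) :
    Cov D (bx p (2 ^ s)) β (6 * C1 * β * q ^ (5 * s)) x y (6 * C1 * β * q ^ s) := by
  have h1 := hbx β hβ (2 * 2 ^ s) (by have := Nat.pos_of_ne_zero (pow_ne_zero s two_ne_zero); omega)
    p x y hx hy
  have e1 : ((2 * 2 ^ s : ℕ) : ℝ) = q ^ (2 * (s + 1)) := by
    rw [← two_pow]
    push_cast
    ring
  have e2 : Real.sqrt ((2 * 2 ^ s : ℕ) : ℝ) = q ^ (s + 1) := by
    rw [e1, mul_comm, pow_mul, Real.sqrt_sq (pow_nonneg q_pos.le _)]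
  have hq := q_pos
  have hq1 := q_upper
  have hβ0 : 0 < β := by linarith
  have hC0 : 0 < C1 := by linarith
  refine h1.mono hD ?_ le_rfl ?_ ?_
  · rw [Nat.mul_div_cancel_left _ (by norm_num)]
  · rw [e2, e1]
    have e3 : C1 * β * ((q ^ (2 * (s + 1))) ^ 2 * q ^ (s + 1)) = (q ^ 2) ^ 2 * q * (C1 * β * q ^ (5 * s)) := by
      ring
    rw [e3, q_sq]
    have : 0 < C1 * β * q ^ (5 * s) := by positivity
    nlinarith
  · rw [e2, pow_succ]
    have : 0 < C1 * β * q ^ s := by positivity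
    nlinarith

theorem aux {m : ℕ} (v : Fin m → Site) (hv : ∀ j, v j ≠ 0) (i₀ j₀ : Fin m)
    (hij : cr (v i₀) (v j₀) ≠ 0) {β : ℝ} (hβ : 1 ≤ β) {r R : ℝ} (hr : 0 < r) (hrR : r ≤ R) :
    ∃ (V : ℕ) (G A : ℝ), 0 ≤ G ∧ 2 ≤ A ∧ ∀ e : ℕ, 1 ≤ e → ∀ N : ℝ, A * 2 ^ e ≤ N →
      ∀ h : Fin m → ℤ, (∀ j, r * N ≤ h j) → (∀ j, (h j : ℝ) ≤ R * N) → ∀ D D' : Finset Site,
      (∀ z, z ∈ D ↔ ∀ j, |cr (v j) z| ≤ h j) →
      (∀ z, z ∈ D' ↔ ∀ j, |cr (v j) z| ≤ h j - 4 * V * 2 ^ e) →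
      Cov D D' β (G * (N ^ 2 * Real.sqrt N)) 0 0 (G * N * q⁻¹ ^ e) ∧
      ∀ a ∈ D', Cov D ∅ β (G * (N ^ 2 * Real.sqrt N)) 0 a (G * Real.sqrt N) ∧
        Cov D ∅ β (G * (N ^ 2 * Real.sqrt N)) a 0 (G * Real.sqrt N) := by
  classical
  obtain ⟨C1, hC1, hbx⟩ := cov_bx
  obtain ⟨C2, hC2, htr⟩ := travel_reg
  obtain ⟨V, hV1, hV⟩ := exists_V v
  have hm : 0 < m := i₀.pos
  have hR : 0 < R := hr.trans_le hrR
  have hV1' : (1 : ℝ) ≤ V := by exact_mod_cast hV1
  have hβ0 : 0 < β := by linarith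
  have hC10 : 0 < C1 := by linarith
  have hC20 : 0 < C2 := by linarith
  obtain ⟨R', hR'⟩ : ∃ R' : ℝ, R' = 2 * V * R := ⟨_, rfl⟩
  have hR'0 : 0 < R' := by rw [hR']; positivity
  obtain ⟨A, hA⟩ : ∃ A : ℝ, A = 5 * V / r + 2 := ⟨_, rfl⟩
  have hA2 : 2 ≤ A := by
    rw [hA]
    have : 0 ≤ 5 * V / r := by positivity
    linarith
  have hA0 : 0 < A := by linarith
  have hAr : 5 * V ≤ A * r := by
    rw [hA, add_mul, div_mul_cancel₀ _ hr.ne']
    linarith
  obtain ⟨M, hM0⟩ : ∃ M : ℕ, V * (A * R' + 1) + 9 * V + 2 * A * R ≤ M := ⟨_, Nat.le_ceil _⟩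
  have hM1 : V * (A * R' + 1) ≤ M := by
    refine le_trans ?_ hM0
    have : 0 ≤ 9 * (V : ℝ) + 2 * A * R := by positivity
    linarith
  have hM2 : 9 * V ≤ M := by
    have : (9 : ℝ) * V ≤ M := by
      refine le_trans ?_ hM0
      have : 0 ≤ (V : ℝ) * (A * R' + 1) + 2 * A * R := by positivity
      linarith
    exact_mod_cast this
  have hM3 : 2 * A * R ≤ M := by
    refine le_trans ?_ hM0
    have : 0 ≤ (V : ℝ) * (A * R' + 1) + 9 * V := by positivity
    linarith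
  obtain ⟨K, hK⟩ : ∃ K : ℕ, 2 * A * R' + 1 ≤ K := ⟨_, Nat.le_ceil _⟩
  have hK1 : 1 ≤ K := by
    have : (1 : ℝ) ≤ K := le_trans (by have : 0 < 2 * A * R' := by positivity
                                       linarith) hK
    exact_mod_cast this
  have hK0 : (0 : ℝ) < K := by
    have : (1 : ℝ) ≤ K := by exact_mod_cast hK1
    linarith
  obtain ⟨Λ, hΛ⟩ : ∃ Λ : ℝ, Λ = 2 * m * (M + 2) * (2 * R' + 1) + 1 := ⟨_, rfl⟩
  have hΛ1 : 1 ≤ Λ := by
    rw [hΛ]
    have : 0 ≤ (2 : ℝ) * m * (M + 2) * (2 * R' + 1) := by positivity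
    linarith
  have hΛ0 : 0 < Λ := by linarith
  obtain ⟨Γ, hΓ⟩ : ∃ Γ : ℝ, Γ = 6 * C1 + K * C2 := ⟨_, rfl⟩
  have hΓ0 : 0 < Γ := by rw [hΓ]; positivity
  have hΓ1 : 6 * C1 ≤ Γ := by
    rw [hΓ]
    have : 0 < K * C2 := by positivity
    linarith
  have hΓ2 : K * C2 ≤ Γ := by rw [hΓ]; linarith
  have hq := q_pos
  refine ⟨V, 36 * Λ * Γ * β, A, by positivity, hA2, ?_⟩
  intro e he N hN h hh1 hh2 D D' hD hD'
  -- the largest scale
  have hN1 : 1 ≤ N / A := by
    rw [one_le_div hA0]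
    refine le_trans ?_ hN
    have : (1 : ℝ) ≤ 2 ^ e := one_le_pow₀ (by norm_num)
    exact le_mul_of_one_le_right hA0.le this
  have hN0 : 0 < N := by
    have : 0 < A * 2 ^ e := by positivity
    linarith
  obtain ⟨I, hI1, hI2⟩ := exists_nat_pow_near hN1 (by norm_num : (1 : ℝ) < 2)
  rw [le_div_iff₀ hA0] at hI1
  rw [div_lt_iff₀ hA0] at hI2
  have heI : e ≤ I := by
    have h1 : (2 : ℝ) ^ e < 2 ^ (I + 1) := by
      have : (2 : ℝ) ^ e * A < 2 ^ (I + 1) * A := by linarith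
      exact lt_of_mul_lt_mul_right this hA0.le
    have h2 := (pow_lt_pow_iff_right₀ (by norm_num : (1 : ℝ) < 2)).1 h1
    omega
  obtain ⟨n, hn⟩ : ∃ n, n = I - e + 1 := ⟨_, rfl⟩
  have hen : e + n = I + 1 := by omega
  -- `q ^ (I + 1) ≤ √N`
  have hq1 : q ^ (I + 1) ≤ Real.sqrt N := by
    apply Real.le_sqrt_of_sq_le
    rw [← pow_mul, mul_comm, ← two_pow, pow_succ]
    exact (mul_le_mul_of_nonneg_left hA2 (pow_nonneg (by norm_num) I)).trans hI1
  have hsq : Real.sqrt N ^ 2 = N := Real.sq_sqrt hN0.le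
  have hsq0 : 0 < Real.sqrt N := Real.sqrt_pos.2 hN0
  have hscale : ∀ s ≤ I, A * 2 ^ s ≤ N := by
    intro s hs
    have : (2 : ℝ) ^ s ≤ 2 ^ I := pow_le_pow_right₀ (by norm_num) hs
    rw [mul_comm]
    exact (mul_le_mul_of_nonneg_right this hA0.le).trans hI1
  have hhI : ∀ j, h j < M * 2 ^ I := by
    intro j
    have h1 : (h j : ℝ) < M * 2 ^ I := by
      refine (hh2 j).trans_lt ?_
      have h3 : (0 : ℝ) < 2 ^ I := by positivity
      calc R * N < R * (2 ^ (I + 1) * A) := by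
            apply mul_lt_mul_of_pos_left hI2 hR
        _ = 2 * A * R * 2 ^ I := by ring
        _ ≤ M * 2 ^ I := by gcongr
    exact_mod_cast h1
  -- bounds for sites
  have hreg : ∀ z ∈ D, |(z.1 : ℝ)| ≤ R' * N ∧ |(z.2 : ℝ)| ≤ R' * N := by
    intro z hz
    have hL : ∀ j, h j ≤ ⌊R * N⌋ := fun j => Int.le_floor.2 (hh2 j)
    obtain ⟨h1, h2⟩ := reg_bound v i₀ j₀ hij V hV h _ hL z ((hD z).1 hz)
    have h3 : (⌊R * N⌋ : ℝ) ≤ R * N := Int.floor_le _
    have h4 : |(z.1 : ℝ)| ≤ 2 * V * ⌊R * N⌋ := by exact_mod_cast h1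
    have h5 : |(z.2 : ℝ)| ≤ 2 * V * ⌊R * N⌋ := by exact_mod_cast h2
    have h6 : 2 * (V : ℝ) * ⌊R * N⌋ ≤ R' * N := by
      rw [hR', mul_assoc _ R N]
      gcongr
    exact ⟨h4.trans h6, h5.trans h6⟩
  have hScD : ∀ i p, Sc v h V M i p → bx p (2 * 2 ^ i) ⊆ D := by
    intro i p hp
    refine bx_sub hV hD fun j => ?_
    have := hp.2.2.1 j
    push_cast
    exact this
  have h0D : (0 : Site) ∈ D := by
    rw [hD]
    intro j
    have h1 : cr (v j) 0 = 0 := by
      unfold cr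
      simp
    rw [h1, abs_zero]
    have h2 : (0 : ℝ) ≤ h j := le_trans (by positivity) (hh1 j)
    exact_mod_cast h2
  -- the tree
  obtain ⟨S, hSlt, hSn⟩ : ∃ S : ℕ → Finset Site,
      (∀ i < n, ∀ p, p ∈ S i ↔ Sc v h V M (e + i) p) ∧ S n = {0} := by
    refine ⟨fun i => if i < n then D.filter (fun p => Sc v h V M (e + i) p) else {0}, ?_, ?_⟩
    · intro i hi p
      simp only [if_pos hi, Finset.mem_filter]
      exact ⟨fun h => h.2, fun h => ⟨hScD _ _ h (self_mem_bx _ _), h⟩⟩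
    · simp only [lt_irrefl, if_false]
  have hpar' : ∀ i p, ∃ p', (i < n → p ∈ S i → p' ∈ S (i + 1) ∧
      Cov D ∅ β (Γ * β * q ^ (5 * (e + i))) p p' (Γ * β * q ^ (e + i)) ∧
      Cov D ∅ β (Γ * β * q ^ (5 * (e + i))) p' p (Γ * β * q ^ (e + i))) := by
    intro i p
    by_cases hi : i < n ∧ p ∈ S i
    swap
    · exact ⟨0, fun h1 h2 => absurd ⟨h1, h2⟩ hi⟩
    obtain ⟨hi, hp⟩ := hi
    have hSc := (hSlt i hi p).1 hp
    have hpD : p ∈ D := hScD _ _ hSc (self_mem_bx _ _)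
    have hpb := hreg p hpD
    have hsI : e + i ≤ I := by omega
    have hs1 : 2 ≤ 2 ^ (e + i) := by
      calc 2 = 2 ^ 1 := rfl
        _ ≤ 2 ^ (e + i) := Nat.pow_le_pow_right (by norm_num) (by omega)
    -- travelling
    have hgo : ∀ p' : Site, (∀ j, |cr (v j) p'| + V * (2 * (2 ^ (e + i) : ℕ)) ≤ h j) →
        |(p.1 : ℝ) - p'.1| ≤ (2 * A * R' + 1) * 2 ^ (e + i) →
        |(p.2 : ℝ) - p'.2| ≤ (2 * A * R' + 1) * 2 ^ (e + i) →
        Cov D ∅ β (Γ * β * q ^ (5 * (e + i))) p p' (Γ * β * q ^ (e + i)) ∧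
        Cov D ∅ β (Γ * β * q ^ (5 * (e + i))) p' p (Γ * β * q ^ (e + i)) := by
      intro p' hp' d1 d2
      have e1 : ∀ j, |cr (v j) p| + V * (2 * (2 ^ (e + i) : ℕ)) ≤ h j := by
        intro j
        have := hSc.2.2.1 j
        push_cast
        exact this
      have e2 : ∀ x : ℤ, |(x : ℝ)| ≤ (2 * A * R' + 1) * 2 ^ (e + i) → |x| ≤ (K * 2 ^ (e + i) : ℕ) := by
        intro x hx
        have h1 : |(x : ℝ)| ≤ K * 2 ^ (e + i) := hx.trans (by gcongr)
        exact_mod_cast h1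
      have d1' : |p.1 - p'.1| ≤ (K * 2 ^ (e + i) : ℕ) := e2 _ (by push_cast; exact d1)
      have d2' : |p.2 - p'.2| ≤ (K * 2 ^ (e + i) : ℕ) := e2 _ (by push_cast; exact d2)
      have hD1 : ∀ z, InReg v h z → z ∈ D := fun z hz => (hD z).2 hz
      have t1 := htr β hβ m v h D hD1 V hV (2 ^ (e + i)) K hs1 hK1 p p' e1 hp' d1' d2'
      have t2 := htr β hβ m v h D hD1 V hV (2 ^ (e + i)) K hs1 hK1 p' p hp' e1
        (by rwa [abs_sub_comm]) (by rwa [abs_sub_comm])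
      have f1 : Real.sqrt ((2 ^ (e + i) : ℕ) : ℝ) = q ^ (e + i) := by
        push_cast
        exact sqrt_two_pow _
      have f2 : (K : ℝ) * (C2 * β * ((((2 ^ (e + i) : ℕ) : ℝ)) ^ 2 * Real.sqrt ((2 ^ (e + i) : ℕ) : ℝ)))
          ≤ Γ * β * q ^ (5 * (e + i)) := by
        rw [f1]
        push_cast
        rw [two_pow]
        have e3 : (K : ℝ) * (C2 * β * ((q ^ (2 * (e + i))) ^ 2 * q ^ (e + i))) =
            K * C2 * β * q ^ (5 * (e + i)) := by ring
        rw [e3]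
        gcongr
      have f3 : (K : ℝ) * (C2 * β * Real.sqrt ((2 ^ (e + i) : ℕ) : ℝ)) ≤ Γ * β * q ^ (e + i) := by
        rw [f1]
        have e3 : (K : ℝ) * (C2 * β * q ^ (e + i)) = K * C2 * β * q ^ (e + i) := by ring
        rw [e3]
        gcongr
      exact ⟨t1.mono subset_rfl subset_rfl le_rfl f2 f3, t2.mono subset_rfl subset_rfl le_rfl f2 f3⟩
    by_cases hin : i + 1 = n
    · -- the root
      refine ⟨0, fun _ _ => ⟨by rw [hin, hSn]; exact Finset.mem_singleton_self _, ?_⟩⟩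
      refine hgo 0 ?_ ?_ ?_
      · intro j
        have h1 : cr (v j) 0 = 0 := by
          unfold cr
          simp
        rw [h1, abs_zero, zero_add]
        have h2 : (V : ℝ) * (2 * 2 ^ (e + i)) ≤ h j := by
          refine le_trans ?_ (hh1 j)
          have h3 := hscale _ hsI
          have h4 : (0 : ℝ) < 2 ^ (e + i) := by positivity
          calc (V : ℝ) * (2 * 2 ^ (e + i)) = (2 * V) * 2 ^ (e + i) := by ring
            _ ≤ (5 * V) * 2 ^ (e + i) := by gcongr; norm_num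
            _ ≤ A * r * 2 ^ (e + i) := by gcongr
            _ = r * (A * 2 ^ (e + i)) := by ring
            _ ≤ r * N := by gcongr
        exact_mod_cast h2
      · have h1 : I = e + i := by omega
        have h2 : |(p.1 : ℝ) - ((0 : Site).1 : ℤ)| ≤ R' * N := by
          simpa using hpb.1
        refine h2.trans ?_
        rw [h1] at hI2
        have h4 : (0 : ℝ) < 2 ^ (e + i) := by positivity
        calc R' * N ≤ R' * (2 ^ (e + i + 1) * A) := by gcongr
          _ = 2 * A * R' * 2 ^ (e + i) := by ring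
          _ ≤ (2 * A * R' + 1) * 2 ^ (e + i) := by gcongr; linarith
      · have h1 : I = e + i := by omega
        have h2 : |(p.2 : ℝ) - ((0 : Site).2 : ℤ)| ≤ R' * N := by
          simpa using hpb.2
        refine h2.trans ?_
        rw [h1] at hI2
        have h4 : (0 : ℝ) < 2 ^ (e + i) := by positivity
        calc R' * N ≤ R' * (2 ^ (e + i + 1) * A) := by gcongr
          _ = 2 * A * R' * 2 ^ (e + i) := by ring
          _ ≤ (2 * A * R' + 1) * 2 ^ (e + i) := by gcongr; linarith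
    · obtain ⟨p', hp', d1, d2⟩ := sc_parent v V M hV hA0 hr hR'0.le hN0 hAr hM1 h hh1 (e + i)
        (hscale _ hsI) p hSc hpb.1 hpb.2
      have h5 : (A * R' + 1) * 2 ^ (e + i) ≤ (2 * A * R' + 1) * 2 ^ (e + i) := by
        gcongr
        have : 0 < A * R' := by positivity
        linarith
      refine ⟨p', fun _ _ => ⟨(hSlt (i + 1) (by omega) p').2 hp', ?_⟩⟩
      refine hgo p' ?_ (d1.trans h5) (d2.trans h5)
      intro j
      have h1 := hp'.2.2.1 j
      refine le_trans ?_ h1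
      push_cast
      have hV0 : (0 : ℤ) ≤ V * 2 ^ (e + i) := by positivity
      have h6 : (V : ℤ) * (2 * 2 ^ (e + i + 1)) = V * (2 * 2 ^ (e + i)) + 2 * (V * 2 ^ (e + i)) := by
        rw [pow_succ]
        ring
      rw [h6]
      exact add_le_add_right (le_add_of_nonneg_right (mul_nonneg (by norm_num) hV0)) _
  choose par hpar using hpar'
  -- covering the sites of `D'`
  have hcov : ∀ z ∈ D', ∃ i < n, ∃ p ∈ S i, z ∈ bx p (2 ^ (e + i)) := by
    intro z hz
    have hz' := (hD' z).1 hz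
    obtain ⟨s, hs1, hs2, p, hp, hzp⟩ := sc_cover hm v V M hV hV1 hM2 h e I heI hhI z
      (fun j => by have := hz' j; linarith)
    refine ⟨s - e, by omega, p, ?_, ?_⟩
    · rw [hSlt (s - e) (by omega) p, show e + (s - e) = s by omega]
      exact hp
    · rw [show e + (s - e) = s by omega]
      exact hzp
  -- number of nodes
  have hcard : ∀ i ≤ n, ((S i).card : ℝ) ≤ Λ * (N / 2 ^ (e + i)) := by
    intro i hi
    rcases hi.lt_or_eq with hi | hi
    · have h1 : (2 : ℝ) ^ (e + i) ≤ N := by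
        have := hscale (e + i) (by omega)
        exact (le_mul_of_one_le_left (by positivity) (by linarith only [hA2])).trans this
      refine (sc_card v hv V M hR'0.le hN0 h (e + i) h1 (S i) fun p hp => ?_).trans ?_
      · have h2 := (hSlt i hi p).1 hp
        exact ⟨h2, hreg p (hScD _ _ h2 (self_mem_bx _ _))⟩
      · rw [hΛ]
        have : 0 ≤ N / 2 ^ (e + i) := by positivity
        exact mul_le_mul_of_nonneg_right (le_add_of_nonneg_right zero_le_one) this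
    · rw [hi, hSn, Finset.card_singleton, hen]
      have h1 : (1 : ℝ) ≤ N / 2 ^ (I + 1) := by
        rw [one_le_div (by positivity), pow_succ]
        exact (mul_le_mul_of_nonneg_left hA2 (pow_nonneg (by norm_num) I)).trans hI1
      push_cast
      exact one_le_mul_of_one_le_of_one_le hΛ1 h1
  have hτ0 : ∀ i, 0 ≤ Γ * β * q ^ (5 * (e + i)) := fun i => by positivity
  have hc0 : ∀ i, 0 ≤ Γ * β * q ^ (e + i) := fun i => by positivity
  have hloop : ∀ i < n, ∀ p ∈ S i, ∀ x ∈ bx p (2 ^ (e + i)), ∀ y ∈ bx p (2 ^ (e + i)),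
      Cov D (bx p (2 ^ (e + i))) β (Γ * β * q ^ (5 * (e + i))) x y (Γ * β * q ^ (e + i)) := by
    intro i hi p hp x hx y hy
    have h2 : bx p (2 ^ (e + i)) ⊆ bx p (2 * 2 ^ (e + i)) := bx_mono p (by omega)
    refine (loop hC1 hbx hβ (e + i) (hScD _ _ ((hSlt i hi p).1 hp)) (h2 hx) (h2 hy)).mono
      subset_rfl subset_rfl le_rfl ?_ ?_
    · gcongr
    · gcongr
  constructor
  · -- the tour
    have ht := tree_tour (D := D) (β := β) S par
      (fun i p => if i < n then bx p (2 ^ (e + i)) else ∅)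
      (fun i => Γ * β * q ^ (5 * (e + i))) (fun i => Γ * β * q ^ (e + i)) n hτ0 hc0
      (fun i hi p hp => (hpar i p hi hp).1) (by
        intro i hi p hp
        rcases hi.lt_or_eq with hi | hi
        · simp only [if_pos hi]
          exact hloop i hi p hp p (self_mem_bx _ _) p (self_mem_bx _ _)
        · subst hi
          simp only [lt_irrefl, if_false]
          rw [hSn, Finset.mem_singleton] at hp
          rw [hp]
          exact (cov_refl h0D β).mono subset_rfl subset_rfl le_rfl (hτ0 _) (hc0 _))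
      (fun i hi p hp => (hpar i p hi hp).2.1) (fun i hi p hp => (hpar i p hi hp).2.2) hSn
    refine ht.mono subset_rfl ?_ le_rfl ?_ ?_
    · intro z hz
      obtain ⟨i, hi, p, hp, hzp⟩ := hcov z hz
      rw [Finset.mem_biUnion]
      refine ⟨i, Finset.mem_range.2 (by omega), ?_⟩
      rw [Finset.mem_biUnion]
      refine ⟨p, hp, ?_⟩
      rw [if_pos hi]
      exact hzp
    · have h1 : ∑ i ∈ Finset.range (n + 1), ((S i).card : ℝ) * (Γ * β * q ^ (5 * (e + i))) ≤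
          ∑ i ∈ Finset.range (n + 1), Λ * Γ * β * N * (q ^ 3) ^ (e + i) := by
        refine Finset.sum_le_sum fun i hi => ?_
        rw [Finset.mem_range] at hi
        refine (mul_le_mul_of_nonneg_right (hcard i (by omega)) (hτ0 i)).trans (le_of_eq ?_)
        rw [two_pow]
        field_simp
        ring
      have h2 := sum_up (a := q ^ 3) (by
        have h3 := q_lower
        have h4 : q ^ 3 = 2 * q := by rw [pow_succ, q_sq]
        linarith) e (n + 1)
      rw [← Finset.mul_sum] at h1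
      have h3 : (q ^ 3) ^ (e + (n + 1)) ≤ 4 * (N * Real.sqrt N) := by
        have e1 : (q ^ 3) ^ (e + (n + 1)) = (2 * q) * (q ^ (I + 1)) ^ 3 := by
          have e2 : q ^ 3 = q ^ 2 * q := by ring
          rw [← add_assoc, hen, pow_succ, e2, q_sq]
          have e3 : (q ^ (I + 1)) ^ 3 = (2 * q) ^ (I + 1) := by
            rw [← pow_mul, mul_comm (I + 1) 3, pow_mul, e2, q_sq]
          rw [e3]
          ring
        rw [e1]
        have e2 : (q ^ (I + 1)) ^ 3 ≤ Real.sqrt N ^ 3 := by gcongr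
        have e3 : Real.sqrt N ^ 3 = N * Real.sqrt N := by rw [pow_succ, hsq]
        rw [e3] at e2
        have e4 : 2 * q ≤ 4 := by linarith [q_upper]
        exact mul_le_mul e4 e2 (by positivity) (by norm_num)
      calc 3 * ∑ i ∈ Finset.range (n + 1), ((S i).card : ℝ) * (Γ * β * q ^ (5 * (e + i)))
          ≤ 3 * (Λ * Γ * β * N * (3 * (4 * (N * Real.sqrt N)))) := by
            gcongr
            refine h1.trans ?_
            gcongr
            exact h2.trans (by gcongr)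
        _ = 36 * Λ * Γ * β * (N ^ 2 * Real.sqrt N) := by ring
    · have h1 : ∑ i ∈ Finset.range (n + 1), ((S i).card : ℝ) * (Γ * β * q ^ (e + i)) ≤
          ∑ i ∈ Finset.range (n + 1), Λ * Γ * β * N * q⁻¹ ^ (e + i) := by
        refine Finset.sum_le_sum fun i hi => ?_
        rw [Finset.mem_range] at hi
        refine (mul_le_mul_of_nonneg_right (hcard i (by omega)) (hc0 i)).trans (le_of_eq ?_)
        rw [two_pow, inv_pow]
        field_simp
        ring
      have h2 := sum_down (inv_nonneg.2 hq.le) q_inv e (n + 1)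
      rw [← Finset.mul_sum] at h1
      calc 3 * ∑ i ∈ Finset.range (n + 1), ((S i).card : ℝ) * (Γ * β * q ^ (e + i))
          ≤ 3 * (Λ * Γ * β * N * (4 * q⁻¹ ^ e)) := by
            gcongr
            refine h1.trans ?_
            gcongr
        _ = 12 * (Λ * Γ * β * N * q⁻¹ ^ e) := by ring
        _ ≤ 36 * (Λ * Γ * β * N * q⁻¹ ^ e) := by
            have : 0 ≤ Λ * Γ * β * N * q⁻¹ ^ e := by positivity
            linarith
        _ = 36 * Λ * Γ * β * N * q⁻¹ ^ e := by ring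
  · -- the travels
    intro a ha
    obtain ⟨i, hi, p, hp, hap⟩ := hcov a ha
    obtain ⟨t1, t2⟩ := tree_travel h0D (β := β) S par
      (fun i => Γ * β * q ^ (5 * (e + i))) (fun i => Γ * β * q ^ (e + i)) n hτ0 hc0
      (fun i hi p hp => (hpar i p hi hp).1)
      (fun i hi p hp => (hpar i p hi hp).2.1) (fun i hi p hp => (hpar i p hi hp).2.2) hSn
      i hi.le p hp
    have l1 := (hloop i hi p hp a hap p (self_mem_bx _ _)).mono subset_rfl
      (Finset.empty_subset _) le_rfl le_rfl le_rfl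
    have l2 := (hloop i hi p hp p (self_mem_bx _ _) a hap).mono subset_rfl
      (Finset.empty_subset _) le_rfl le_rfl le_rfl
    have hqs : q ^ (e + i) ≤ Real.sqrt N := by
      refine le_trans ?_ hq1
      exact pow_le_pow_right₀ (by linarith [q_lower]) (by omega)
    have hs5 : Real.sqrt N ^ 5 = N ^ 2 * Real.sqrt N := by
      calc Real.sqrt N ^ 5 = (Real.sqrt N ^ 2) ^ 2 * Real.sqrt N := by ring
        _ = N ^ 2 * Real.sqrt N := by rw [hsq]
    have g1 : ∑ j ∈ Finset.range n, Γ * β * q ^ (e + j) + Γ * β * q ^ (e + i) ≤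
        36 * Λ * Γ * β * Real.sqrt N := by
      rw [← Finset.mul_sum]
      have h1 := sum_up q_lower e n
      rw [hen] at h1
      calc Γ * β * ∑ j ∈ Finset.range n, q ^ (e + j) + Γ * β * q ^ (e + i)
          ≤ Γ * β * (3 * Real.sqrt N) + Γ * β * Real.sqrt N := by
            gcongr
            exact h1.trans (by gcongr)
        _ = 4 * (1 * (Γ * β * Real.sqrt N)) := by ring
        _ ≤ 36 * (Λ * (Γ * β * Real.sqrt N)) := by gcongr; norm_num
        _ = 36 * Λ * Γ * β * Real.sqrt N := by ring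
    have g2 : ∑ j ∈ Finset.range n, Γ * β * q ^ (5 * (e + j)) + Γ * β * q ^ (5 * (e + i)) ≤
        36 * Λ * Γ * β * (N ^ 2 * Real.sqrt N) := by
      rw [← Finset.mul_sum]
      have h1 : ∑ j ∈ Finset.range n, q ^ (5 * (e + j)) ≤ 3 * (N ^ 2 * Real.sqrt N) := by
        have h2 := sum_up (a := q ^ 5) (by
          have h3 : q ^ 5 = 4 * q := by
            calc q ^ 5 = (q ^ 2) ^ 2 * q := by ring
              _ = 4 * q := by rw [q_sq]; norm_num
          linarith [q_lower]) e n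
        rw [hen] at h2
        simp only [← pow_mul] at h2
        refine h2.trans ?_
        rw [← hs5]
        have h3 : q ^ (5 * (I + 1)) ≤ Real.sqrt N ^ 5 := by
          rw [mul_comm, pow_mul]
          gcongr
        linarith
      have h2 : q ^ (5 * (e + i)) ≤ N ^ 2 * Real.sqrt N := by
        rw [← hs5, mul_comm, pow_mul]
        gcongr
      calc Γ * β * ∑ j ∈ Finset.range n, q ^ (5 * (e + j)) + Γ * β * q ^ (5 * (e + i))
          ≤ Γ * β * (3 * (N ^ 2 * Real.sqrt N)) + Γ * β * (N ^ 2 * Real.sqrt N) := by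
            gcongr
        _ = 4 * (1 * (Γ * β * (N ^ 2 * Real.sqrt N))) := by ring
        _ ≤ 36 * (Λ * (Γ * β * (N ^ 2 * Real.sqrt N))) := by gcongr; norm_num
        _ = 36 * Λ * Γ * β * (N ^ 2 * Real.sqrt N) := by ring
    constructor
    · refine (t2.comp l2).mono subset_rfl (Finset.empty_subset _) le_rfl ?_ ?_
      · exact g2
      · exact g1
    · refine (l1.comp t1).mono subset_rfl (Finset.empty_subset _) le_rfl ?_ ?_
      · rw [add_comm]
        exact g2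
      · rw [add_comm]
        exact g1

end Core

theorem core_tour {m : ℕ} (v : Fin m → Site) (hv : ∀ j, v j ≠ 0) (i₀ j₀ : Fin m)
    (hij : cr (v i₀) (v j₀) ≠ 0) {β : ℝ} (hβ : 1 ≤ β) {r R η : ℝ} (hr : 0 < r) (hrR : r ≤ R)
    (hη : 0 < η) :
    ∃ B : ℤ, 0 ≤ B ∧ ∃ C N₀ : ℝ, 0 ≤ C ∧ 1 ≤ N₀ ∧ ∀ N : ℝ, N₀ ≤ N → ∀ h : Fin m → ℤ,
      (∀ j, r * N ≤ h j) → (∀ j, (h j : ℝ) ≤ R * N) → ∀ D D' : Finset Site,
      (∀ z, z ∈ D ↔ ∀ j, |cr (v j) z| ≤ h j) → (∀ z, z ∈ D' ↔ ∀ j, |cr (v j) z| ≤ h j - B) →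
      Cov D D' β (C * (N ^ 2 * Real.sqrt N)) 0 0 (η * N) ∧
      ∀ a ∈ D', Cov D ∅ β (C * (N ^ 2 * Real.sqrt N)) 0 a (C * Real.sqrt N) ∧
        Cov D ∅ β (C * (N ^ 2 * Real.sqrt N)) a 0 (C * Real.sqrt N) := by
  obtain ⟨V, G, A, hG, hA, H⟩ := Core.aux v hv i₀ j₀ hij hβ hr hrR
  obtain ⟨e, he⟩ : ∃ e : ℕ, Core.q⁻¹ ^ e < η / (G + 1) := by
    refine exists_pow_lt_of_lt_one (by positivity) ?_
    have := Core.q_inv
    linarith
  have he1 : G * Core.q⁻¹ ^ (e + 1) ≤ η := by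
    have hq0 : 0 < Core.q⁻¹ := inv_pos.2 Core.q_pos
    have h1 : Core.q⁻¹ ^ (e + 1) ≤ η / (G + 1) := by
      refine le_trans ?_ he.le
      rw [pow_succ]
      have h2 := Core.q_inv
      have h3 : 0 < Core.q⁻¹ ^ e := by positivity
      nlinarith
    calc G * Core.q⁻¹ ^ (e + 1) ≤ G * (η / (G + 1)) := by gcongr
      _ ≤ (G + 1) * (η / (G + 1)) := by
          have : 0 ≤ η / (G + 1) := by positivity
          nlinarith
      _ = η := mul_div_cancel₀ _ (by positivity)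
  refine ⟨4 * V * 2 ^ (e + 1), by positivity, G, max 1 (A * 2 ^ (e + 1)), hG, le_max_left _ _, ?_⟩
  intro N hN h hh1 hh2 D D' hD hD'
  obtain ⟨h1, h2⟩ := H (e + 1) (by omega) N ((le_max_right _ _).trans hN) h hh1 hh2 D D' hD hD'
  refine ⟨h1.mono subset_rfl subset_rfl le_rfl le_rfl ?_, h2⟩
  have hN0 : 0 ≤ N := le_trans (by norm_num) ((le_max_left _ _).trans hN)
  calc G * N * Core.q⁻¹ ^ (e + 1) = (G * Core.q⁻¹ ^ (e + 1)) * N := by ring
    _ ≤ η * N := by gcongr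

end Pool.Agent.LB24
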