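import Pool.Agent.LT.Fill
import Pool.Agent.WSB71.RealDef

/-!
# LB24: definitions for the lower bound (task WSB71-B1, helper24)

`lb_main` of `WSB71/LBStat.lean`: a path which covers a discrete zonogon.

Plan.  `v : Fin m → Site` with `cr (v i) (v j) > 0` for `i < j`, `κ : Fin m → ℕ` (`κ_j = ⌈x_j N / 2⌉`),
`h_j = ∑_i κ_i |cr (v_j) (v_i)|`; the region of depth `b` is `{z | ∀ j, |cr (v_j) z| ≤ h_j - b}`
(`InReg v (h - b)`).  Vertices `P_j = ∑_{i<j} κ_i v_i - ∑_{i≥j} κ_i v_i`; the side `j` goes from `P_j` to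
`Q_j = P_j + 2 κ_j v_j` (structure `Poly`), the opposite side is its image under `z ↦ -z`.
Every part of the path is a closed loop at `0`:
 * `Core`: a tour covering `InReg v (h - b1 - B)` inside `InReg v (h - b1)` at cost `η N`, and
   travels `0 ↔ a` at cost `C √N` for every `a` in `InReg v (h - b1 - B)`
   (dyadic squares, organised as a tree, depth first search);
 * blob loops: `0 → a → cover the box of radius ρ around the vertex → a → 0`;
 * row loops: `0 → a → start of the row → row → end of the row → a' → 0`;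
and finally the path stays in the core up to time `t`.
-/

open MeasureTheory Filter Topology
open scoped NNReal ENNReal Pointwise

namespace Pool.Agent.LB24

open Pool.Agent.LT Pool.Agent.WSB71

/-- The box of radius `h` (sup norm) around `p`. -/
noncomputable def bx (p : Site) (h : ℕ) : Finset Site :=
  Finset.Icc (p.1 - h) (p.1 + h) ×ˢ Finset.Icc (p.2 - h) (p.2 + h)

lemma mem_bx {p z : Site} {h : ℕ} :
    z ∈ bx p h ↔ |z.1 - p.1| ≤ (h : ℤ) ∧ |z.2 - p.2| ≤ (h : ℤ) := by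
  unfold bx
  rw [Finset.mem_product, Finset.mem_Icc, Finset.mem_Icc, abs_le, abs_le]
  constructor
  · rintro ⟨⟨h1, h2⟩, h3, h4⟩
    exact ⟨⟨by linarith, by linarith⟩, by linarith, by linarith⟩
  · rintro ⟨⟨h1, h2⟩, h3, h4⟩
    exact ⟨⟨by linarith, by linarith⟩, by linarith, by linarith⟩

lemma bx_eq_boxF (p : Site) (h : ℕ) : bx p h = boxF (p.1 - h - 1) (p.2 - h - 1) (2 * h + 1) (2 * h + 1) := by
  ext z
  rw [mem_bx, mem_boxF, abs_le, abs_le]
  unfold InBox
  push_cast
  constructor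
  · rintro ⟨⟨h1, h2⟩, h3, h4⟩
    refine ⟨?_, ?_, ?_, ?_⟩ <;> linarith
  · rintro ⟨h1, h2, h3, h4⟩
    refine ⟨⟨?_, ?_⟩, ?_, ?_⟩ <;> linarith

/-- The symmetric region `|cr (v j) z| ≤ h j` for all `j`. -/
def InReg {m : ℕ} (v : Fin m → Site) (h : Fin m → ℤ) (z : Site) : Prop :=
  ∀ j, |cr (v j) z| ≤ h j

/-- The path started at `x`: it is at `y` at time `s`, every site of `R` has local time at least `β`, and
every visited site is in `Z` or has local time at least `β`. -/
def lev (Z R : Set Site) (β : ℝ) (s : ℝ≥0) (x y : Site) : Set WP :=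
  {f | x + f.1 s = y ∧ (∀ z ∈ R, β ≤ occ s (fun w => if x + w = z then 1 else 0) f) ∧
    ∀ u ≤ s, x + f.1 u ∈ Z ∨ β ≤ occ s (fun w => if x + w = x + f.1 u then 1 else 0) f}

/-- The cost of `lev` at some time at most `τ` is at most `c`. -/
def LCov (Z R : Set Site) (β τ : ℝ) (x y : Site) (c : ℝ) : Prop :=
  ∃ s : ℝ≥0, (s : ℝ) ≤ τ ∧ ∀ μ : Measure WP, IsLaw μ →
    Real.exp (-c) ≤ μ.real (lev Z R β s x y)

/-- The geometric data of the sides of a centrally symmetric lattice polygon (the sides `j` and their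
images under `z ↦ -z`): the side `j` goes from `P j` to `Q j`, the interior is on the right. -/
structure Poly {m : ℕ} (v : Fin m → Site) (V : ℤ) (κ : Fin m → ℕ) (h : Fin m → ℤ)
    (P Q : Fin m → Site) : Prop where
  side : ∀ j, Q j = P j + (2 * κ j) • v j
  base : ∀ j, cr (v j) (P j) = - h j
  inP : ∀ i j, |cr (v i) (P j)| ≤ h i
  inQ : ∀ i j, |cr (v i) (Q j)| ≤ h i
  prev : ∀ j, ∃ w : Site, |w.1| ≤ V ∧ |w.2| ≤ V ∧ 0 < cr w (v j) ∧
    ∀ (z : Site) (b : ℤ), (∀ i, |cr (v i) z| ≤ h i - b) → b ≤ cr w (z - P j)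
  next : ∀ j, ∃ w : Site, |w.1| ≤ V ∧ |w.2| ≤ V ∧ 0 < cr (v j) w ∧
    ∀ (z : Site) (b : ℤ), (∀ i, |cr (v i) z| ≤ h i - b) → b ≤ cr w (z - Q j)

end Pool.Agent.LB24
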