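import Pool.Agent.LB24.Defs
import Pool.Agent.LT.BadSum
import Pool.Agent.LT.Cov

/-!
# LB24, module EV: calculus of the events `lev` (helper24)
-/

open MeasureTheory Filter Topology
open scoped NNReal ENNReal Pointwise

namespace Pool.Agent.LB24

open Pool.Agent.LT Pool.Agent.WSB71

lemma forall_le_iff (s : ℝ≥0) (f : WP) (p : Site → Prop) :
    (∀ u ≤ s, p (f.1 u)) ↔ ∀ N : ℕ, ∀ i ≤ 2 ^ N, p (f.1 ((i : ℕ) * (s / 2 ^ N))) := by
  constructor
  · intro h N i hi
    apply h
    calc (i : ℝ≥0) * (s / 2 ^ N) ≤ (2 ^ N : ℕ) * (s / 2 ^ N) := by gcongr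
      _ = s := by push_cast; field_simp
  · intro h u hu
    rcases eq_or_lt_of_le hu with hu | hu
    · have := h 0 1 (by norm_num)
      simpa [hu] using this
    · have hs : 0 < s := lt_of_le_of_lt zero_le hu
      have hev := gp_tendsto f u (δ := fun N => s / 2 ^ N) (fun N => by positivity)
        (tendsto_div_two_pow s)
      obtain ⟨N, hN⟩ := hev.exists
      rw [← hN]
      apply h N
      have hδ : 0 < s / 2 ^ N := by positivity
      rw [Nat.add_one_le_iff, Nat.floor_lt zero_le, div_lt_iff₀ hδ]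
      push_cast
      calc u < s := hu
        _ = 2 ^ N * (s / 2 ^ N) := by field_simp

lemma ind_bdd (x z : Site) : ∀ w, |(fun w : Site => if x + w = z then (1 : ℝ) else 0) w| ≤ 1 := by
  intro w; dsimp only; split_ifs <;> simp

lemma ind_nonneg (x z : Site) : ∀ w, 0 ≤ (fun w : Site => if x + w = z then (1 : ℝ) else 0) w := by
  intro w; dsimp only; split_ifs <;> simp

lemma lev_eq (Z R : Set Site) (β : ℝ) (s : ℝ≥0) (x y : Site) :
    lev Z R β s x y = {f | x + f.1 s = y} ∩
      (⋂ z : Site, {f | z ∈ R → β ≤ occ s (fun w => if x + w = z then 1 else 0) f}) ∩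
      ⋂ z : Site, {f : WP | z ∉ Z → (∀ u ≤ s, x + f.1 u ≠ z) ∨
        β ≤ occ s (fun w => if x + w = z then 1 else 0) f} := by
  ext f
  simp only [lev, Set.mem_setOf_eq, Set.mem_inter_iff, Set.mem_iInter, and_assoc]
  refine and_congr_right fun _ => and_congr_right fun _ => ?_
  constructor
  · intro h z hz
    by_cases h1 : ∀ u ≤ s, x + f.1 u ≠ z
    · exact Or.inl h1
    · push Not at h1
      obtain ⟨u, hu, hz'⟩ := h1
      rcases h u hu with h2 | h2
      · rw [hz'] at h2; exact absurd h2 hz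
      · rw [hz'] at h2; exact Or.inr h2
  · intro h u hu
    by_cases h1 : x + f.1 u ∈ Z
    · exact Or.inl h1
    · rcases h _ h1 with h2 | h2
      · exact absurd rfl (h2 u hu)
      · exact Or.inr h2

lemma measurableSet_avoid (s : ℝ≥0) (x z : Site) :
    MeasurableSet {f : WP | ∀ u ≤ s, x + f.1 u ≠ z} := by
  have h : {f : WP | ∀ u ≤ s, x + f.1 u ≠ z} =
      ⋂ N : ℕ, ⋂ i : ℕ, ⋂ _ : i ≤ 2 ^ N, {f : WP | x + f.1 ((i : ℕ) * (s / 2 ^ N)) ≠ z} := by
    ext f
    simp only [Set.mem_setOf_eq, Set.mem_iInter]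
    exact forall_le_iff s f (fun w => x + w ≠ z)
  rw [h]
  refine MeasurableSet.iInter fun N => MeasurableSet.iInter fun i => MeasurableSet.iInter fun _ => ?_
  exact (measurable_const.add (measurable_eval _)) (measurableSet_singleton z).compl

lemma measurableSet_lev (Z R : Set Site) (β : ℝ) (s : ℝ≥0) (x y : Site) :
    MeasurableSet (lev Z R β s x y) := by
  rw [lev_eq]
  have ho : ∀ z : Site, MeasurableSet {f : WP | β ≤ occ s (fun w => if x + w = z then 1 else 0) f} :=
    fun z => measurableSet_le measurable_const (measurable_occ s _ (ind_bdd x z))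
  refine ((((measurable_const.add (measurable_eval s)) (measurableSet_singleton y))).inter
    (MeasurableSet.iInter fun z => ?_)).inter (MeasurableSet.iInter fun z => ?_)
  · by_cases hz : z ∈ R
    · simp only [hz, forall_true_left]; exact ho z
    · simp only [hz, false_imp_iff, Set.setOf_true]; exact MeasurableSet.univ
  · by_cases hz : z ∈ Z
    · simp only [hz, not_true_eq_false, false_imp_iff, Set.setOf_true]; exact MeasurableSet.univ
    · simp only [hz, not_false_eq_true, forall_true_left]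
      exact (measurableSet_avoid s x z).union (ho z)

lemma stop_apply {s u : ℝ≥0} (h : u ≤ s) (f : WP) : (stop s f).1 u = f.1 u := by
  simp [stop, min_eq_left h]

lemma lev_stop {Z R : Set Site} {β : ℝ} {s : ℝ≥0} {x y : Site} :
    stop s ⁻¹' (lev Z R β s x y) = lev Z R β s x y := by
  ext f
  simp only [Set.mem_preimage, lev, Set.mem_setOf_eq, occ_stop]
  rw [stop_apply le_rfl]
  refine and_congr_right fun _ => and_congr_right fun _ => ?_
  refine forall_congr' fun u => forall_congr' fun hu => ?_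
  rw [stop_apply hu]

lemma occ_add' (s r : ℝ≥0) (x z : Site) (f : WP) :
    occ (s + r) (fun w => if x + w = z then (1 : ℝ) else 0) f =
      occ s (fun w => if x + w = z then (1 : ℝ) else 0) f +
      occ r (fun w => if x + f.1 s + w = z then (1 : ℝ) else 0) (shift s f) :=
  occ_add s r x (fun v => if v = z then (1 : ℝ) else 0) (C := 1)
      (fun v => by split_ifs <;> simp) f

lemma occ_left_le (s r : ℝ≥0) (x z : Site) (f : WP) :
    occ s (fun w => if x + w = z then (1 : ℝ) else 0) f ≤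
      occ (s + r) (fun w => if x + w = z then (1 : ℝ) else 0) f := by
  rw [occ_add']
  have := occ_nonneg r (ind_nonneg (x + f.1 s) z) (shift s f)
  linarith

lemma occ_right_le (s r : ℝ≥0) (x z : Site) (f : WP) :
    occ r (fun w => if x + f.1 s + w = z then (1 : ℝ) else 0) (shift s f) ≤
      occ (s + r) (fun w => if x + w = z then (1 : ℝ) else 0) f := by
  rw [occ_add']
  have := occ_nonneg s (ind_nonneg x z) f
  linarith

lemma lev_comp {Z R R' : Set Site} {β : ℝ} {s s' : ℝ≥0} {x y z : Site} :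
    stop s ⁻¹' (lev Z R β s x y) ∩ shift s ⁻¹' (lev Z R' β s' y z)
      ⊆ lev Z (R ∪ R') β (s + s') x z := by
  intro f hf
  rw [lev_stop] at hf
  obtain ⟨⟨h1, h2, h3⟩, h4, h5, h6⟩ := hf
  rw [← h1] at h4 h5 h6
  refine ⟨?_, ?_, ?_⟩
  · rw [← h4]
    simp only [shift]
    abel
  · rintro w (hw | hw)
    · exact (h2 w hw).trans (occ_left_le s s' x w f)
    · exact (h5 w hw).trans (occ_right_le s s' x w f)
  · intro u hu
    rcases le_total u s with hus | hus
    · rcases h3 u hus with h | h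
      · exact Or.inl h
      · exact Or.inr (h.trans (occ_left_le s s' x _ f))
    · have h7 := h6 (u - s) (by rw [tsub_le_iff_left]; exact hu)
      have e : x + f.1 s + (shift s f).1 (u - s) = x + f.1 u := by
        simp only [shift, add_tsub_cancel_of_le hus]
        abel
      rw [e] at h7
      rcases h7 with h | h
      · exact Or.inl h
      · exact Or.inr (h.trans (occ_right_le s s' x _ f))

theorem LCov.comp {Z R R' : Set Site} {β τ τ' c c' : ℝ} {x y z : Site} (h : LCov Z R β τ x y c)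
    (h' : LCov Z R' β τ' y z c') : LCov Z (R ∪ R') β (τ + τ') x z (c + c') := by
  obtain ⟨s, hs, h1⟩ := h
  obtain ⟨s', hs', h2⟩ := h'
  refine ⟨s + s', by push_cast; linarith, fun μ hμ => ?_⟩
  have := hμ.prob
  have h3 := hμ.markov_set s (measurableSet_lev Z R β s x y) (measurableSet_lev Z R' β s' y z)
  have h4 : μ.real (stop s ⁻¹' (lev Z R β s x y) ∩ shift s ⁻¹' (lev Z R' β s' y z))
      = μ.real (lev Z R β s x y) * μ.real (lev Z R' β s' y z) := by
    unfold Measure.real
    rw [h3, ENNReal.toReal_mul, lev_stop]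
  calc Real.exp (-(c + c')) = Real.exp (-c) * Real.exp (-c') := by
        rw [← Real.exp_add]; ring_nf
    _ ≤ μ.real (lev Z R β s x y) * μ.real (lev Z R' β s' y z) :=
        mul_le_mul (h1 μ hμ) (h2 μ hμ) (Real.exp_pos _).le measureReal_nonneg
    _ ≤ μ.real (lev Z (R ∪ R') β (s + s') x z) := by
        rw [← h4]
        exact measureReal_mono lev_comp

theorem LCov.mono {Z Z' R R' : Set Site} {β τ τ' c c' : ℝ} {x y : Site} (h : LCov Z R β τ x y c)
    (hZ : Z ⊆ Z') (hR : R' ⊆ R) (hτ : τ ≤ τ') (hc : c ≤ c') : LCov Z' R' β τ' x y c' := by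
  obtain ⟨s, hs, h1⟩ := h
  refine ⟨s, hs.trans hτ, fun μ hμ => ?_⟩
  have := hμ.prob
  calc Real.exp (-c') ≤ Real.exp (-c) := Real.exp_le_exp.2 (by linarith)
    _ ≤ μ.real (lev Z R β s x y) := h1 μ hμ
    _ ≤ _ := by
        apply measureReal_mono (h₂ := measure_ne_top _ _)
        rintro f ⟨h2, h3, h4⟩
        exact ⟨h2, fun z hz => h3 z (hR hz), fun u hu => (h4 u hu).imp_left (fun h => hZ h)⟩

theorem LCov.of_cov {A R : Finset Site} {Z : Set Site} {β τ c : ℝ} {x y : Site}
    (h : Cov A R β τ x y c) (hA : ∀ z ∈ A, z ∈ Z) : LCov Z (R : Set Site) β τ x y c := by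
  obtain ⟨s, hs, h1⟩ := h
  refine ⟨s, hs, fun μ hμ => ?_⟩
  have := hμ.prob
  refine (h1 μ hμ).trans ?_
  apply measureReal_mono (h₂ := measure_ne_top _ _)
  rintro f ⟨h2, h3, h4⟩
  exact ⟨h4, fun z hz => h3 z hz, fun u hu => Or.inl (hA _ (h2 u hu))⟩

/-- Negation. -/
def symNeg : Sym := ⟨AddEquiv.neg Site, fun e he => by
  simp only [units, Finset.mem_insert, Finset.mem_singleton] at he
  rcases he with h | h | h | h <;> subst h <;> decide, fun e he => by
  simp only [units, Finset.mem_insert, Finset.mem_singleton] at he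
  rcases he with h | h | h | h <;> subst h <;> decide⟩

theorem LCov.neg {Z R : Set Site} {β τ c : ℝ} {x y : Site} (h : LCov Z R β τ x y c) :
    LCov (-Z) (-R) β τ (-x) (-y) c := by
  obtain ⟨s, hs, h1⟩ := h
  refine ⟨s, hs, fun μ hμ => ?_⟩
  have := hμ.prob
  refine (h1 _ (symNeg.isLaw hμ)).trans ?_
  unfold Measure.real
  rw [Measure.map_apply symNeg.measurable_act (measurableSet_lev Z R β s x y)]
  apply measureReal_mono (h₂ := measure_ne_top _ _)
  intro f hf
  obtain ⟨h2, h3, h4⟩ := hf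
  have e : ∀ u, (symNeg.act f).1 u = - f.1 u := fun u => rfl
  have key : ∀ w z : Site, x + -w = z ↔ -x + w = -z := by
    intro w z
    constructor
    · rintro rfl; abel
    · intro h
      have : -(-x + w) = z := by rw [h, neg_neg]
      rw [← this]; abel
  have hocc : ∀ z, occ s (fun w => if x + w = z then (1 : ℝ) else 0) (symNeg.act f) =
      occ s (fun w => if -x + w = -z then (1 : ℝ) else 0) f := by
    intro z
    unfold occ
    apply intervalIntegral.integral_congr
    intro u _
    simp only [e, key]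
  refine ⟨?_, ?_, ?_⟩
  · rw [e] at h2
    exact (key _ _).1 h2
  · intro z hz
    have := h3 (-z) hz
    rw [hocc, neg_neg] at this
    exact this
  · intro u hu
    have h5 := h4 u hu
    have e2 : -x + f.1 u = -(x + (symNeg.act f).1 u) := by rw [e]; abel
    rw [e2]
    rcases h5 with h5 | h5
    · left
      rw [Set.mem_neg, neg_neg]
      exact h5
    · right
      rw [hocc] at h5
      exact h5

theorem LCov.of_row {β : ℝ} {v : Site} {b1 b2 b3 : ℤ} {k : ℕ} {x y : Site} {s : ℝ≥0} {c τ : ℝ}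
    (P : Site) (h : ∀ μ : Measure WP, IsLaw μ →
      Real.exp (-c) ≤ μ.real (rowEv β v b1 b2 b3 k x y s)) (hs : (s : ℝ) ≤ τ) {Z : Set Site}
    (hZ : ∀ z, |cr v (z - P)| ≤ b3 → -b3 ≤ dt v (z - P) → dt v (z - P) ≤ k * dt v v + b3 →
      ¬ (b3 ≤ dt v (z - P) ∧ dt v (z - P) ≤ k * dt v v - b3 ∧ cr v (z - P) ≤ b2) → z ∈ Z) :
    LCov Z {z | b1 ≤ cr v (z - P) ∧ cr v (z - P) ≤ b2 ∧ b3 ≤ dt v (z - P) ∧
      dt v (z - P) ≤ k * dt v v - b3} β τ (P + x) (P + y) c := by
  refine ⟨s, hs, fun μ hμ => ?_⟩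
  have := hμ.prob
  refine (h μ hμ).trans ?_
  apply measureReal_mono (h₂ := measure_ne_top _ _)
  rintro f ⟨h1, h2, h3⟩
  have key : ∀ w z : Site, x + w = z - P ↔ P + x + w = z := by
    intro w z
    rw [eq_sub_iff_add_eq]
    constructor
    · rintro rfl; abel
    · rintro rfl; abel
  have hocc : ∀ z : Site, occ s (fun w => if x + w = z - P then (1 : ℝ) else 0) f =
      occ s (fun w => if P + x + w = z then (1 : ℝ) else 0) f := by
    intro z
    simp only [key]
  refine ⟨?_, ?_, ?_⟩
  · rw [← h2]; abel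
  · rintro z ⟨h4, h5, h6, h7⟩
    rw [← hocc]
    exact h3 (z - P) h6 h7 h5 (Or.inl h4)
  · intro u hu
    obtain ⟨h4, h5, h6⟩ := h1 u hu
    have e : P + x + f.1 u - P = x + f.1 u := by abel
    by_cases h7 : b3 ≤ dt v (P + x + f.1 u - P) ∧ dt v (P + x + f.1 u - P) ≤ k * dt v v - b3 ∧
        cr v (P + x + f.1 u - P) ≤ b2
    · right
      rw [← hocc]
      exact h3 _ h7.1 h7.2.1 h7.2.2 (Or.inr ⟨u, hu, e.symm⟩)
    · left
      apply hZ
      · rw [e]; exact h4
      · rw [e]; exact h5
      · rw [e]; exact h6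
      · exact h7

/-- The last part: stay in `D`. -/
theorem evt_of_lcov {Z R : Set Site} {β τ c Λ : ℝ} {a : Site} (h : LCov Z R β τ 0 a c)
    (hZR : Z ⊆ R) {D : Finset Site} (hDZ : ∀ z ∈ D, z ∈ Z)
    (hstay : ∀ μ : Measure WP, IsLaw μ → ∀ s : ℝ≥0,
      Real.exp (-(Λ * s)) ≤ μ.real {f : WP | stay a D s f}) (hΛ : 0 ≤ Λ) {t : ℝ≥0}
    (ht : τ ≤ t) : ∀ μ : Measure WP, IsLaw μ → Real.exp (-(c + Λ * t)) ≤ μ.real (evtE β t) := by
  obtain ⟨s, hs, h1⟩ := h
  intro μ hμ
  have := hμ.prob
  have hst : s ≤ t := by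
    rw [← NNReal.coe_le_coe]; linarith
  have h3 := hμ.markov_set s (measurableSet_lev Z R β s 0 a) (measurableSet_stay a D (t - s))
  have h4 : μ.real (stop s ⁻¹' (lev Z R β s 0 a) ∩ shift s ⁻¹' {f | stay a D (t - s) f})
      = μ.real (lev Z R β s 0 a) * μ.real {f | stay a D (t - s) f} := by
    unfold Measure.real
    rw [h3, ENNReal.toReal_mul, lev_stop]
  have h5 : stop s ⁻¹' (lev Z R β s 0 a) ∩ shift s ⁻¹' {f | stay a D (t - s) f} ⊆ evtE β t := by
    intro f hf
    rw [lev_stop] at hf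
    obtain ⟨⟨h5, h6, h7⟩, h8⟩ := hf
    intro z hz
    obtain ⟨u, hu, rfl⟩ := mem_rangeF.1 hz
    have hts : s + (t - s) = t := add_tsub_cancel_of_le hst
    have e0 : (0 : Site) + f.1 u = f.1 u := zero_add _
    have hR : f.1 u ∈ R → β ≤ occ t (fun w => if (0 : Site) + w = f.1 u then 1 else 0) f := by
      intro h9
      have := (h6 _ h9).trans (occ_left_le s (t - s) 0 _ f)
      rwa [hts] at this
    rcases le_total u s with hus | hus
    · rcases h7 u hus with h9 | h9
      · rw [e0] at h9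
        exact hR (hZR h9)
      · rw [e0] at h9
        have := h9.trans (occ_left_le s (t - s) 0 _ f)
        rwa [hts] at this
    · have h9 := h8 (u - s) (tsub_le_tsub_right hu s)
      have e : a + (shift s f).1 (u - s) = f.1 u := by
        rw [← h5]
        simp only [shift, add_tsub_cancel_of_le hus]
        abel
      rw [e] at h9
      exact hR (hZR (hDZ _ h9))
  calc Real.exp (-(c + Λ * t)) ≤ Real.exp (-c) * Real.exp (-(Λ * ((t - s : ℝ≥0) : ℝ))) := by
        rw [← Real.exp_add]
        apply Real.exp_le_exp.2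
        have : ((t - s : ℝ≥0) : ℝ) ≤ t := by
          rw [NNReal.coe_le_coe]; exact tsub_le_self
        have := mul_le_mul_of_nonneg_left this hΛ
        linarith
    _ ≤ μ.real (lev Z R β s 0 a) * μ.real {f | stay a D (t - s) f} :=
        mul_le_mul (h1 μ hμ) (hstay μ hμ _) (Real.exp_pos _).le measureReal_nonneg
    _ ≤ μ.real (evtE β t) := by
        rw [← h4]
        exact measureReal_mono h5

end Pool.Agent.LB24
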