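import Pool.Agent.LB24.ScaleA

/-!
# LB24: preliminaries for the assembly (helper24)
-/

open MeasureTheory Filter Topology
open scoped NNReal ENNReal Pointwise

namespace Pool.Agent.LB24

open Pool.Agent.LT Pool.Agent.WSB71

lemma cr_neg_right (v z : Site) : cr v (-z) = - cr v z := by
  unfold cr; simp only [Prod.fst_neg, Prod.snd_neg]; ring

lemma cr_swap (v z : Site) : cr z v = - cr v z := by
  unfold cr; ring

lemma cr_sub (v y z : Site) : cr v (y - z) = cr v y - cr v z := by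
  unfold cr; simp only [Prod.fst_sub, Prod.snd_sub]; ring

lemma exists_V {m : ℕ} (v : Fin m → Site) : ∃ V : ℕ, 1 ≤ V ∧ ∀ j, |(v j).1| + |(v j).2| ≤ V := by
  refine ⟨1 + ∑ j, ((v j).1.natAbs + (v j).2.natAbs), by omega, fun j => ?_⟩
  have h1 : (v j).1.natAbs + (v j).2.natAbs ≤ ∑ j, ((v j).1.natAbs + (v j).2.natAbs) :=
    Finset.single_le_sum (f := fun j => (v j).1.natAbs + (v j).2.natAbs) (fun _ _ => Nat.zero_le _)
      (Finset.mem_univ j)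
  have h2 : ((v j).1.natAbs : ℤ) = |(v j).1| := Int.natCast_natAbs _
  have h3 : ((v j).2.natAbs : ℤ) = |(v j).2| := Int.natCast_natAbs _
  rw [← h2, ← h3]
  have : (v j).1.natAbs + (v j).2.natAbs ≤ 1 + ∑ j, ((v j).1.natAbs + (v j).2.natAbs) := by omega
  exact_mod_cast this

lemma exists_reg {m : ℕ} (v : Fin m → Site) (i₀ j₀ : Fin m) (hij : cr (v i₀) (v j₀) ≠ 0)
    (g : Fin m → ℤ) : ∃ D : Finset Site, ∀ z, z ∈ D ↔ ∀ j, |cr (v j) z| ≤ g j := by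
  classical
  obtain ⟨V, hV1, hV⟩ := exists_V v
  have hL : ∀ j, g j ≤ ∑ j, |g j| := fun j => (le_abs_self _).trans
    (Finset.single_le_sum (f := fun j => |g j|) (fun _ _ => abs_nonneg _) (Finset.mem_univ j))
  refine ⟨(bx 0 (2 * V * ∑ j, |g j|).toNat).filter (fun z => ∀ j, |cr (v j) z| ≤ g j), ?_⟩
  intro z
  rw [Finset.mem_filter]
  constructor
  · exact fun h => h.2
  · intro h
    refine ⟨?_, h⟩
    obtain ⟨h1, h2⟩ := reg_bound v i₀ j₀ hij V hV g _ hL z h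
    rw [mem_bx]
    have h3 := Int.self_le_toNat (2 * V * ∑ j, |g j|)
    constructor
    · show |z.1 - 0| ≤ _
      rw [sub_zero]; exact h1.trans h3
    · show |z.2 - 0| ≤ _
      rw [sub_zero]; exact h2.trans h3

/-- The heights. -/
noncomputable def hh {m : ℕ} (v : Fin m → Site) (x : Fin m → ℝ) (N : ℝ) (j : Fin m) : ℤ :=
  ∑ i, (⌈x i * N / 2⌉₊ : ℤ) * |cr (v j) (v i)|

lemma hh_cast {m : ℕ} (v : Fin m → Site) (x : Fin m → ℝ) (N : ℝ) (j : Fin m) :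
    (hh v x N j : ℝ) = ∑ i, (⌈x i * N / 2⌉₊ : ℝ) * |(cr (v j) (v i) : ℝ)| := by
  unfold hh
  push_cast
  rfl

lemma hh_lower {m : ℕ} (hm : 2 ≤ m) (v : Fin m → Site) (hne : ∀ i j, i ≠ j → cr (v i) (v j) ≠ 0)
    (x : Fin m → ℝ) {xm : ℝ} (hxm : ∀ i, xm ≤ x i) {N : ℝ} (hN : 0 ≤ N) (j : Fin m) :
    xm * N / 2 ≤ hh v x N j := by
  have : Nontrivial (Fin m) := Fin.nontrivial_iff_two_le.2 hm
  obtain ⟨i, hi⟩ := exists_ne j
  rw [hh_cast]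
  have h1 : (⌈x i * N / 2⌉₊ : ℝ) * |(cr (v j) (v i) : ℝ)| ≤
      ∑ i, (⌈x i * N / 2⌉₊ : ℝ) * |(cr (v j) (v i) : ℝ)| :=
    Finset.single_le_sum (f := fun i => (⌈x i * N / 2⌉₊ : ℝ) * |(cr (v j) (v i) : ℝ)|)
      (fun _ _ => by positivity) (Finset.mem_univ i)
  refine le_trans ?_ h1
  have h2 : (1 : ℝ) ≤ |(cr (v j) (v i) : ℝ)| := by
    have := Int.one_le_abs (hne j i hi.symm)
    exact_mod_cast this
  have h3 : x i * N / 2 ≤ (⌈x i * N / 2⌉₊ : ℝ) := Nat.le_ceil _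
  have h4 : xm * N ≤ x i * N := mul_le_mul_of_nonneg_right (hxm i) hN
  calc xm * N / 2 ≤ x i * N / 2 := by linarith
    _ ≤ (⌈x i * N / 2⌉₊ : ℝ) := h3
    _ = (⌈x i * N / 2⌉₊ : ℝ) * 1 := (mul_one _).symm
    _ ≤ _ := mul_le_mul_of_nonneg_left h2 (Nat.cast_nonneg _)

lemma ceil_le' {y N : ℝ} (hy : 0 ≤ y) (hN : 1 ≤ N) : (⌈y * N / 2⌉₊ : ℝ) ≤ (y / 2 + 1) * N := by
  have h1 := (Nat.ceil_lt_add_one (show 0 ≤ y * N / 2 by positivity)).le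
  linarith

lemma hh_upper {m : ℕ} (v : Fin m → Site) (x : Fin m → ℝ) (hx : ∀ i, 0 < x i) {N : ℝ}
    (hN : 1 ≤ N) (j : Fin m) :
    (hh v x N j : ℝ) ≤ (∑ j, ∑ i, (x i / 2 + 1) * |(cr (v j) (v i) : ℝ)|) * N := by
  have h2 : ∀ j i, 0 ≤ (x i / 2 + 1) * |(cr (v j) (v i) : ℝ)| := fun j i => by
    have := hx i; positivity
  have h1 : ∑ i, (x i / 2 + 1) * |(cr (v j) (v i) : ℝ)| ≤
      ∑ j, ∑ i, (x i / 2 + 1) * |(cr (v j) (v i) : ℝ)| :=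
    Finset.single_le_sum (f := fun j => ∑ i, (x i / 2 + 1) * |(cr (v j) (v i) : ℝ)|)
      (fun j _ => Finset.sum_nonneg fun i _ => h2 j i) (Finset.mem_univ j)
  rw [hh_cast]
  calc ∑ i, (⌈x i * N / 2⌉₊ : ℝ) * |(cr (v j) (v i) : ℝ)|
      ≤ ∑ i, ((x i / 2 + 1) * N) * |(cr (v j) (v i) : ℝ)| := by
        apply Finset.sum_le_sum
        intro i _
        exact mul_le_mul_of_nonneg_right (ceil_le' (hx i).le hN) (abs_nonneg _)
    _ = (∑ i, (x i / 2 + 1) * |(cr (v j) (v i) : ℝ)|) * N := by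
        rw [Finset.sum_mul]
        apply Finset.sum_congr rfl
        intro i _
        ring
    _ ≤ _ := mul_le_mul_of_nonneg_right h1 (by linarith)

lemma rowEv_mono {β : ℝ} {v : Site} {b1 b1' b2 b3 : ℤ} {k : ℕ} {x y : Site} {s : ℝ≥0}
    (h : b1' ≤ b1) : rowEv β v b1' b2 b3 k x y s ⊆ rowEv β v b1 b2 b3 k x y s := by
  rintro f ⟨h1, h2, h3⟩
  exact ⟨h1, h2, fun z hz1 hz2 hz3 hz4 => h3 z hz1 hz2 hz3 (hz4.imp_left fun h5 => h.trans h5)⟩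

/-- `K₁ √N + K₂ ≤ K₃ N` for large `N`. -/
lemma sqrt_small (K₁ K₂ : ℝ) {K₃ : ℝ} (hK₃ : 0 < K₃) : ∃ N₀ : ℝ, 1 ≤ N₀ ∧ ∀ N : ℝ, N₀ ≤ N →
    K₁ * Real.sqrt N + K₂ ≤ K₃ * N := by
  refine ⟨1 + ((|K₁| + |K₂|) / K₃) ^ 2, by nlinarith [sq_nonneg ((|K₁| + |K₂|) / K₃)], ?_⟩
  intro N hN
  have hN1 : 1 ≤ N := by nlinarith [sq_nonneg ((|K₁| + |K₂|) / K₃)]
  have hs : 1 ≤ Real.sqrt N := by rw [Real.one_le_sqrt]; exact hN1
  have h1 : (|K₁| + |K₂|) / K₃ ≤ Real.sqrt N := by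
    apply Real.le_sqrt_of_sq_le
    linarith
  rw [div_le_iff₀ hK₃] at h1
  have h2 : Real.sqrt N * Real.sqrt N = N := Real.mul_self_sqrt (by linarith)
  have h3 : K₁ * Real.sqrt N ≤ |K₁| * Real.sqrt N :=
    mul_le_mul_of_nonneg_right (le_abs_self _) (by positivity)
  have h4 : K₂ ≤ |K₂| * Real.sqrt N := by
    calc K₂ ≤ |K₂| := le_abs_self _
      _ = |K₂| * 1 := (mul_one _).symm
      _ ≤ _ := mul_le_mul_of_nonneg_left hs (abs_nonneg _)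
  calc K₁ * Real.sqrt N + K₂ ≤ (|K₁| + |K₂|) * Real.sqrt N := by linarith
    _ ≤ (Real.sqrt N * K₃) * Real.sqrt N := mul_le_mul_of_nonneg_right h1 (by positivity)
    _ = K₃ * (Real.sqrt N * Real.sqrt N) := by ring
    _ = K₃ * N := by rw [h2]

end Pool.Agent.LB24
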