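import Pool.Agent.LB24.Defs

/-!
# LB24, module GEOM: geometry near the sides of the polygon

 * `corner`: `cr w v • u = cr w u • v - cr v u • w`, hence
   `cr w v * dt v u = cr w u * dt v v - cr v u * dt v w`; with `dt v u < b3`, `|cr v u| ≤ b2'`, `cr w u ≥ b1` this
   bounds `cr w u` above, so `|u|` is bounded.
 * `near_side`: `u = z - P j`, `b1 ≤ cr v u` (since `cr v z ≥ -(h j - b1)`), `cr v u ≤ b2`; if `dt v u < b3` use
   `prev` and `corner`: `z` in the box around `P j`; if `dt v u > 2 κ |v|² - b3` use `next` (with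
   `u' = z - Q j`, `dt v u' > - b3`), `z` in the box around `Q j`.
 * `row_inside`: `u = z - P j`, `|v|² u = dt v u • v + cr v u • v^⊥`, `v^⊥ = (v.2, - v.1)`.
   If `dt v u < b3` then `z` in the box around `P j` of radius `2 b3`; same for `Q j`.  Middle part with
   `cr v u > b2`: for `i ≠ j`, `|v|² cr v_i z = |v|² cr v_i P_j + dt v u * cr v_i v_j + cr v u * cr v_i v_j^⊥`;
   `cr v_i v_j` is a nonzero integer, `|cr v_i P_j| ≤ h_i`, `|cr v_i Q_j| ≤ h_i`: if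
   `σ |v|² ≤ dt v u ≤ 2 κ |v|² - σ |v|²` then `|cr v_i P_j + (dt v u / |v|²) cr v_i v_j| ≤ h_i - σ`, so
   `|cr v_i z| ≤ h_i - σ + b3 V² 2 ≤ h_i - b1` for `σ = b1 + 2 b3 V²` (`b1` replaced by `|b1|`); otherwise
   `z` is in one of the boxes.  For `i = j`: `cr v_j z = - h_j + cr v u` between `- h_j + b1` and `- h_j + b3`.
 * `pull_in`: `a = P - round (s P)`, `s = L / N`, `L = (b + V) / r`:
   `|cr v_j a| ≤ (1 - s) |cr v_j P| + V ≤ (1 - s) h_j + V ≤ h_j - b` (here `V` bounds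
   `|v_j.1| + |v_j.2|`, and `|P| ≤ R N` gives `|a - P| ≤ L R + 1`).
-/

open MeasureTheory Filter Topology
open scoped NNReal ENNReal Pointwise

namespace Pool.Agent.LB24

open Pool.Agent.LT Pool.Agent.WSB71

lemma geom_mulabs {a b A B : ℤ} (ha : |a| ≤ A) (hb : |b| ≤ B) : |a * b| ≤ A * B := by
  rw [abs_mul]
  exact mul_le_mul ha hb (abs_nonneg _) ((abs_nonneg _).trans ha)

lemma geom_abs_le_of_pos_mul {c x K : ℤ} (hc : 0 < c) (h : |c * x| ≤ K) : |x| ≤ K := by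
  rw [abs_mul, abs_of_pos hc] at h
  have h1 : 1 * |x| ≤ c * |x| := mul_le_mul_of_nonneg_right (by omega) (abs_nonneg _)
  linarith

lemma geom_corner {V B v1 v2 w1 w2 u1 u2 : ℤ} (hV : 0 ≤ V) (hB : 0 ≤ B) (hv1 : |v1| ≤ V)
    (hv2 : |v2| ≤ V) (hw1 : |w1| ≤ V) (hw2 : |w2| ≤ V) (h0 : 1 ≤ v1 * v1 + v2 * v2)
    (hc : 0 < v1 * w2 - v2 * w1) (h1 : |u1 * v2 - u2 * v1| ≤ B) (h3 : v1 * u1 + v2 * u2 ≤ B)
    (h4 : -B ≤ u1 * w2 - u2 * w1) :
    |u1| ≤ V * (4 * V * V * B + B) + V * B ∧ |u2| ≤ V * (4 * V * V * B + B) + V * B := by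
  set q := u1 * w2 - u2 * w1 with hq
  set p := u1 * v2 - u2 * v1 with hp
  set c := v1 * w2 - v2 * w1 with hcdef
  have e1 : q * (v1 * v1 + v2 * v2) = c * (v1 * u1 + v2 * u2) + p * (v1 * w1 + v2 * w2) := by
    rw [hq, hp, hcdef]; ring
  have e2 : c * u1 = q * v1 - p * w1 := by rw [hq, hp, hcdef]; ring
  have e3 : c * u2 = q * v2 - p * w2 := by rw [hq, hp, hcdef]; ring
  have hcle : c ≤ 2 * V * V := by
    have a1 := abs_le.1 (geom_mulabs hv1 hw2)
    have a2 := abs_le.1 (geom_mulabs hv2 hw1)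
    rw [hcdef]; nlinarith [a1.1, a1.2, a2.1, a2.2]
  have hcd : c * (v1 * u1 + v2 * u2) ≤ 2 * V * V * B :=
    (mul_le_mul_of_nonneg_left h3 hc.le).trans (mul_le_mul_of_nonneg_right hcle hB)
  have he : |v1 * w1 + v2 * w2| ≤ 2 * V * V := by
    refine (abs_add_le _ _).trans ?_
    have a1 := geom_mulabs hv1 hw1
    have a2 := geom_mulabs hv2 hw2
    linarith
  have hpe : |p * (v1 * w1 + v2 * w2)| ≤ B * (2 * V * V) := geom_mulabs h1 he
  have hqn : q * (v1 * v1 + v2 * v2) ≤ 4 * V * V * B := by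
    rw [e1]; have := (abs_le.1 hpe).2; nlinarith
  have hVVB : 0 ≤ 4 * V * V * B := by positivity
  have hq1 : q ≤ 4 * V * V * B := by
    rcases le_or_gt q 0 with h | h
    · linarith
    · nlinarith
  have hqa : |q| ≤ 4 * V * V * B + B := by
    rw [abs_le]; constructor <;> linarith
  have fin : ∀ x y z : ℤ, |x| ≤ V → |y| ≤ V → c * z = q * x - p * y →
      |z| ≤ V * (4 * V * V * B + B) + V * B := by
    intro x y z hx hy hz
    refine geom_abs_le_of_pos_mul hc ?_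
    rw [hz]
    refine (abs_sub _ _).trans ?_
    have a1 := geom_mulabs hqa hx
    have a2 := geom_mulabs h1 hy
    linarith
  exact ⟨fin _ _ _ hv1 hw1 e2, fin _ _ _ hv2 hw2 e3⟩

lemma geom_dt_self {v : Site} (h : v ≠ 0) : 1 ≤ v.1 * v.1 + v.2 * v.2 := by
  rcases eq_or_ne v.1 0 with h1 | h1
  · have h2 : v.2 ≠ 0 := fun h2 => h (Prod.ext h1 h2)
    have : 0 < v.2 * v.2 := mul_self_pos.2 h2
    nlinarith [mul_self_nonneg v.1]
  · have : 0 < v.1 * v.1 := mul_self_pos.2 h1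
    nlinarith [mul_self_nonneg v.2]

lemma geom_le_of_toNat {K : ℤ} {ρ : ℕ} (h : K.toNat ≤ ρ) : K ≤ (ρ : ℤ) :=
  (Int.self_le_toNat K).trans (by exact_mod_cast h)

theorem near_side (V b1 b2 b3 : ℤ) (hV : 0 ≤ V) : ∃ ρ₀ : ℕ, ∀ ρ : ℕ, ρ₀ ≤ ρ →
    ∀ (m : ℕ) (v : Fin m → Site) (κ : Fin m → ℕ) (h : Fin m → ℤ) (P Q : Fin m → Site),
    Poly v V κ h P Q → (∀ j, v j ≠ 0 ∧ |(v j).1| ≤ V ∧ |(v j).2| ≤ V) →
    ∀ (j : Fin m) (z : Site), (∀ i, |cr (v i) z| ≤ h i - b1) → cr (v j) (z - P j) ≤ b2 →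
      z ∈ bx (P j) ρ ∨ z ∈ bx (Q j) ρ ∨
        (b1 ≤ cr (v j) (z - P j) ∧ b3 ≤ dt (v j) (z - P j) ∧
          dt (v j) (z - P j) ≤ (2 * κ j : ℕ) * dt (v j) (v j) - b3) := by
  set B := |b1| + |b2| + |b3| with hBdef
  have hB : 0 ≤ B := by positivity
  have hb1 : -B ≤ b1 := by have := neg_abs_le b1; have := abs_nonneg b2; have := abs_nonneg b3; linarith
  have hb2 : b2 ≤ B := by have := le_abs_self b2; have := abs_nonneg b1; have := abs_nonneg b3; linarith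
  have hb3 : b3 ≤ B := by have := le_abs_self b3; have := abs_nonneg b1; have := abs_nonneg b2; linarith
  refine ⟨(V * (4 * V * V * B + B) + V * B).toNat, ?_⟩
  intro ρ hρ m v κ h P Q hP hv j z hz hcr
  have hρ' := geom_le_of_toNat hρ
  obtain ⟨hv0, hv1, hv2⟩ := hv j
  have hlow : b1 ≤ cr (v j) (z - P j) := by
    have h1 := (abs_le.1 (hz j)).1
    have h2 := hP.base j
    have h3 : cr (v j) (z - P j) = cr (v j) z - cr (v j) (P j) := by
      unfold cr; simp only [Prod.fst_sub, Prod.snd_sub]; ring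
    rw [h3, h2]; linarith
  by_cases hA : dt (v j) (z - P j) < b3
  · left
    obtain ⟨w, hw1, hw2, hw3, hw4⟩ := hP.prev j
    have hw5 := hw4 z b1 hz
    rw [mem_bx]
    unfold cr at hlow hcr hw3 hw5
    unfold dt at hA
    simp only [Prod.fst_sub, Prod.snd_sub] at hlow hcr hw5 hA
    have := geom_corner (u1 := z.1 - (P j).1) (u2 := z.2 - (P j).2) hV hB hv1 hv2 hw1 hw2
      (geom_dt_self hv0) hw3 (abs_le.2 ⟨by linarith, by linarith⟩) (by linarith) (by linarith)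
    exact ⟨this.1.trans hρ', this.2.trans hρ'⟩
  by_cases hC : dt (v j) (z - P j) ≤ (2 * κ j : ℕ) * dt (v j) (v j) - b3
  · right; right
    exact ⟨hlow, not_lt.1 hA, hC⟩
  · right; left
    obtain ⟨w, hw1, hw2, hw3, hw4⟩ := hP.next j
    have hw5 := hw4 z b1 hz
    have hQ := hP.side j
    have hQ1 : (Q j).1 = (P j).1 + (2 * κ j : ℕ) * (v j).1 := by
      rw [hQ]; simp
    have hQ2 : (Q j).2 = (P j).2 + (2 * κ j : ℕ) * (v j).2 := by
      rw [hQ]; simp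
    rw [mem_bx]
    unfold cr at hlow hcr hw3 hw5
    unfold dt at hC
    simp only [Prod.fst_sub, Prod.snd_sub] at hlow hcr hw5 hC
    have hcru : (z.1 - (Q j).1) * (v j).2 - (z.2 - (Q j).2) * (v j).1
        = (z.1 - (P j).1) * (v j).2 - (z.2 - (P j).2) * (v j).1 := by
      rw [hQ1, hQ2]; ring
    have hdtu : (v j).1 * (z.1 - (Q j).1) + (v j).2 * (z.2 - (Q j).2)
        = (v j).1 * (z.1 - (P j).1) + (v j).2 * (z.2 - (P j).2)
          - (2 * κ j : ℕ) * ((v j).1 * (v j).1 + (v j).2 * (v j).2) := by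
      rw [hQ1, hQ2]; ring
    have := geom_corner (v1 := -(v j).1) (v2 := -(v j).2) (u1 := z.1 - (Q j).1)
      (u2 := z.2 - (Q j).2) hV hB (by rwa [abs_neg]) (by rwa [abs_neg]) hw1 hw2
      (by have := geom_dt_self hv0; linarith) (by linarith)
      (by rw [abs_le]; constructor <;> nlinarith [hcru]) (by nlinarith [hdtu]) (by linarith)
    exact ⟨this.1.trans hρ', this.2.trans hρ'⟩

lemma geom_box {V A B v1 v2 u1 u2 : ℤ} (hv1 : |v1| ≤ V)
    (hv2 : |v2| ≤ V) (h0 : 1 ≤ v1 * v1 + v2 * v2)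
    (h1 : |u1 * v2 - u2 * v1| ≤ B) (h3 : |v1 * u1 + v2 * u2| ≤ A) :
    |u1| ≤ A * V + B * V ∧ |u2| ≤ A * V + B * V := by
  have hn : 0 < v1 * v1 + v2 * v2 := by linarith
  constructor
  · refine geom_abs_le_of_pos_mul hn ?_
    have e : (v1 * v1 + v2 * v2) * u1 = (v1 * u1 + v2 * u2) * v1 + (u1 * v2 - u2 * v1) * v2 := by
      ring
    rw [e]
    refine (abs_add_le _ _).trans ?_
    have a1 := geom_mulabs h3 hv1
    have a2 := geom_mulabs h1 hv2
    linarith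
  · refine geom_abs_le_of_pos_mul hn ?_
    have e : (v1 * v1 + v2 * v2) * u2 = (v1 * u1 + v2 * u2) * v2 - (u1 * v2 - u2 * v1) * v1 := by
      ring
    rw [e]
    refine (abs_sub _ _).trans ?_
    have a1 := geom_mulabs h3 hv2
    have a2 := geom_mulabs h1 hv1
    linarith

/-- The middle part. -/
lemma geom_mid {V n s T c f0 f1 p e H b1 b3 : ℤ} (hn : 1 ≤ n) (hnV : n ≤ 2 * V * V)
    (hc : c ≠ 0) (hf0 : |f0| ≤ H) (hf1 : |f1| ≤ H) (hf : n * f1 = n * f0 + T * c)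
    (hs : 2 * V * V * (|b1| + b3) ≤ s) (hs' : s ≤ T - 2 * V * V * (|b1| + b3)) (hp : |p| ≤ b3)
    (he : |e| ≤ 2 * V * V) {z : ℤ} (hz : n * z = n * f0 + s * c + p * e) : |z| ≤ H - b1 := by
  have hb3 : 0 ≤ b3 := (abs_nonneg _).trans hp
  have hab : 0 ≤ |b1| + b3 := by positivity
  have hτ : 0 ≤ 2 * V * V * (|b1| + b3) :=
    mul_nonneg (by nlinarith) hab
  have hpe := abs_le.1 (geom_mulabs hp he)
  have hf0' := abs_le.1 hf0
  have hf1' := abs_le.1 hf1
  have hb := le_abs_self b1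
  have hnb : n * b1 ≤ 2 * V * V * |b1| :=
    (mul_le_mul_of_nonneg_left hb (by linarith)).trans
      (mul_le_mul_of_nonneg_right hnV (abs_nonneg _))
  have key : ∀ g : ℤ, |g| = 1 → |c| = g * c → |z| ≤ H - b1 := by
    intro g hg hgc
    have hc1 : 1 ≤ |c| := Int.one_le_abs hc
    have g1 : g = 1 ∨ g = -1 := by
      rcases le_total 0 g with h | h
      · left; rwa [abs_of_nonneg h] at hg
      · right; rw [abs_of_nonpos h] at hg; linarith
    -- with `c' = g * c ≥ 1`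
    have t1 : 2 * V * V * (|b1| + b3) ≤ s * |c| := by
      nlinarith
    have t2 : 2 * V * V * (|b1| + b3) ≤ (T - s) * |c| := by
      nlinarith
    have up : g * (n * z) ≤ n * H - n * b1 := by
      have e1 : g * (n * z) = g * (n * f1) - (T - s) * (g * c) + g * (p * e) := by
        rw [hf, hz]; ring
      rw [e1, ← hgc]
      rcases g1 with rfl | rfl <;> nlinarith
    have lo : -(n * H - n * b1) ≤ g * (n * z) := by
      have e1 : g * (n * z) = g * (n * f0) + s * (g * c) + g * (p * e) := by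
        rw [hz]; ring
      rw [e1, ← hgc]
      rcases g1 with rfl | rfl <;> nlinarith
    rw [abs_le]
    rcases g1 with rfl | rfl
    · constructor <;> nlinarith
    · constructor <;> nlinarith
  rcases le_total 0 c with h | h
  · exact key 1 (by simp) (by rw [abs_of_nonneg h]; ring)
  · exact key (-1) (by simp) (by rw [abs_of_nonpos h]; ring)

theorem row_inside (V b1 b2 b3 : ℤ) (hV : 0 ≤ V) (hb : b1 ≤ b2) : ∃ ρ₀ : ℕ, ∀ ρ : ℕ, ρ₀ ≤ ρ →
    ∀ (m : ℕ) (v : Fin m → Site) (κ : Fin m → ℕ) (h : Fin m → ℤ) (P Q : Fin m → Site),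
    Poly v V κ h P Q → (∀ j, v j ≠ 0 ∧ |(v j).1| ≤ V ∧ |(v j).2| ≤ V) →
    (∀ i j, i ≠ j → cr (v i) (v j) ≠ 0) → (∀ i, b1 + b3 ≤ 2 * h i) →
    ∀ (j : Fin m) (z : Site), |cr (v j) (z - P j)| ≤ b3 → -b3 ≤ dt (v j) (z - P j) →
      dt (v j) (z - P j) ≤ (2 * κ j : ℕ) * dt (v j) (v j) + b3 →
      ¬ (b3 ≤ dt (v j) (z - P j) ∧ dt (v j) (z - P j) ≤ (2 * κ j : ℕ) * dt (v j) (v j) - b3 ∧
        cr (v j) (z - P j) ≤ b2) →
      z ∈ bx (P j) ρ ∨ z ∈ bx (Q j) ρ ∨ ∀ i, |cr (v i) z| ≤ h i - b1 := by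
  set τ := 2 * V * V * (|b1| + |b3|) with hτdef
  have hτ : 0 ≤ τ := by positivity
  refine ⟨((τ + |b3|) * V + |b3| * V).toNat, ?_⟩
  intro ρ hρ m v κ h P Q hP hv hne hh j z hcr hd1 hd2 hnot
  have hρ' := geom_le_of_toNat hρ
  have hb3 : 0 ≤ b3 := (abs_nonneg _).trans hcr
  have hb3a : |b3| = b3 := abs_of_nonneg hb3
  obtain ⟨hv0, hv1, hv2⟩ := hv j
  have hn0 := geom_dt_self hv0
  have hQ := hP.side j
  have hQ1 : (Q j).1 = (P j).1 + (2 * κ j : ℕ) * (v j).1 := by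
    rw [hQ]; simp
  have hQ2 : (Q j).2 = (P j).2 + (2 * κ j : ℕ) * (v j).2 := by
    rw [hQ]; simp
  have hcr' := hcr
  unfold cr at hcr
  simp only [Prod.fst_sub, Prod.snd_sub] at hcr
  have hcru : (z.1 - (Q j).1) * (v j).2 - (z.2 - (Q j).2) * (v j).1
      = (z.1 - (P j).1) * (v j).2 - (z.2 - (P j).2) * (v j).1 := by
    rw [hQ1, hQ2]; ring
  have hdtu : (v j).1 * (z.1 - (Q j).1) + (v j).2 * (z.2 - (Q j).2)
      = (v j).1 * (z.1 - (P j).1) + (v j).2 * (z.2 - (P j).2)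
        - (2 * κ j : ℕ) * ((v j).1 * (v j).1 + (v j).2 * (v j).2) := by
    rw [hQ1, hQ2]; ring
  have hdd : dt (v j) (z - P j) = (v j).1 * (z.1 - (P j).1) + (v j).2 * (z.2 - (P j).2) := rfl
  have hdv : dt (v j) (v j) = (v j).1 * (v j).1 + (v j).2 * (v j).2 := rfl
  -- box around `P j`
  by_cases hA : dt (v j) (z - P j) < τ + b3
  · left
    rw [mem_bx]
    have := geom_box (V := V) (A := τ + |b3|) (B := |b3|) (u1 := z.1 - (P j).1)
      (u2 := z.2 - (P j).2) hv1 hv2 hn0 (by rwa [hb3a])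
      (by rw [hb3a, ← hdd, abs_le]; constructor <;> linarith)
    exact ⟨this.1.trans hρ', this.2.trans hρ'⟩
  by_cases hC : (2 * κ j : ℕ) * dt (v j) (v j) - (τ + b3) < dt (v j) (z - P j)
  · right; left
    rw [mem_bx]
    have := geom_box (V := V) (A := τ + |b3|) (B := |b3|) (u1 := z.1 - (Q j).1)
      (u2 := z.2 - (Q j).2) hv1 hv2 hn0 (by rwa [hb3a, hcru])
      (by rw [hb3a, hdtu, ← hdd, ← hdv, abs_le]; constructor <;> linarith)
    exact ⟨this.1.trans hρ', this.2.trans hρ'⟩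
  right; right
  have hcr2 : b2 < cr (v j) (z - P j) := by
    by_contra hcon
    exact hnot ⟨by linarith, by linarith, not_lt.1 hcon⟩
  intro i
  by_cases hij : i = j
  · subst hij
    have h2 := hP.base i
    have h3 : cr (v i) (z - P i) = cr (v i) z - cr (v i) (P i) := by
      unfold cr; simp only [Prod.fst_sub, Prod.snd_sub]; ring
    have h4 := (abs_le.1 hcr').2
    have h5 := hh i
    rw [h3, h2] at hcr2 h4
    rw [abs_le]; constructor <;> linarith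
  · obtain ⟨hw0, hw1, hw2⟩ := hv i
    refine geom_mid (V := V) (n := dt (v j) (v j)) (s := dt (v j) (z - P j))
      (T := (2 * κ j : ℕ) * dt (v j) (v j)) (c := cr (v i) (v j)) (f0 := cr (v i) (P j))
      (f1 := cr (v i) (Q j)) (p := cr (v j) (z - P j))
      (e := (v j).2 * (v i).2 + (v j).1 * (v i).1) (b3 := b3) hn0 ?_ (hne i j hij) (hP.inP i j)
      (hP.inQ i j) ?_ ?_ ?_ hcr' ?_ ?_
    · have a1 := abs_le.1 (geom_mulabs hv1 hv1)
      have a2 := abs_le.1 (geom_mulabs hv2 hv2)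
      rw [hdv]; linarith [a1.2, a2.2]
    · unfold cr; rw [hQ1, hQ2, hdv]; ring
    · have : 2 * V * V * (|b1| + b3) = τ := by rw [hτdef, hb3a]
      rw [this]; linarith
    · have : 2 * V * V * (|b1| + b3) = τ := by rw [hτdef, hb3a]
      rw [this]; linarith
    · refine (abs_add_le _ _).trans ?_
      have a1 := geom_mulabs hv2 hw2
      have a2 := geom_mulabs hv1 hw1
      linarith
    · unfold cr dt; simp only [Prod.fst_sub, Prod.snd_sub]; ring

theorem pull_in (V : ℕ) {r R : ℝ} (hr : 0 < r) (hR : 0 ≤ R) (b : ℤ) : ∃ ρ₀ : ℕ, ∃ N₀ : ℝ,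
    ∀ N : ℝ, N₀ ≤ N → ∀ (m : ℕ) (v : Fin m → Site) (h : Fin m → ℤ),
    (∀ j, |(v j).1| + |(v j).2| ≤ V) → (∀ j, r * N ≤ h j) → ∀ P : Site,
    (∀ j, |cr (v j) P| ≤ h j) → |(P.1 : ℝ)| ≤ R * N → |(P.2 : ℝ)| ≤ R * N →
    ∃ a : Site, a ∈ bx P ρ₀ ∧ ∀ j, |cr (v j) a| ≤ h j - b := by
  set L : ℝ := ((|b| : ℤ) + V) / r with hL
  have hL0 : 0 ≤ L := by
    rw [hL]
    have : (0 : ℝ) ≤ ((|b| : ℤ) : ℝ) := by exact_mod_cast abs_nonneg b
    positivity
  refine ⟨⌈L * R + 1⌉₊, L + 1, ?_⟩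
  intro N hN m v h hv hh P hP hP1 hP2
  have hN0 : 0 < N := by linarith
  set s : ℝ := L / N with hs
  have hs0 : 0 ≤ s := by rw [hs]; positivity
  have hs1 : s ≤ 1 := by rw [hs, div_le_one hN0]; linarith
  have hsN : s * N = L := by rw [hs]; field_simp
  set a1 : ℤ := P.1 - round (s * P.1) with ha1
  set a2 : ℤ := P.2 - round (s * P.2) with ha2
  have r1 : |s * P.1 - round (s * P.1)| ≤ 1 / 2 := abs_sub_round _
  have r2 : |s * P.2 - round (s * P.2)| ≤ 1 / 2 := abs_sub_round _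
  have bd : ∀ x : ℤ, |(x : ℝ)| ≤ R * N → |(round (s * x) : ℝ)| ≤ L * R + 1 := by
    intro x hx
    have q1 : |s * x - round (s * x)| ≤ 1 / 2 := abs_sub_round _
    have q2 : |s * x| ≤ L * R := by
      rw [abs_mul, abs_of_nonneg hs0]
      calc s * |(x : ℝ)| ≤ s * (R * N) := mul_le_mul_of_nonneg_left hx hs0
        _ = L * R := by rw [← hsN]; ring
    have q3 : |(round (s * x) : ℝ)| ≤ |s * x| + |s * x - round (s * x)| := by
      have := abs_sub (s * (x : ℝ)) (s * x - round (s * x))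
      simpa using this
    linarith
  refine ⟨(a1, a2), ?_, ?_⟩
  · rw [mem_bx]
    have t1 := bd P.1 hP1
    have t2 := bd P.2 hP2
    have t3 : L * R + 1 ≤ (⌈L * R + 1⌉₊ : ℝ) := Nat.le_ceil _
    constructor
    · have : |((a1 - P.1 : ℤ) : ℝ)| ≤ ((⌈L * R + 1⌉₊ : ℤ) : ℝ) := by
        rw [ha1]; push_cast
        have : (P.1 : ℝ) - (round (s * (P.1 : ℝ)) : ℝ) - P.1 = -(round (s * (P.1 : ℝ)) : ℝ) := by ring
        rw [this, abs_neg]; linarith
      exact_mod_cast this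
    · have : |((a2 - P.2 : ℤ) : ℝ)| ≤ ((⌈L * R + 1⌉₊ : ℤ) : ℝ) := by
        rw [ha2]; push_cast
        have : (P.2 : ℝ) - (round (s * (P.2 : ℝ)) : ℝ) - P.2 = -(round (s * (P.2 : ℝ)) : ℝ) := by ring
        rw [this, abs_neg]; linarith
      exact_mod_cast this
  · intro j
    have hcrP : |((cr (v j) P : ℤ) : ℝ)| ≤ (h j : ℝ) := by exact_mod_cast hP j
    have hVj : |((v j).1 : ℝ)| + |((v j).2 : ℝ)| ≤ (V : ℝ) := by exact_mod_cast hv j
    have e : ((cr (v j) (a1, a2) : ℤ) : ℝ) = (1 - s) * ((cr (v j) P : ℤ) : ℝ)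
        + ((s * P.1 - round (s * P.1)) * (v j).2 - (s * P.2 - round (s * P.2)) * (v j).1) := by
      unfold cr
      rw [ha1, ha2]
      push_cast
      ring
    have g1 : |(1 - s) * ((cr (v j) P : ℤ) : ℝ)| ≤ (1 - s) * h j := by
      rw [abs_mul, abs_of_nonneg (by linarith)]
      exact mul_le_mul_of_nonneg_left hcrP (by linarith)
    have g2 : |(s * P.1 - round (s * P.1)) * (v j).2 - (s * P.2 - round (s * P.2)) * (v j).1|
        ≤ V := by
      refine (abs_sub _ _).trans ?_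
      rw [abs_mul, abs_mul]
      have i1 : |s * P.1 - round (s * P.1)| * |((v j).2 : ℝ)| ≤ 1 / 2 * |((v j).2 : ℝ)| :=
        mul_le_mul_of_nonneg_right r1 (abs_nonneg _)
      have i2 : |s * P.2 - round (s * P.2)| * |((v j).1 : ℝ)| ≤ 1 / 2 * |((v j).1 : ℝ)| :=
        mul_le_mul_of_nonneg_right r2 (abs_nonneg _)
      have i3 := abs_nonneg ((v j).1 : ℝ)
      have i4 := abs_nonneg ((v j).2 : ℝ)
      linarith
    have g3 : (|b| : ℤ) + (V : ℝ) ≤ s * h j := by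
      calc ((|b| : ℤ) : ℝ) + (V : ℝ) = r * L := by rw [hL]; field_simp
        _ = s * (r * N) := by rw [← hsN]; ring
        _ ≤ s * h j := mul_le_mul_of_nonneg_left (hh j) hs0
    have hbb : (b : ℝ) ≤ ((|b| : ℤ) : ℝ) := by exact_mod_cast le_abs_self b
    have : |((cr (v j) (a1, a2) : ℤ) : ℝ)| ≤ ((h j - b : ℤ) : ℝ) := by
      rw [e]
      refine (abs_add_le _ _).trans ?_
      push_cast
      linarith
    exact_mod_cast this

end Pool.Agent.LB24
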