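import Pool.Agent.LB24.Ev
import Pool.Agent.LT.Row

/-!
# LB24, module LOOPS: blob loops and row loops (helper24)
-/

open MeasureTheory Filter Topology
open scoped NNReal ENNReal Pointwise

namespace Pool.Agent.LB24

open Pool.Agent.LT Pool.Agent.WSB71

/-- Cost of a box. -/
noncomputable def bcost (β : ℝ) (ρ : ℕ) : ℝ :=
  4 * ((bx 0 ρ).card * (((2 * ρ + 1) + (2 * ρ + 1) : ℕ) + β) + ((2 * ρ + 1) + (2 * ρ + 1) : ℕ))

lemma card_bx (p : Site) (ρ : ℕ) : (bx p ρ).card = (bx 0 ρ).card := by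
  unfold bx
  rw [Finset.card_product, Finset.card_product, Int.card_Icc, Int.card_Icc, Int.card_Icc, Int.card_Icc]
  have e1 : p.1 + ρ + 1 - (p.1 - ρ) = 2 * ρ + 1 := by ring
  have e2 : p.2 + ρ + 1 - (p.2 - ρ) = 2 * ρ + 1 := by ring
  have e3 : (0 : Site).1 + ρ + 1 - ((0 : Site).1 - ρ) = 2 * ρ + 1 := by ring
  have e4 : (0 : Site).2 + ρ + 1 - ((0 : Site).2 - ρ) = 2 * ρ + 1 := by ring
  rw [e1, e2, e3, e4]

lemma cov_box {β : ℝ} (hβ : 0 ≤ β) {p x y : Site} {ρ : ℕ} (hx : x ∈ bx p ρ) (hy : y ∈ bx p ρ) :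
    Cov (bx p ρ) (bx p ρ) β (bcost β ρ) x y (bcost β ρ) := by
  have hx' : InBox (p.1 - ρ - 1) (p.2 - ρ - 1) (2 * ρ + 1) (2 * ρ + 1) x := by
    rw [bx_eq_boxF, mem_boxF] at hx; exact hx
  have hy' : InBox (p.1 - ρ - 1) (p.2 - ρ - 1) (2 * ρ + 1) (2 * ρ + 1) y := by
    rw [bx_eq_boxF, mem_boxF] at hy; exact hy
  have h := cov_brute hβ (bx p ρ) (fun z hz => by
    rw [bx_eq_boxF, mem_boxF] at hz; exact hz) hx' hy'
  rw [← bx_eq_boxF] at h
  have e : bcost β ρ = 4 * ((bx p ρ).card * (((2 * ρ + 1) + (2 * ρ + 1) : ℕ) + β)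
      + ((2 * ρ + 1) + (2 * ρ + 1) : ℕ)) := by
    unfold bcost; rw [card_bx p]
  rw [e]
  refine h.mono (le_refl _) (le_refl _) le_rfl ?_ le_rfl
  have : 0 ≤ ((bx p ρ).card : ℝ) * (((2 * ρ + 1) + (2 * ρ + 1) : ℕ) + β)
      + ((2 * ρ + 1) + (2 * ρ + 1) : ℕ) := by positivity
  linarith

/-- Cover a box around `p` by a loop at `0`. -/
theorem blob_loop {Z : Set Site} {D : Finset Site} {β : ℝ} (hβ : 0 ≤ β) {p a : Site} {ρ : ℕ}
    (hD : ∀ z ∈ D, z ∈ Z) (hb : ∀ z ∈ bx p ρ, z ∈ Z) (ha : a ∈ bx p ρ) {τ₀ c₀ : ℝ}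
    (t1 : Cov D ∅ β τ₀ 0 a c₀) (t2 : Cov D ∅ β τ₀ a 0 c₀) :
    LCov Z (bx p ρ : Finset Site) β (2 * τ₀ + bcost β ρ) 0 0 (2 * c₀ + bcost β ρ) := by
  have h1 := LCov.of_cov (Z := Z) t1 hD
  have h2 := LCov.of_cov (Z := Z) (cov_box hβ ha ha) hb
  have h3 := LCov.of_cov (Z := Z) t2 hD
  refine ((h1.comp h2).comp h3).mono (le_refl _) ?_ (by linarith) (by linarith)
  intro z hz
  exact Or.inl (Or.inr hz)

/-- A site whose `cr` and `dt` are small is small. -/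
lemma small_of {v u : Site} (hv : v ≠ 0) {b : ℤ} (h1 : |cr v u| ≤ b) (h2 : |dt v u| ≤ b) :
    |u.1| ≤ 2 * b ∧ |u.2| ≤ 2 * b := by
  have hb : 0 ≤ b := (abs_nonneg _).trans h1
  have hpos : 0 < v.1 * v.1 + v.2 * v.2 := by
    rcases eq_or_ne v.1 0 with h | h
    · have h' : v.2 ≠ 0 := fun h' => hv (Prod.ext h h')
      have := mul_self_pos.2 h'
      have := mul_self_nonneg v.1
      linarith
    · have := mul_self_pos.2 h
      have := mul_self_nonneg v.2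
      linarith
  have a1 : |v.1| ≤ v.1 * v.1 + v.2 * v.2 := by
    have h3 : |v.1| ≤ v.1 * v.1 := by
      rcases eq_or_ne v.1 0 with h | h
      · rw [h]; simp
      · have h4 : 1 ≤ |v.1| := Int.one_le_abs h
        calc |v.1| = |v.1| * 1 := (mul_one _).symm
          _ ≤ |v.1| * |v.1| := mul_le_mul_of_nonneg_left h4 (abs_nonneg _)
          _ = v.1 * v.1 := abs_mul_abs_self _
    have := mul_self_nonneg v.2
    linarith
  have a2 : |v.2| ≤ v.1 * v.1 + v.2 * v.2 := by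
    have h3 : |v.2| ≤ v.2 * v.2 := by
      rcases eq_or_ne v.2 0 with h | h
      · rw [h]; simp
      · have h4 : 1 ≤ |v.2| := Int.one_le_abs h
        calc |v.2| = |v.2| * 1 := (mul_one _).symm
          _ ≤ |v.2| * |v.2| := mul_le_mul_of_nonneg_left h4 (abs_nonneg _)
          _ = v.2 * v.2 := abs_mul_abs_self _
    have := mul_self_nonneg v.1
    linarith
  have k1 : (v.1 * v.1 + v.2 * v.2) * u.1 = dt v u * v.1 + cr v u * v.2 := by
    unfold dt cr; ring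
  have k2 : (v.1 * v.1 + v.2 * v.2) * u.2 = dt v u * v.2 - cr v u * v.1 := by
    unfold dt cr; ring
  have m1 : |dt v u * v.1| ≤ b * (v.1 * v.1 + v.2 * v.2) := by
    rw [abs_mul]; exact mul_le_mul h2 a1 (abs_nonneg _) hb
  have m2 : |cr v u * v.2| ≤ b * (v.1 * v.1 + v.2 * v.2) := by
    rw [abs_mul]; exact mul_le_mul h1 a2 (abs_nonneg _) hb
  have m3 : |dt v u * v.2| ≤ b * (v.1 * v.1 + v.2 * v.2) := by
    rw [abs_mul]; exact mul_le_mul h2 a2 (abs_nonneg _) hb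
  have m4 : |cr v u * v.1| ≤ b * (v.1 * v.1 + v.2 * v.2) := by
    rw [abs_mul]; exact mul_le_mul h1 a1 (abs_nonneg _) hb
  constructor
  · have h3 : (v.1 * v.1 + v.2 * v.2) * |u.1| ≤ (v.1 * v.1 + v.2 * v.2) * (2 * b) := by
      calc (v.1 * v.1 + v.2 * v.2) * |u.1| = |(v.1 * v.1 + v.2 * v.2) * u.1| := by
            rw [abs_mul, abs_of_pos hpos]
        _ = |dt v u * v.1 + cr v u * v.2| := by rw [k1]
        _ ≤ |dt v u * v.1| + |cr v u * v.2| := abs_add_le _ _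
        _ ≤ (v.1 * v.1 + v.2 * v.2) * (2 * b) := by linarith
    exact le_of_mul_le_mul_left h3 hpos
  · have h3 : (v.1 * v.1 + v.2 * v.2) * |u.2| ≤ (v.1 * v.1 + v.2 * v.2) * (2 * b) := by
      calc (v.1 * v.1 + v.2 * v.2) * |u.2| = |(v.1 * v.1 + v.2 * v.2) * u.2| := by
            rw [abs_mul, abs_of_pos hpos]
        _ = |dt v u * v.2 - cr v u * v.1| := by rw [k2]
        _ ≤ |dt v u * v.2| + |cr v u * v.1| := abs_sub _ _
        _ ≤ (v.1 * v.1 + v.2 * v.2) * (2 * b) := by linarith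
    exact le_of_mul_le_mul_left h3 hpos

lemma endReg_mem {v P Q x : Site} {κ ρ : ℕ} {b3 : ℤ} (hv : v ≠ 0) (hQ : Q = P + (2 * κ) • v)
    (hρ : 2 * b3 ≤ ρ) (hx : EndReg v b3 (2 * κ) x) : P + x ∈ bx P ρ ∨ P + x ∈ bx Q ρ := by
  obtain ⟨h1, h2 | h2⟩ := hx
  · left
    obtain ⟨h3, h4⟩ := small_of hv h1 h2
    rw [mem_bx]
    have e1 : (P + x).1 - P.1 = x.1 := by simp
    have e2 : (P + x).2 - P.2 = x.2 := by simp
    rw [e1, e2]
    exact ⟨h3.trans hρ, h4.trans hρ⟩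
  · right
    have e : P + x - Q = x - (2 * κ) • v := by rw [hQ]; abel
    have s1 : ((2 * κ) • v).1 = (2 * κ : ℕ) * v.1 := by rw [Prod.smul_fst, nsmul_eq_mul]
    have s2 : ((2 * κ) • v).2 = (2 * κ : ℕ) * v.2 := by rw [Prod.smul_snd, nsmul_eq_mul]
    have c1 : cr v (x - (2 * κ) • v) = cr v x := by
      unfold cr
      rw [Prod.fst_sub, Prod.snd_sub, s1, s2]
      ring
    have c2 : dt v (x - (2 * κ) • v) = dt v x - (2 * κ : ℕ) * dt v v := by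
      unfold dt
      rw [Prod.fst_sub, Prod.snd_sub, s1, s2]
      ring
    obtain ⟨h3, h4⟩ := small_of (u := x - (2 * κ) • v) (b := b3) hv (by rw [c1]; exact h1)
      (by rw [c2]; exact h2)
    rw [mem_bx]
    have e1 : (P + x).1 - Q.1 = (x - (2 * κ) • v).1 := by rw [← e]; rfl
    have e2 : (P + x).2 - Q.2 = (x - (2 * κ) • v).2 := by rw [← e]; rfl
    rw [e1, e2]
    exact ⟨h3.trans hρ, h4.trans hρ⟩

/-- A row, as a loop at `0`. -/
theorem row_loop {Z : Set Site} {D : Finset Site} {β : ℝ} (hβ : 0 ≤ β) {v P Q : Site} {κ ρ : ℕ}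
    {b1 b2 b3 : ℤ} (hv : v ≠ 0) (hQ : Q = P + (2 * κ) • v) (hρ : 2 * b3 ≤ ρ)
    (hD : ∀ z ∈ D, z ∈ Z) (hbP : ∀ z ∈ bx P ρ, z ∈ Z) (hbQ : ∀ z ∈ bx Q ρ, z ∈ Z)
    {aP aQ : Site} (haP : aP ∈ bx P ρ) (haQ : aQ ∈ bx Q ρ) {τ₀ c₀ : ℝ}
    (t1 : Cov D ∅ β τ₀ 0 aP c₀) (t2 : Cov D ∅ β τ₀ aP 0 c₀)
    (t3 : Cov D ∅ β τ₀ 0 aQ c₀) (t4 : Cov D ∅ β τ₀ aQ 0 c₀)
    {x y : Site} (hx : EndReg v b3 (2 * κ) x) (hy : EndReg v b3 (2 * κ) y) {s : ℝ≥0} {c τ : ℝ}
    (hs : (s : ℝ) ≤ τ)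
    (hrow : ∀ μ : Measure WP, IsLaw μ →
      Real.exp (-c) ≤ μ.real (rowEv β v b1 b2 b3 (2 * κ) x y s))
    (hin : ∀ z, |cr v (z - P)| ≤ b3 → -b3 ≤ dt v (z - P) →
      dt v (z - P) ≤ (2 * κ : ℕ) * dt v v + b3 →
      ¬ (b3 ≤ dt v (z - P) ∧ dt v (z - P) ≤ (2 * κ : ℕ) * dt v v - b3 ∧ cr v (z - P) ≤ b2) →
      z ∈ Z) :
    LCov Z {z | b1 ≤ cr v (z - P) ∧ cr v (z - P) ≤ b2 ∧ b3 ≤ dt v (z - P) ∧
      dt v (z - P) ≤ (2 * κ : ℕ) * dt v v - b3} β (2 * τ₀ + 2 * bcost β ρ + τ) 0 0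
      (2 * c₀ + 2 * bcost β ρ + c) := by
  have hstart : LCov Z ∅ β (τ₀ + bcost β ρ) 0 (P + x) (c₀ + bcost β ρ) := by
    rcases endReg_mem hv hQ hρ hx with h | h
    · have h1 := LCov.of_cov (Z := Z) t1 hD
      have h2 := LCov.of_cov (Z := Z) (cov_box hβ haP h) hbP
      exact (h1.comp h2).mono (le_refl _) (Set.empty_subset _) le_rfl le_rfl
    · have h1 := LCov.of_cov (Z := Z) t3 hD
      have h2 := LCov.of_cov (Z := Z) (cov_box hβ haQ h) hbQ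
      exact (h1.comp h2).mono (le_refl _) (Set.empty_subset _) le_rfl le_rfl
  have hend : LCov Z ∅ β (bcost β ρ + τ₀) (P + y) 0 (bcost β ρ + c₀) := by
    rcases endReg_mem hv hQ hρ hy with h | h
    · have h1 := LCov.of_cov (Z := Z) t2 hD
      have h2 := LCov.of_cov (Z := Z) (cov_box hβ h haP) hbP
      exact (h2.comp h1).mono (le_refl _) (Set.empty_subset _) le_rfl le_rfl
    · have h1 := LCov.of_cov (Z := Z) t4 hD
      have h2 := LCov.of_cov (Z := Z) (cov_box hβ h haQ) hbQ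
      exact (h2.comp h1).mono (le_refl _) (Set.empty_subset _) le_rfl le_rfl
  have hmid := LCov.of_row P hrow hs hin
  refine ((hstart.comp hmid).comp hend).mono (le_refl _) ?_ (by linarith) (by linarith)
  intro z hz
  exact Or.inl (Or.inr hz)

/-- Composition of finitely many loops at `0`. -/
theorem LCov.loops {Z : Set Site} {β : ℝ} (h0 : (0 : Site) ∈ Z) {ι : Type*} (T : Finset ι)
    (R : ι → Set Site) (τ c : ι → ℝ) (h : ∀ i ∈ T, LCov Z (R i) β (τ i) 0 0 (c i)) :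
    LCov Z (⋃ i ∈ T, R i) β (∑ i ∈ T, τ i) 0 0 (∑ i ∈ T, c i) := by
  classical
  induction T using Finset.induction_on with
  | empty =>
    have h1 := LCov.of_cov (Z := Z) (cov_refl (A := {0}) (x := 0) (by simp) β) (by
      intro z hz
      rw [Finset.mem_singleton] at hz
      rw [hz]; exact h0)
    refine h1.mono (le_refl _) ?_ (by simp) (by simp)
    simp
  | insert i T hi ih =>
    have h1 := h i (Finset.mem_insert_self _ _)
    have h2 := ih (fun j hj => h j (Finset.mem_insert_of_mem hj))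
    rw [Finset.sum_insert hi, Finset.sum_insert hi]
    refine (h1.comp h2).mono (le_refl _) ?_ le_rfl le_rfl
    rw [Finset.set_biUnion_insert]

end Pool.Agent.LB24
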