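import Pool.Agent.LB24.Defs

/-!
# LB24, module POLY: existence of the polygon

`P_j = ∑_{i<j} κ_i v_i - ∑_{i≥j} κ_i v_i`, `Q_j = P_j + 2 κ_j v_j = ∑_{i≤j} κ_i v_i - ∑_{i>j} κ_i v_i`.
`cr v_j P_j = - ∑_i κ_i |cr v_j v_i| = - h_j` (`cr v_j v_i < 0` for `i < j`, `> 0` for `i > j`, `= 0` for `i = j`);
`|cr v_i P_j| ≤ h_i` since `P_j = ∑ ± κ_i v_i`.
`prev`: `w = v_{j-1}` for `j > 0`: `cr v_{j-1} P_j = cr v_{j-1} P_{j-1} = - h_{j-1}`; `w = - v_{m-1}` for `j = 0`:
`cr v_{m-1} P_0 = h_{m-1}`.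
`next`: `w = v_{j+1}` for `j < m - 1`: `Q_j = P_{j+1}`; `w = - v_0` for `j = m - 1`: `Q_{m-1} = ∑ κ_i v_i`,
`cr v_0 Q_{m-1} = h_0`.
-/

open MeasureTheory Filter Topology
open scoped NNReal ENNReal Pointwise

namespace Pool.Agent.LB24

open Pool.Agent.LT Pool.Agent.WSB71

namespace PolyEx

lemma cr_add (w x y : Site) : cr w (x + y) = cr w x + cr w y := by
  unfold cr
  rw [Prod.fst_add, Prod.snd_add]
  ring

lemma cr_sub (w x y : Site) : cr w (x - y) = cr w x - cr w y := by
  unfold cr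
  rw [Prod.fst_sub, Prod.snd_sub]
  ring

lemma cr_neg (w x : Site) : cr (-w) x = - cr w x := by
  unfold cr
  rw [Prod.fst_neg, Prod.snd_neg]
  ring

lemma cr_neg' (w x : Site) : cr w (-x) = - cr w x := by
  unfold cr
  rw [Prod.fst_neg, Prod.snd_neg]
  ring

lemma cr_smul (w x : Site) (a : ℤ) : cr w (a • x) = a * cr w x := by
  unfold cr
  rw [Prod.smul_fst, Prod.smul_snd, smul_eq_mul, smul_eq_mul]
  ring

lemma cr_nsmul (w x : Site) (a : ℕ) : cr w (a • x) = a * cr w x := by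
  rw [← cr_smul, natCast_zsmul]

lemma cr_self (w : Site) : cr w w = 0 := by
  unfold cr
  ring

lemma cr_swap (w x : Site) : cr w x = - cr x w := by
  unfold cr
  ring

lemma cr_sum {ι : Type*} (s : Finset ι) (w : Site) (a : ι → ℤ) (v : ι → Site) :
    cr w (∑ i ∈ s, a i • v i) = ∑ i ∈ s, a i * cr w (v i) := by
  classical
  induction s using Finset.induction_on with
  | empty =>
    rw [Finset.sum_empty, Finset.sum_empty]
    unfold cr
    simp
  | insert a s ha ih =>
    rw [Finset.sum_insert ha, Finset.sum_insert ha, cr_add, cr_smul, ih]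

section

variable {m : ℕ} (v : Fin m → Site) (κ : Fin m → ℕ)

/-- The vertex `P_j`. -/
def PP (j : Fin m) : Site := ∑ i, (if i < j then (κ i : ℤ) else -(κ i : ℤ)) • v i

/-- The vertex `Q_j`. -/
def QQ (j : Fin m) : Site := PP v κ j + (2 * κ j) • v j

lemma cr_PP (w : Site) (j : Fin m) :
    cr w (PP v κ j) = ∑ i, (if i < j then (κ i : ℤ) else -(κ i : ℤ)) * cr w (v i) :=
  cr_sum _ _ _ _

lemma cr_QQ (w : Site) (j : Fin m) :
    cr w (QQ v κ j) = ∑ i, (if i ≤ j then (κ i : ℤ) else -(κ i : ℤ)) * cr w (v i) := by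
  have h1 : ∑ i, (if i = j then 2 * (κ i : ℤ) * cr w (v i) else 0) = 2 * (κ j : ℤ) * cr w (v j) := by
    rw [Finset.sum_ite_eq' Finset.univ j, if_pos (Finset.mem_univ j)]
  unfold QQ
  rw [cr_add, cr_PP, cr_nsmul]
  push_cast
  rw [← h1, ← Finset.sum_add_distrib]
  refine Finset.sum_congr rfl fun i _ => ?_
  rcases lt_trichotomy i j with h | h | h
  · rw [if_pos h, if_neg h.ne, if_pos h.le, add_zero]
  · rw [if_neg (by rw [h]; exact lt_irrefl j), if_pos h, if_pos h.le]
    ring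
  · rw [if_neg h.not_gt, if_neg h.ne', if_neg h.not_ge, add_zero]

lemma sum_abs_le (w : Site) (p : Fin m → Prop) [DecidablePred p] :
    |∑ i, (if p i then (κ i : ℤ) else -(κ i : ℤ)) * cr w (v i)| ≤
      ∑ i, (κ i : ℤ) * |cr w (v i)| := by
  refine (Finset.abs_sum_le_sum_abs _ _).trans (Finset.sum_le_sum fun i _ => ?_)
  rw [abs_mul]
  apply le_of_eq
  congr 1
  split_ifs
  · exact abs_of_nonneg (Int.natCast_nonneg _)
  · rw [abs_neg]
    exact abs_of_nonneg (Int.natCast_nonneg _)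

variable {v} (hv : ∀ i j, i < j → 0 < cr (v i) (v j))
include hv

lemma cr_lt {i j : Fin m} (h : i < j) : cr (v j) (v i) < 0 := by
  rw [cr_swap]
  linarith [hv i j h]

/-- `cr (v k) x = - h_k` if the signs fit. -/
lemma sum_eq_neg (k : Fin m) (p : Fin m → Prop) [DecidablePred p] (hp : ∀ i, i < k → p i)
    (hp' : ∀ i, k < i → ¬ p i) :
    ∑ i, (if p i then (κ i : ℤ) else -(κ i : ℤ)) * cr (v k) (v i) =
      - ∑ i, (κ i : ℤ) * |cr (v k) (v i)| := by
  rw [← Finset.sum_neg_distrib]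
  refine Finset.sum_congr rfl fun i _ => ?_
  rcases lt_trichotomy i k with h | h | h
  · rw [if_pos (hp i h), abs_of_neg (cr_lt hv h)]
    ring
  · rw [h, cr_self, abs_zero]
    ring
  · rw [if_neg (hp' i h), abs_of_pos (hv k i h)]
    ring

end

end PolyEx

open PolyEx in
theorem exists_poly {m : ℕ} (hm : 2 ≤ m) (v : Fin m → Site)
    (hv : ∀ i j, i < j → 0 < cr (v i) (v j)) (V : ℤ) (hV : ∀ j, |(v j).1| ≤ V ∧ |(v j).2| ≤ V)
    (κ : Fin m → ℕ) :
    ∃ P Q : Fin m → Site, Poly v V κ (fun j => ∑ i, (κ i : ℤ) * |cr (v j) (v i)|) P Q := by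
  refine ⟨PP v κ, QQ v κ, ?_, ?_, ?_, ?_, ?_, ?_⟩
  · exact fun j => rfl
  · intro j
    rw [cr_PP]
    exact sum_eq_neg κ hv j _ (fun i h => h) (fun i h => h.not_gt)
  · intro i j
    rw [cr_PP]
    exact sum_abs_le v κ _ _
  · intro i j
    rw [cr_QQ]
    exact sum_abs_le v κ _ _
  · intro j
    rcases Nat.eq_zero_or_pos (j : ℕ) with h0 | h0
    · -- `w = - v_{m-1}`
      obtain ⟨l, hl⟩ : ∃ l : Fin m, (l : ℕ) = m - 1 := ⟨⟨m - 1, by omega⟩, rfl⟩
      have hjl : j < l := by
        rw [Fin.lt_def]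
        omega
      refine ⟨- v l, ?_, ?_, ?_, ?_⟩
      · rw [Prod.fst_neg, abs_neg]
        exact (hV l).1
      · rw [Prod.snd_neg, abs_neg]
        exact (hV l).2
      · rw [cr_neg]
        linarith [cr_lt hv hjl]
      · intro z b hz
        have h1 := (abs_le.1 (hz l)).2
        have h2 : cr (v l) (PP v κ j) = ∑ i, (κ i : ℤ) * |cr (v l) (v i)| := by
          rw [cr_PP]
          refine Finset.sum_congr rfl fun i _ => ?_
          have h3 : ¬ i < j := by
            rw [Fin.lt_def]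
            omega
          rw [if_neg h3]
          rcases (show i ≤ l by rw [Fin.le_def]; omega).lt_or_eq with h4 | h4
          · rw [abs_of_neg (cr_lt hv h4)]
            ring
          · rw [h4, cr_self, abs_zero]
            ring
        rw [cr_neg, cr_sub, h2]
        linarith
    · obtain ⟨l, hl⟩ : ∃ l : Fin m, (l : ℕ) = j - 1 := ⟨⟨j - 1, by omega⟩, rfl⟩
      have hjl : l < j := by
        rw [Fin.lt_def]
        omega
      refine ⟨v l, (hV l).1, (hV l).2, hv l j hjl, ?_⟩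
      intro z b hz
      have h1 := (abs_le.1 (hz l)).1
      have h2 : cr (v l) (PP v κ j) = - ∑ i, (κ i : ℤ) * |cr (v l) (v i)| := by
        rw [cr_PP]
        refine sum_eq_neg κ hv l _ (fun i h => h.trans hjl) (fun i h => ?_)
        rw [Fin.lt_def] at h ⊢
        omega
      rw [cr_sub, h2]
      linarith
  · intro j
    by_cases h0 : (j : ℕ) + 1 < m
    · obtain ⟨l, hl⟩ : ∃ l : Fin m, (l : ℕ) = j + 1 := ⟨⟨j + 1, h0⟩, rfl⟩
      have hjl : j < l := by
        rw [Fin.lt_def]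
        omega
      refine ⟨v l, (hV l).1, (hV l).2, hv j l hjl, ?_⟩
      intro z b hz
      have h1 := (abs_le.1 (hz l)).1
      have h2 : cr (v l) (QQ v κ j) = - ∑ i, (κ i : ℤ) * |cr (v l) (v i)| := by
        rw [cr_QQ]
        refine sum_eq_neg κ hv l _ (fun i h => ?_) (fun i h => ?_)
        · rw [Fin.lt_def] at h
          rw [Fin.le_def]
          omega
        · rw [Fin.lt_def] at h
          rw [Fin.le_def]
          omega
      rw [cr_sub, h2]
      linarith
    · obtain ⟨l, hl⟩ : ∃ l : Fin m, (l : ℕ) = 0 := ⟨⟨0, by omega⟩, rfl⟩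
      have hjl : l < j := by
        rw [Fin.lt_def]
        omega
      refine ⟨- v l, ?_, ?_, ?_, ?_⟩
      · rw [Prod.fst_neg, abs_neg]
        exact (hV l).1
      · rw [Prod.snd_neg, abs_neg]
        exact (hV l).2
      · rw [cr_neg']
        linarith [cr_lt hv hjl]
      · intro z b hz
        have h1 := (abs_le.1 (hz l)).2
        have h2 : cr (v l) (QQ v κ j) = ∑ i, (κ i : ℤ) * |cr (v l) (v i)| := by
          rw [cr_QQ]
          refine Finset.sum_congr rfl fun i _ => ?_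
          have h3 : i ≤ j := by
            rw [Fin.le_def]
            omega
          rw [if_pos h3]
          rcases (show l ≤ i by rw [Fin.le_def]; omega).lt_or_eq with h4 | h4
          · rw [abs_of_pos (hv l i h4)]
          · rw [← h4, cr_self, abs_zero]
        rw [cr_neg, cr_sub, h2]
        linarith

end Pool.Agent.LB24
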