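import Pool.Agent.LB24.Core
import Pool.Agent.LB24.FinalPre
import Pool.Agent.LB24.Geom
import Pool.Agent.LB24.Loops
import Pool.Agent.LB24.PolyEx
import Pool.Agent.WSB71.ELow

/-!
# LB24, module FINAL: the lower bound for sorted vectors (helper24)
-/

open MeasureTheory Filter Topology
open scoped NNReal ENNReal Pointwise

namespace Pool.Agent.LB24

open Pool.Agent.LT Pool.Agent.WSB71

/-- The sites covered by the loops of the side `j`. -/
def sideSet {m : ℕ} (v : Fin m → Site) (κ : Fin m → ℕ) (P Q : Fin m → Site) (ρ : ℕ) (b1 b2 : ℤ)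
    (b3 : Fin m → ℤ) (j : Fin m) : Set Site :=
  ((bx (P j) ρ : Finset Site) : Set Site) ∪ ((bx (Q j) ρ : Finset Site) : Set Site) ∪
    {z | b1 ≤ cr (v j) (z - P j) ∧ cr (v j) (z - P j) ≤ b2 ∧ b3 j ≤ dt (v j) (z - P j) ∧
      dt (v j) (z - P j) ≤ (2 * κ j : ℕ) * dt (v j) (v j) - b3 j}

/-- The three loops of a side. -/
lemma side_loop {Z : Set Site} {D : Finset Site} {β : ℝ} (hβ : 0 ≤ β) {m : ℕ} {v : Fin m → Site}
    {κ : Fin m → ℕ} {P Q : Fin m → Site} {ρ : ℕ} {b1 b2 : ℤ} {b3 : Fin m → ℤ} (j : Fin m)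
    (hv : v j ≠ 0) (hQ : Q j = P j + (2 * κ j) • v j) (hρ : 2 * b3 j ≤ ρ)
    (hD : ∀ z ∈ D, z ∈ Z) (hbP : ∀ z ∈ bx (P j) ρ, z ∈ Z) (hbQ : ∀ z ∈ bx (Q j) ρ, z ∈ Z)
    {aP aQ : Site} (haP : aP ∈ bx (P j) ρ) (haQ : aQ ∈ bx (Q j) ρ) {τ₀ c₀ : ℝ}
    (t1 : Cov D ∅ β τ₀ 0 aP c₀) (t2 : Cov D ∅ β τ₀ aP 0 c₀)
    (t3 : Cov D ∅ β τ₀ 0 aQ c₀) (t4 : Cov D ∅ β τ₀ aQ 0 c₀)
    {x y : Site} (hx : EndReg (v j) (b3 j) (2 * κ j) x) (hy : EndReg (v j) (b3 j) (2 * κ j) y)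
    {s : ℝ≥0} {c τ : ℝ} (hs : (s : ℝ) ≤ τ)
    (hrow : ∀ μ : Measure WP, IsLaw μ →
      Real.exp (-c) ≤ μ.real (rowEv β (v j) b1 b2 (b3 j) (2 * κ j) x y s))
    (hin : ∀ z, |cr (v j) (z - P j)| ≤ b3 j → -b3 j ≤ dt (v j) (z - P j) →
      dt (v j) (z - P j) ≤ (2 * κ j : ℕ) * dt (v j) (v j) + b3 j →
      ¬ (b3 j ≤ dt (v j) (z - P j) ∧ dt (v j) (z - P j) ≤ (2 * κ j : ℕ) * dt (v j) (v j) - b3 j ∧
        cr (v j) (z - P j) ≤ b2) → z ∈ Z) :
    LCov Z (sideSet v κ P Q ρ b1 b2 b3 j) β (6 * τ₀ + 4 * bcost β ρ + τ) 0 0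
      (6 * c₀ + 4 * bcost β ρ + c) := by
  have h1 := blob_loop hβ hD hbP haP t1 t2
  have h2 := blob_loop hβ hD hbQ haQ t3 t4
  have h3 := row_loop hβ hv hQ hρ hD hbP hbQ haP haQ t1 t2 t3 t4 hx hy hs hrow hin
  exact ((h1.comp h2).comp h3).mono (le_refl _) (le_refl _) (by linarith) (by linarith)

/-- All loops together. -/
theorem boundary_tour {β : ℝ} (hβ : 1 ≤ β) {m : ℕ} (hm : 2 ≤ m) (v : Fin m → Site)
    (hv : ∀ i j, i < j → 0 < cr (v i) (v j)) (x c : Fin m → ℝ) (hx : ∀ i, 0 < x i)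
    (hr : ∀ i, Realizable β (v i) (c i)) {ε : ℝ} (hε : 0 < ε) :
    ∃ b : ℤ, ∃ C N₀ : ℝ, 0 ≤ C ∧ 1 ≤ N₀ ∧ ∀ N : ℝ, N₀ ≤ N → ∀ D : Finset Site,
      (∀ z, z ∈ D ↔ ∀ j, |cr (v j) z| ≤ hh v x N j - b) →
      ∀ a ∈ D, ∃ Z R : Set Site, Z ⊆ R ∧ (∀ z ∈ D, z ∈ Z) ∧
        LCov Z R β (C * (N ^ 2 * Real.sqrt N)) 0 a ((2 * ∑ i, x i * c i + ε) * N) := by
  classical
  have hβ0 : 0 ≤ β := by linarith
  have hv0 : ∀ j, v j ≠ 0 := fun j => (hr j).1
  have hne : ∀ i j, i ≠ j → cr (v i) (v j) ≠ 0 := by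
    intro i j hij
    rcases lt_or_gt_of_ne hij with h | h
    · exact (hv i j h).ne'
    · have := hv j i h
      rw [cr_swap]
      exact (neg_neg_of_pos this).ne
  obtain ⟨i₀, j₀, hij⟩ : ∃ i₀ j₀ : Fin m, cr (v i₀) (v j₀) ≠ 0 :=
    ⟨⟨0, by omega⟩, ⟨1, by omega⟩, hne _ _ (by simp [Fin.ext_iff])⟩
  obtain ⟨V, hV1, hV⟩ := exists_V v
  have hV' : ∀ j, v j ≠ 0 ∧ |(v j).1| ≤ (V : ℤ) ∧ |(v j).2| ≤ (V : ℤ) := fun j =>
    ⟨hv0 j, by have := hV j; have := abs_nonneg (v j).2; linarith,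
      by have := hV j; have := abs_nonneg (v j).1; linarith⟩
  have hV0 : (0 : ℤ) ≤ V := by positivity
  obtain ⟨xm, hxm0, hxm⟩ : ∃ xm : ℝ, 0 < xm ∧ ∀ i, xm ≤ x i := by
    obtain ⟨i, _, hi⟩ := Finset.exists_min_image Finset.univ x ⟨i₀, Finset.mem_univ _⟩
    exact ⟨x i, hx i, fun j => hi j (Finset.mem_univ j)⟩
  -- the parameters of the rows
  have hr' : ∀ j, ∃ b1 : ℤ, ∀ b2 : ℤ, b1 ≤ b2 → ∃ b3 : ℤ, ∃ C : ℝ, b2 ≤ b3 ∧ ∀ k : ℕ, 1 ≤ k →
      ∃ x y : Site, EndReg (v j) b3 k x ∧ EndReg (v j) b3 k y ∧ ∃ s : ℝ≥0, (s : ℝ) ≤ C * k ∧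
        ∀ μ : Measure WP, IsLaw μ →
          Real.exp (-(c j * k + C)) ≤ μ.real (rowEv β (v j) b1 b2 b3 k x y s) := fun j => (hr j).2
  choose b1' hb1' using hr'
  obtain ⟨b1, hb1⟩ : ∃ b1 : ℤ, b1 = ∑ j, |b1' j| := ⟨_, rfl⟩
  have hb10 : 0 ≤ b1 := by rw [hb1]; exact Finset.sum_nonneg fun _ _ => abs_nonneg _
  have hb1j : ∀ j, b1' j ≤ b1 := fun j => (le_abs_self _).trans (by
    rw [hb1]
    exact Finset.single_le_sum (f := fun j => |b1' j|) (fun _ _ => abs_nonneg _) (Finset.mem_univ j))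
  -- the core
  obtain ⟨r, hr0⟩ : ∃ r : ℝ, r = xm / 4 := ⟨_, rfl⟩
  have hrpos : 0 < r := by rw [hr0]; positivity
  obtain ⟨R₀, hR₀⟩ : ∃ R₀ : ℝ, R₀ = ∑ j, ∑ i, (x i / 2 + 1) * |(cr (v j) (v i) : ℝ)| := ⟨_, rfl⟩
  have hR₀0 : 0 ≤ R₀ := by
    rw [hR₀]
    exact Finset.sum_nonneg fun j _ => Finset.sum_nonneg fun i _ => by have := hx i; positivity
  obtain ⟨R, hR⟩ : ∃ R : ℝ, R = r + R₀ := ⟨_, rfl⟩
  have hR0 : 0 ≤ R := by rw [hR]; positivity
  obtain ⟨B, hB0, C₁, N₁, hC₁, hN₁, hcore⟩ := core_tour v hv0 i₀ j₀ hij hβ hrpos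
    (show r ≤ R by rw [hR]; linarith) (show 0 < ε / 4 by positivity)
  obtain ⟨b2, hb2⟩ : ∃ b2 : ℤ, b2 = b1 + B := ⟨_, rfl⟩
  have hb12 : b1 ≤ b2 := by rw [hb2]; linarith
  have hrow := fun j => hb1' j b2 ((hb1j j).trans hb12)
  choose b3 C₂ hb23 hrow using hrow
  -- the radius
  have hnear := fun j => near_side V b1 b2 (b3 j) hV0
  choose ρ1 hρ1 using hnear
  have hins := fun j => row_inside V b1 b2 (b3 j) hV0 hb12
  choose ρ2 hρ2 using hins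
  obtain ⟨R', hR'⟩ : ∃ R' : ℝ, R' = 2 * V * R := ⟨_, rfl⟩
  have hR'0 : 0 ≤ R' := by rw [hR']; positivity
  obtain ⟨ρ3, N₂, hpull⟩ := pull_in V hrpos hR'0 b2
  obtain ⟨ρ, hρ⟩ : ∃ ρ : ℕ, ρ = ∑ j, (ρ1 j + ρ2 j + (2 * b3 j).toNat) + ρ3 := ⟨_, rfl⟩
  have hρj : ∀ j, ρ1 j ≤ ρ ∧ ρ2 j ≤ ρ ∧ 2 * b3 j ≤ ρ := by
    intro j
    have h1 : ρ1 j + ρ2 j + (2 * b3 j).toNat ≤ ∑ j, (ρ1 j + ρ2 j + (2 * b3 j).toNat) :=
      Finset.single_le_sum (f := fun j => ρ1 j + ρ2 j + (2 * b3 j).toNat) (fun _ _ => Nat.zero_le _)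
        (Finset.mem_univ j)
    have h2 := Int.self_le_toNat (2 * b3 j)
    refine ⟨by omega, by omega, by omega⟩
  have hρ3 : ρ3 ≤ ρ := by omega
  -- constants
  obtain ⟨bc, hbc⟩ : ∃ bc : ℝ, bc = bcost β ρ := ⟨_, rfl⟩
  have hbc0 : 0 ≤ bc := by rw [hbc]; unfold bcost; positivity
  obtain ⟨K₁, hK₁⟩ : ∃ K₁ : ℝ, K₁ = C₁ + 2 * ∑ _j : Fin m, 6 * C₁ := ⟨_, rfl⟩
  obtain ⟨K₂, hK₂⟩ : ∃ K₂ : ℝ, K₂ = 2 * ∑ j, (4 * bc + 2 * |c j| + C₂ j) := ⟨_, rfl⟩
  obtain ⟨N₃, hN₃, hsmall⟩ := sqrt_small K₁ K₂ (show 0 < 3 * ε / 4 by positivity)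
  obtain ⟨K₃, hK₃⟩ : ∃ K₃ : ℝ, K₃ = 2 * C₁ + 2 * ∑ j, (6 * C₁ + 4 * bc + |C₂ j| * (x j + 2)) :=
    ⟨_, rfl⟩
  have hK₃0 : 0 ≤ K₃ := by
    rw [hK₃]
    have : 0 ≤ ∑ j, (6 * C₁ + 4 * bc + |C₂ j| * (x j + 2)) :=
      Finset.sum_nonneg fun j _ => by have := hx j; positivity
    linarith
  obtain ⟨N₄, hN₄⟩ : ∃ N₄ : ℝ, N₄ = (∑ j, (|b3 j| : ℝ) + b1) / r := ⟨_, rfl⟩
  refine ⟨b2, K₃, max (max N₁ N₂) (max N₃ N₄), hK₃0,
    hN₁.trans ((le_max_left _ _).trans (le_max_left _ _)), ?_⟩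
  intro N hN D hD a haD
  have hNN₁ : N₁ ≤ N := ((le_max_left _ _).trans (le_max_left _ _)).trans hN
  have hNN₂ : N₂ ≤ N := ((le_max_right _ _).trans (le_max_left _ _)).trans hN
  have hNN₃ : N₃ ≤ N := ((le_max_left _ _).trans (le_max_right _ _)).trans hN
  have hNN₄ : N₄ ≤ N := ((le_max_right _ _).trans (le_max_right _ _)).trans hN
  have hN1 : 1 ≤ N := hN₁.trans hNN₁
  have hN0 : 0 < N := by linarith
  have hrN : ∑ j, (|b3 j| : ℝ) + b1 ≤ r * N := by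
    rw [hN₄, div_le_iff₀ hrpos] at hNN₄
    linarith
  have hb3sum : ∀ j, (|b3 j| : ℝ) ≤ ∑ j, (|b3 j| : ℝ) := fun j =>
    Finset.single_le_sum (f := fun j => (|b3 j| : ℝ)) (fun _ _ => abs_nonneg _) (Finset.mem_univ j)
  have hb3nn : (0 : ℝ) ≤ ∑ j, (|b3 j| : ℝ) := Finset.sum_nonneg fun _ _ => abs_nonneg _
  have hb10' : (0 : ℝ) ≤ b1 := by exact_mod_cast hb10
  obtain ⟨κ, hκ⟩ : ∃ κ : Fin m → ℕ, κ = fun i => ⌈x i * N / 2⌉₊ := ⟨_, rfl⟩
  obtain ⟨h, hh0⟩ : ∃ h : Fin m → ℤ, h = hh v x N := ⟨_, rfl⟩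
  have hh1 : (fun j => ∑ i, (κ i : ℤ) * |cr (v j) (v i)|) = h := by
    rw [hh0, hκ]; rfl
  rw [← hh0] at hD
  have hhlow : ∀ j, 2 * r * N ≤ h j := by
    intro j
    have := hh_lower hm v hne x hxm hN0.le j
    rw [hh0, hr0]
    linarith
  have hhup : ∀ j, (h j : ℝ) ≤ R₀ * N := by
    intro j
    rw [hh0, hR₀]
    exact hh_upper v x hx hN1 j
  obtain ⟨P, Q, hPoly⟩ := exists_poly hm v hv V (fun j => (hV' j).2) κ
  rw [hh1] at hPoly
  -- the big region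
  obtain ⟨D₁, hD₁⟩ := exists_reg v i₀ j₀ hij (fun j => h j - b1)
  have hlow' : ∀ j, r * N ≤ ((h j - b1 : ℤ) : ℝ) := by
    intro j
    have := hhlow j
    push_cast
    linarith
  have hup' : ∀ j, ((h j - b1 : ℤ) : ℝ) ≤ R * N := by
    intro j
    have h1 := hhup j
    push_cast
    rw [hR]
    nlinarith
  have hDD : ∀ z, z ∈ D ↔ ∀ j, |cr (v j) z| ≤ (h j - b1) - B := by
    intro z
    rw [hD]
    refine forall_congr' fun j => ?_
    rw [hb2, sub_add_eq_sub_sub]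
  obtain ⟨htour, htrav⟩ := hcore N hNN₁ (fun j => h j - b1) hlow' hup' D₁ D hD₁ hDD
  -- symmetric sets
  have hDneg : ∀ z, z ∈ D₁ → -z ∈ D₁ := by
    intro z hz
    rw [hD₁] at hz ⊢
    intro j
    rw [cr_neg_right, abs_neg]
    exact hz j
  obtain ⟨W, hW⟩ : ∃ W : Set Site, W = ⋃ j, (((bx (P j) ρ : Finset Site) : Set Site) ∪
    ((bx (Q j) ρ : Finset Site) : Set Site)) := ⟨_, rfl⟩
  obtain ⟨Z, hZ⟩ : ∃ Z : Set Site, Z = (D₁ : Set Site) ∪ (W ∪ -W) := ⟨_, rfl⟩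
  have hZneg : -Z = Z := by
    rw [hZ, Set.union_neg, Set.union_neg, neg_neg, Set.union_comm (-W) W]
    congr 1
    ext z
    rw [Set.mem_neg]
    constructor
    · intro hz
      have := hDneg _ hz
      rwa [neg_neg] at this
    · intro hz
      exact hDneg _ hz
  have hZD₁ : ∀ z ∈ D₁, z ∈ Z := by
    intro z hz; rw [hZ]; exact Or.inl hz
  have hZP : ∀ j, ∀ z ∈ bx (P j) ρ, z ∈ Z := by
    intro j z hz
    rw [hZ, hW]
    exact Or.inr (Or.inl (Set.mem_iUnion.2 ⟨j, Or.inl hz⟩))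
  have hZQ : ∀ j, ∀ z ∈ bx (Q j) ρ, z ∈ Z := by
    intro j z hz
    rw [hZ, hW]
    exact Or.inr (Or.inl (Set.mem_iUnion.2 ⟨j, Or.inr hz⟩))
  have hDD₁ : ∀ z ∈ D, z ∈ D₁ := by
    intro z hz
    rw [hDD] at hz
    rw [hD₁]
    intro j
    have := hz j
    linarith
  -- the pull-in points
  have hLR : ∀ j, (h j : ℝ) ≤ R * N := by
    intro j
    have := hhup j
    rw [hR]
    nlinarith
  have hbig : ∀ p : Site, (∀ j, |cr (v j) p| ≤ h j) → |(p.1 : ℝ)| ≤ R' * N ∧ |(p.2 : ℝ)| ≤ R' * N := by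
    intro p hp
    have hL : ∀ j, h j ≤ ⌊R * N⌋ := fun j => Int.le_floor.2 (hLR j)
    obtain ⟨h1, h2⟩ := reg_bound v i₀ j₀ hij V hV h _ hL p hp
    have h3 : ((2 * V * ⌊R * N⌋ : ℤ) : ℝ) ≤ R' * N := by
      push_cast
      rw [hR']
      have h4 := Int.floor_le (R * N)
      calc 2 * (V : ℝ) * (⌊R * N⌋ : ℝ) ≤ 2 * V * (R * N) :=
            mul_le_mul_of_nonneg_left h4 (by positivity)
        _ = 2 * V * R * N := by ring
    have h5 : ((|p.1| : ℤ) : ℝ) ≤ ((2 * V * ⌊R * N⌋ : ℤ) : ℝ) := by exact_mod_cast h1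
    have h6 : ((|p.2| : ℤ) : ℝ) ≤ ((2 * V * ⌊R * N⌋ : ℤ) : ℝ) := by exact_mod_cast h2
    rw [Int.cast_abs] at h5 h6
    exact ⟨h5.trans h3, h6.trans h3⟩
  have hpullin : ∀ p : Site, (∀ j, |cr (v j) p| ≤ h j) → ∃ a : Site, a ∈ bx p ρ ∧ a ∈ D := by
    intro p hp
    obtain ⟨h1, h2⟩ := hbig p hp
    obtain ⟨a, ha1, ha2⟩ := hpull N hNN₂ m v h hV (fun j => by
      have := hhlow j
      nlinarith) p hp h1 h2
    refine ⟨a, ?_, ?_⟩
    · rw [mem_bx] at ha1 ⊢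
      have : (ρ3 : ℤ) ≤ ρ := by exact_mod_cast hρ3
      exact ⟨ha1.1.trans this, ha1.2.trans this⟩
    · rw [hD]; exact ha2
  choose aP haP haPD using fun j => hpullin (P j) (fun i => hPoly.inP i j)
  choose aQ haQ haQD using fun j => hpullin (Q j) (fun i => hPoly.inQ i j)
  -- the loops of the sides
  obtain ⟨τ₀, hτ₀⟩ : ∃ τ₀ : ℝ, τ₀ = C₁ * (N ^ 2 * Real.sqrt N) := ⟨_, rfl⟩
  obtain ⟨c₀, hc₀⟩ : ∃ c₀ : ℝ, c₀ = C₁ * Real.sqrt N := ⟨_, rfl⟩
  rw [← hτ₀] at htour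
  rw [← hτ₀, ← hc₀] at htrav
  have hκ1 : ∀ j, 1 ≤ 2 * κ j := by
    intro j
    have : 0 < κ j := by
      rw [hκ]
      exact Nat.ceil_pos.2 (by have := hx j; positivity)
    omega
  have hside : ∀ j, LCov Z (sideSet v κ P Q ρ b1 b2 b3 j) β
      (6 * τ₀ + 4 * bc + C₂ j * (2 * κ j : ℕ)) 0 0
      (6 * c₀ + 4 * bc + (c j * (2 * κ j : ℕ) + C₂ j)) := by
    intro j
    obtain ⟨x', y', hx', hy', s, hs, hev⟩ := hrow j (2 * κ j) (hκ1 j)
    rw [hbc]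
    refine side_loop hβ0 j (hv0 j) (hPoly.side j) (hρj j).2.2 hZD₁ (hZP j) (hZQ j) (haP j) (haQ j)
      (htrav _ (haPD j)).1 (htrav _ (haPD j)).2 (htrav _ (haQD j)).1 (htrav _ (haQD j)).2 hx' hy'
      hs ?_ ?_
    · intro μ hμ
      have := hμ.prob
      exact (hev μ hμ).trans (measureReal_mono (rowEv_mono (hb1j j)) (measure_ne_top _ _))
    · intro z hz1 hz2 hz3 hz4
      have hcond : ∀ i, b1 + b3 j ≤ 2 * h i := by
        intro i
        have h1 := hhlow i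
        have h2 := hb3sum j
        have h3 : (b3 j : ℝ) ≤ |(b3 j : ℝ)| := le_abs_self _
        have h4 : (0 : ℝ) ≤ h i := by
          have : 0 ≤ 2 * r * N := by positivity
          linarith
        have : ((b1 + b3 j : ℤ) : ℝ) ≤ ((2 * h i : ℤ) : ℝ) := by
          push_cast
          linarith
        exact_mod_cast this
      rcases hρ2 j ρ (hρj j).2.1 m v κ h P Q hPoly hV' hne hcond j z hz1 hz2 hz3 hz4 with h5 | h5 | h5
      · exact hZP j z h5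
      · exact hZQ j z h5
      · exact hZD₁ z ((hD₁ z).2 h5)
  have h0D : (0 : Site) ∈ D₁ := by
    rw [hD₁]
    intro j
    have h1 : cr (v j) 0 = 0 := by unfold cr; simp
    rw [h1, abs_zero]
    have h2 := hlow' j
    have h3 : (0 : ℝ) ≤ ((h j - b1 : ℤ) : ℝ) := by
      have : 0 ≤ r * N := by positivity
      linarith
    exact_mod_cast h3
  have hpos := LCov.loops (Z := Z) (β := β) (hZD₁ 0 h0D) Finset.univ _ _ _ (fun j _ => hside j)
  have hneg := hpos.neg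
  rw [hZneg, neg_zero] at hneg
  obtain ⟨U, hU⟩ : ∃ U : Set Site, U = ⋃ j ∈ (Finset.univ : Finset (Fin m)),
    sideSet v κ P Q ρ b1 b2 b3 j := ⟨_, rfl⟩
  rw [← hU] at hpos hneg
  have ht1 := LCov.of_cov (Z := Z) htour hZD₁
  have ht2 := LCov.of_cov (Z := Z) (htrav a haD).1 hZD₁
  have hall := ((ht1.comp hpos).comp hneg).comp ht2
  refine ⟨Z, _, ?_, fun z hz => hZD₁ z (hDD₁ z hz), hall.mono (le_refl _) (le_refl _) ?_ ?_⟩
  · -- everything is covered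
    have hkey : ∀ z : Site, z ∈ D₁ → (∃ j, cr (v j) z < -(h j - b1 - B)) → z ∈ U := by
      rintro z hz ⟨j, hj⟩
      rw [hD₁] at hz
      have h1 : cr (v j) (z - P j) ≤ b2 := by
        rw [cr_sub, hPoly.base, hb2]
        linarith
      rw [hU, Set.mem_iUnion₂]
      refine ⟨j, Finset.mem_univ j, ?_⟩
      rcases hρ1 j ρ (hρj j).1 m v κ h P Q hPoly hV' j z hz h1 with h2 | h2 | h2
      · exact Or.inl (Or.inl h2)
      · exact Or.inl (Or.inr h2)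
      · exact Or.inr ⟨h2.1, h1, h2.2⟩
    have hWU : W ⊆ U := by
      rw [hW, hU]
      intro z hz
      obtain ⟨j, hj⟩ := Set.mem_iUnion.1 hz
      rw [Set.mem_iUnion₂]
      exact ⟨j, Finset.mem_univ j, Or.inl hj⟩
    intro z hz
    rw [hZ] at hz
    rcases hz with hz | hz | hz
    · by_cases hzD : z ∈ D
      · exact Or.inl (Or.inl (Or.inl hzD))
      · rw [hDD] at hzD
        push Not at hzD
        obtain ⟨j, hj⟩ := hzD
        rcases lt_abs.1 hj with h1 | h1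
        · refine Or.inl (Or.inr ?_)
          rw [Set.mem_neg]
          apply hkey _ (hDneg z hz)
          refine ⟨j, ?_⟩
          rw [cr_neg_right]
          linarith
        · refine Or.inl (Or.inl (Or.inr ?_))
          apply hkey _ hz
          exact ⟨j, by linarith⟩
    · exact Or.inl (Or.inl (Or.inr (hWU hz)))
    · refine Or.inl (Or.inr ?_)
      rw [Set.mem_neg] at hz ⊢
      exact hWU hz
  · -- the time
    have hS : 1 ≤ Real.sqrt N := by rw [Real.one_le_sqrt]; exact hN1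
    have hNS : N ≤ N ^ 2 * Real.sqrt N := by
      calc N = N * 1 := (mul_one _).symm
        _ ≤ N * (N * Real.sqrt N) := by
            apply mul_le_mul_of_nonneg_left _ hN0.le
            nlinarith
        _ = N ^ 2 * Real.sqrt N := by ring
    have h1S : 1 ≤ N ^ 2 * Real.sqrt N := hN1.trans hNS
    have hterm : ∀ j, 6 * τ₀ + 4 * bc + C₂ j * (2 * κ j : ℕ) ≤
        (6 * C₁ + 4 * bc + |C₂ j| * (x j + 2)) * (N ^ 2 * Real.sqrt N) := by
      intro j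
      have h1 : (κ j : ℝ) ≤ (x j / 2 + 1) * N := by rw [hκ]; exact ceil_le' (hx j).le hN1
      have h2 : C₂ j * (2 * κ j : ℕ) ≤ |C₂ j| * ((x j + 2) * N) := by
        push_cast
        calc C₂ j * (2 * (κ j : ℝ)) ≤ |C₂ j| * (2 * (κ j : ℝ)) :=
              mul_le_mul_of_nonneg_right (le_abs_self _) (by positivity)
          _ ≤ |C₂ j| * ((x j + 2) * N) := by
              apply mul_le_mul_of_nonneg_left _ (abs_nonneg _)
              linarith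
      have h3 : |C₂ j| * ((x j + 2) * N) ≤ |C₂ j| * ((x j + 2) * (N ^ 2 * Real.sqrt N)) := by
        apply mul_le_mul_of_nonneg_left _ (abs_nonneg _)
        apply mul_le_mul_of_nonneg_left hNS
        have := hx j; linarith
      have h4 : 4 * bc ≤ 4 * bc * (N ^ 2 * Real.sqrt N) := by
        calc 4 * bc = 4 * bc * 1 := (mul_one _).symm
          _ ≤ _ := mul_le_mul_of_nonneg_left h1S (by positivity)
      rw [hτ₀]
      linarith
    have hsum := Finset.sum_le_sum (fun j (_ : j ∈ Finset.univ) => hterm j)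
    rw [← Finset.sum_mul] at hsum
    have e : K₃ * (N ^ 2 * Real.sqrt N) = τ₀ +
        (∑ j, (6 * C₁ + 4 * bc + |C₂ j| * (x j + 2))) * (N ^ 2 * Real.sqrt N) +
        (∑ j, (6 * C₁ + 4 * bc + |C₂ j| * (x j + 2))) * (N ^ 2 * Real.sqrt N) + τ₀ := by
      rw [hK₃, hτ₀]; ring
    rw [e]
    linarith
  · -- the cost
    have hterm : ∀ j, 6 * c₀ + 4 * bc + (c j * (2 * κ j : ℕ) + C₂ j) ≤
        x j * c j * N + (6 * C₁) * Real.sqrt N + (4 * bc + 2 * |c j| + C₂ j) := by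
      intro j
      have h1 : (κ j : ℝ) ≤ x j * N / 2 + 1 := by
        rw [hκ]; exact (Nat.ceil_lt_add_one (by have := hx j; positivity)).le
      have h2 : x j * N / 2 ≤ (κ j : ℝ) := by
        rw [hκ]; exact Nat.le_ceil _
      have h3 : c j * (2 * κ j : ℕ) ≤ x j * c j * N + 2 * |c j| := by
        push_cast
        have h4 : c j * (2 * (κ j : ℝ) - x j * N) ≤ |c j| * 2 := by
          calc c j * (2 * (κ j : ℝ) - x j * N) ≤ |c j| * (2 * (κ j : ℝ) - x j * N) :=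
                mul_le_mul_of_nonneg_right (le_abs_self _) (by linarith)
            _ ≤ |c j| * 2 := mul_le_mul_of_nonneg_left (by linarith) (abs_nonneg _)
        linarith
      rw [hc₀]
      linarith
    have hsum := Finset.sum_le_sum (fun j (_ : j ∈ Finset.univ) => hterm j)
    have e : ∑ j, (x j * c j * N + (6 * C₁) * Real.sqrt N + (4 * bc + 2 * |c j| + C₂ j)) =
        (∑ j, x j * c j) * N + (∑ _j : Fin m, 6 * C₁) * Real.sqrt N +
          ∑ j, (4 * bc + 2 * |c j| + C₂ j) := by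
      rw [Finset.sum_add_distrib, Finset.sum_add_distrib, ← Finset.sum_mul, ← Finset.sum_mul]
    rw [e] at hsum
    have h5 := hsmall N hNN₃
    rw [hK₁, hK₂] at h5
    rw [hc₀] at hsum ⊢
    linarith

/-- `cr` on the plane. -/
noncomputable def crP (v : Site) (p : Plane) : ℝ := p 0 * v.2 - p 1 * v.1

lemma continuous_crP (v : Site) : Continuous (crP v) := by
  unfold crP
  fun_prop

lemma crP_smul (v z : Site) (a : ℝ) : crP v (a • toPlane z) = a * cr v z := by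
  unfold crP cr
  rw [PiLp.smul_apply, PiLp.smul_apply, smul_eq_mul, smul_eq_mul]
  simp only [toPlane, PiLp.toLp_apply, Matrix.cons_val_zero, Matrix.cons_val_one]
  push_cast
  ring

lemma crP_add (v : Site) (p q : Plane) : crP v (p + q) = crP v p + crP v q := by
  unfold crP
  rw [PiLp.add_apply, PiLp.add_apply]
  ring

lemma crP_sum {m : ℕ} (v : Site) (p : Fin m → Plane) : crP v (∑ i, p i) = ∑ i, crP v (p i) := by
  classical
  have h : ∀ T : Finset (Fin m), crP v (∑ i ∈ T, p i) = ∑ i ∈ T, crP v (p i) := by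
    intro T
    induction T using Finset.induction_on with
    | empty => simp [crP]
    | insert i T hi ih => rw [Finset.sum_insert hi, Finset.sum_insert hi, crP_add, ih]
  exact h _

lemma crP_zonogon {m : ℕ} (v : Fin m → Site) (x : Fin m → ℝ) (hx : ∀ i, 0 < x i) (j : Fin m)
    {p : Plane} (hp : p ∈ zonogon v x) :
    |crP (v j) p| ≤ ∑ i, x i / 2 * |(cr (v j) (v i) : ℝ)| := by
  obtain ⟨s, hs, rfl⟩ := hp
  rw [crP_sum]
  refine (Finset.abs_sum_le_sum_abs _ _).trans (Finset.sum_le_sum fun i _ => ?_)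
  rw [crP_smul, abs_mul, abs_mul, abs_of_pos (hx i)]
  apply mul_le_mul_of_nonneg_right _ (abs_nonneg _)
  calc |s i| * x i ≤ 1 / 2 * x i := mul_le_mul_of_nonneg_right (hs i) (hx i).le
    _ = x i / 2 := by ring

lemma crP_interior {m : ℕ} (v : Fin m → Site) (x : Fin m → ℝ) (hx : ∀ i, 0 < x i) (j : Fin m)
    (hv : v j ≠ 0) {p : Plane} (hp : p ∈ interior (zonogon v x)) :
    |crP (v j) p| < ∑ i, x i / 2 * |(cr (v j) (v i) : ℝ)| := by
  obtain ⟨n, hn⟩ : ∃ n : Site, n = ((v j).2, -(v j).1) := ⟨_, rfl⟩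
  have hpos : (0 : ℝ) < cr (v j) n := by
    have h1 : (0 : ℤ) < cr (v j) n := by
      rw [hn]
      unfold cr
      simp only
      have e : (v j).2 * (v j).2 - -(v j).1 * (v j).1 = (v j).1 * (v j).1 + (v j).2 * (v j).2 := by
        ring
      rw [e]
      rcases eq_or_ne (v j).1 0 with h | h
      · have h' : (v j).2 ≠ 0 := fun h' => hv (Prod.ext h h')
        have := mul_self_pos.2 h'
        have := mul_self_nonneg (v j).1
        linarith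
      · have := mul_self_pos.2 h
        have := mul_self_nonneg (v j).2
        linarith
    exact_mod_cast h1
  -- move in the direction `n`
  have hcont : Continuous (fun s : ℝ => p + s • toPlane n) := by fun_prop
  have hopen : IsOpen ((fun s : ℝ => p + s • toPlane n) ⁻¹' interior (zonogon v x)) :=
    isOpen_interior.preimage hcont
  have h0 : (0 : ℝ) ∈ (fun s : ℝ => p + s • toPlane n) ⁻¹' interior (zonogon v x) := by
    simpa using hp
  obtain ⟨δ, hδ, hball⟩ := Metric.isOpen_iff.1 hopen 0 h0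
  have hmem : ∀ s : ℝ, |s| < δ → |crP (v j) p + s * cr (v j) n| ≤
      ∑ i, x i / 2 * |(cr (v j) (v i) : ℝ)| := by
    intro s hs
    have h1 : p + s • toPlane n ∈ zonogon v x := by
      apply interior_subset
      apply hball
      rw [Metric.mem_ball, dist_zero_right, Real.norm_eq_abs]
      exact hs
    have := crP_zonogon v x hx j h1
    rwa [crP_add, crP_smul] at this
  have hd : 0 < δ / 2 * cr (v j) n := by positivity
  rcases le_total 0 (crP (v j) p) with h | h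
  · have h1 := hmem (δ / 2) (by rw [abs_of_pos (by positivity)]; linarith)
    rw [abs_of_nonneg h]
    have := (le_abs_self _).trans h1
    linarith
  · have h1 := hmem (-(δ / 2)) (by rw [abs_neg, abs_of_pos (by positivity)]; linarith)
    rw [abs_of_nonpos h]
    have := (neg_le_abs _).trans h1
    linarith

lemma crP_margin {m : ℕ} (hm : 0 < m) (v : Fin m → Site) (x : Fin m → ℝ) (hx : ∀ i, 0 < x i)
    (hv : ∀ j, v j ≠ 0) {C : Set Plane} (hC : IsCompact C) (hCK : C ⊆ interior (zonogon v x)) :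
    ∃ δ : ℝ, 0 < δ ∧ ∀ j, ∀ p ∈ C, |crP (v j) p| ≤ (∑ i, x i / 2 * |(cr (v j) (v i) : ℝ)|) - δ := by
  have h1 : ∀ j, ∃ δ : ℝ, 0 < δ ∧ ∀ p ∈ C, |crP (v j) p| ≤
      (∑ i, x i / 2 * |(cr (v j) (v i) : ℝ)|) - δ := by
    intro j
    rcases C.eq_empty_or_nonempty with h | h
    · exact ⟨1, one_pos, by rw [h]; simp⟩
    · obtain ⟨p, hp, hmax⟩ := hC.exists_isMaxOn h (continuous_crP (v j)).abs.continuousOn
      refine ⟨(∑ i, x i / 2 * |(cr (v j) (v i) : ℝ)|) - |crP (v j) p|,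
        by have := crP_interior v x hx j (hv j) (hCK hp); linarith, fun q hq => ?_⟩
      have := hmax hq
      simp only [Set.mem_setOf_eq] at this
      linarith
  choose δ hδ hδ' using h1
  obtain ⟨j, _, hj⟩ := Finset.exists_min_image Finset.univ δ ⟨⟨0, hm⟩, Finset.mem_univ _⟩
  refine ⟨δ j, hδ j, fun i p hp => (hδ' i p hp).trans ?_⟩
  have := hj i (Finset.mem_univ i)
  linarith

/-- The lower bound for sorted vectors. -/
theorem lb_sorted {β : ℝ} (hβ : 1 ≤ β) {m : ℕ} (hm : 2 ≤ m) (v : Fin m → Site)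
    (hv : ∀ i j, i < j → 0 < cr (v i) (v j)) (x c : Fin m → ℝ) (hx : ∀ i, 0 < x i)
    (hr : ∀ i, Realizable β (v i) (c i)) (hne : (interior (zonogon v x)).Nonempty)
    {ε : ℝ} (hε : 0 < ε) :
    ∃ t₀ : ℝ≥0, ∀ t : ℝ≥0, t₀ ≤ t → ∀ μ : Measure WP, IsLaw μ →
      Real.exp (-((2 * ∑ i, x i * c i + lam (interior (zonogon v x)) + ε) * (t : ℝ) ^ ((1 : ℝ) / 3)))
        ≤ μ.real (evtE β t) := by
  classical
  have hv0 : ∀ j, v j ≠ 0 := fun j => (hr j).1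
  have hnp : ∀ i j, i ≠ j → cr (v i) (v j) ≠ 0 := by
    intro i j hij
    rcases lt_or_gt_of_ne hij with h | h
    · exact (hv i j h).ne'
    · have := hv j i h
      rw [cr_swap]
      exact (neg_neg_of_pos this).ne
  obtain ⟨i₀, j₀, hij⟩ : ∃ i₀ j₀ : Fin m, cr (v i₀) (v j₀) ≠ 0 :=
    ⟨⟨0, by omega⟩, ⟨1, by omega⟩, hnp _ _ (by simp [Fin.ext_iff])⟩
  obtain ⟨b, C, N₀, hC, hN₀, hbt⟩ := boundary_tour hβ hm v hv x c hx hr (show 0 < ε / 2 by positivity)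
  obtain ⟨C₀, hC₀, hC₀K, N₁, hN₁, hlam⟩ := lamD_le_lam isOpen_interior hne
    (show 0 < ε / 4 by positivity)
  obtain ⟨δ, hδ, hmargin⟩ := crP_margin (by omega) v x hx hv0 hC₀ hC₀K
  obtain ⟨xm, hxm0, hxm⟩ : ∃ xm : ℝ, 0 < xm ∧ ∀ i, xm ≤ x i := by
    obtain ⟨i, _, hi⟩ := Finset.exists_min_image Finset.univ x ⟨i₀, Finset.mem_univ _⟩
    exact ⟨x i, hx i, fun j => hi j (Finset.mem_univ j)⟩
  obtain ⟨N₂, hN₂⟩ : ∃ N₂ : ℝ, N₂ = max (max N₀ N₁) (max (max (|(b : ℝ)| / δ) (2 * |(b : ℝ)| / xm))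
    (C ^ 2)) := ⟨_, rfl⟩
  refine ⟨(N₂ ^ 3).toNNReal, fun t ht μ hμ => ?_⟩
  obtain ⟨N, hN⟩ : ∃ N : ℝ, N = (t : ℝ) ^ ((1 : ℝ) / 3) := ⟨_, rfl⟩
  rw [← hN]
  have hN₂1 : 1 ≤ N₂ := by
    rw [hN₂]; exact hN₀.trans ((le_max_left _ _).trans (le_max_left _ _))
  have ht' : N₂ ^ 3 ≤ t := by
    have h1 : (((N₂ ^ 3).toNNReal : ℝ≥0) : ℝ) ≤ t := by exact_mod_cast ht
    rwa [Real.coe_toNNReal _ (by positivity)] at h1
  have hN3 : N ^ 3 = t := by
    rw [hN, ← Real.rpow_natCast, ← Real.rpow_mul t.coe_nonneg]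
    norm_num
  have hNN : N₂ ≤ N := by
    have h1 : 0 ≤ N := by rw [hN]; positivity
    have h2 : N₂ ^ 3 ≤ N ^ 3 := by rw [hN3]; exact ht'
    exact le_of_pow_le_pow_left₀ (by norm_num) h1 h2
  have hNN₀ : N₀ ≤ N := by
    refine le_trans ?_ hNN
    rw [hN₂]; exact (le_max_left _ _).trans (le_max_left _ _)
  have hNN₁ : N₁ ≤ N := by
    refine le_trans ?_ hNN
    rw [hN₂]; exact (le_max_right _ _).trans (le_max_left _ _)
  have hNb : |(b : ℝ)| / δ ≤ N := by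
    refine le_trans ?_ hNN
    rw [hN₂]
    exact (le_max_left _ _).trans ((le_max_left _ _).trans (le_max_right _ _))
  have hNx : 2 * |(b : ℝ)| / xm ≤ N := by
    refine le_trans ?_ hNN
    rw [hN₂]
    exact (le_max_right _ _).trans ((le_max_left _ _).trans (le_max_right _ _))
  have hNC : C ^ 2 ≤ N := by
    refine le_trans ?_ hNN
    rw [hN₂]
    exact (le_max_right _ _).trans (le_max_right _ _)
  have hN1 : 1 ≤ N := hN₂1.trans hNN
  have hN0 : 0 < N := by linarith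
  rw [div_le_iff₀ hδ] at hNb
  rw [div_le_iff₀ hxm0] at hNx
  obtain ⟨D, hD⟩ := exists_reg v i₀ j₀ hij (fun j => hh v x N j - b)
  -- the core contains the sites of `N C₀`
  have hDC : ∀ z : Site, N⁻¹ • toPlane z ∈ C₀ → z ∈ D := by
    intro z hz
    rw [hD]
    intro j
    have h1 := hmargin j _ hz
    rw [crP_smul, abs_mul, abs_of_pos (inv_pos.2 hN0), inv_mul_le_iff₀ hN0, mul_sub] at h1
    have h2 : N * ∑ i, x i / 2 * |(cr (v j) (v i) : ℝ)| ≤ hh v x N j := by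
      rw [hh_cast, Finset.mul_sum]
      apply Finset.sum_le_sum
      intro i _
      have h3 : x i * N / 2 ≤ (⌈x i * N / 2⌉₊ : ℝ) := Nat.le_ceil _
      calc N * (x i / 2 * |(cr (v j) (v i) : ℝ)|) = (x i * N / 2) * |(cr (v j) (v i) : ℝ)| := by ring
        _ ≤ _ := mul_le_mul_of_nonneg_right h3 (abs_nonneg _)
    have h4 : ((|cr (v j) z| : ℤ) : ℝ) ≤ ((hh v x N j - b : ℤ) : ℝ) := by
      push_cast
      have := le_abs_self (b : ℝ)
      linarith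
    exact_mod_cast h4
  have hDne : D.Nonempty := by
    refine ⟨0, ?_⟩
    rw [hD]
    intro j
    have h1 : cr (v j) 0 = 0 := by unfold cr; simp
    rw [h1, abs_zero]
    have h2 := hh_lower hm v hnp x hxm hN0.le j
    have h3 := le_abs_self (b : ℝ)
    have h4 : (0 : ℝ) ≤ ((hh v x N j - b : ℤ) : ℝ) := by
      push_cast
      linarith
    exact_mod_cast h4
  have hlamD := hlam N hNN₁ D hDC
  obtain ⟨a, haD, hstay⟩ := stay_ge hDne
  obtain ⟨Z, R, hZR, hDZ, hcov⟩ := hbt N hNN₀ D hD a haD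
  have htime : C * (N ^ 2 * Real.sqrt N) ≤ t := by
    rw [← hN3]
    have h1 : C ≤ Real.sqrt N := Real.le_sqrt_of_sq_le hNC
    have h2 : Real.sqrt N * Real.sqrt N = N := Real.mul_self_sqrt hN0.le
    calc C * (N ^ 2 * Real.sqrt N) ≤ Real.sqrt N * (N ^ 2 * Real.sqrt N) :=
          mul_le_mul_of_nonneg_right h1 (by positivity)
      _ = N ^ 2 * (Real.sqrt N * Real.sqrt N) := by ring
      _ = N ^ 3 := by rw [h2]; ring
  have hfin := evt_of_lcov hcov hZR hDZ hstay (lamD_nonneg D) htime μ hμ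
  refine le_trans ?_ hfin
  apply Real.exp_le_exp.2
  apply neg_le_neg
  rw [← hN3]
  have h1 : lamD D * N ^ 3 = (N ^ 2 * lamD D) * N := by ring
  rw [h1]
  have h2 := mul_le_mul_of_nonneg_right hlamD hN0.le
  have h3 : 0 ≤ ε / 4 * N := by positivity
  nlinarith

end Pool.Agent.LB24
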