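import Pool.Agent.WSB71.RealSym

/-!
# LB24, module SORT: reduction to sorted, pairwise nonparallel vectors

 (1) parallel vectors `v_1 = λ v_2` are merged: if `c_1 / |v_1| ≤ c_2 / |v_2|`, replace `x_1` by
     `x_1 + x_2 |v_2| / |v_1|` and drop `v_2`; the zonogon is the same, the cost is not larger.
     (Induction on `m`, or: choose for every direction the vector with the smallest `c / |v|`.  It may be
     convenient to work with `Finset`s or lists of triples; the zonogon is
     `∑ i, segment (-(x i / 2) • v i) ((x i / 2) • v i)`, Minkowski sum.)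
 (2) replace `v_i` by `- v_i` (realizable by `realizable_rot` twice) if necessary: `v_i.2 > 0` or
     (`v_i.2 = 0` and `v_i.1 > 0`);
 (3) sort by `v.1 / v.2 ∈ WithTop ℚ` (`⊤` if `v.2 = 0`), `Tuple.sort`: then `cr v_i v_j ≥ 0` for `i < j`, and
     `≠ 0` by (1).
 (4) `2 ≤ m'` since the interior is nonempty (a zonogon with `m' ≤ 1` is contained in a line).
-/

open MeasureTheory Filter Topology
open scoped NNReal ENNReal Pointwise

namespace Pool.Agent.LB24

open Pool.Agent.LT Pool.Agent.WSB71

/-- Some family with `m` members has the zonogon `Z` and cost at most `K`. -/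
private def Fam (β : ℝ) (Z : Set Plane) (K : ℝ) (m : ℕ) : Prop :=
  ∃ (v : Fin m → Site) (x c : Fin m → ℝ), (∀ i, 0 < x i) ∧ (∀ i, Realizable β (v i) (c i)) ∧
    zonogon v x = Z ∧ ∑ i, x i * c i ≤ K

private lemma zono_merge {m : ℕ} (v : Fin (m + 1) → Site) (x : Fin (m + 1) → ℝ)
    (hx : ∀ i, 0 < x i) (j : Fin (m + 1)) (k : Fin m) (μ : ℝ)
    (hμ : toPlane (v j) = μ • toPlane (v (j.succAbove k))) :
    zonogon (fun i => v (j.succAbove i))
      (fun i => x (j.succAbove i) + if i = k then x j * |μ| else 0) = zonogon v x := by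
  have hxj := hx j
  have hxk := hx (j.succAbove k)
  have hpos : 0 < x (j.succAbove k) + x j * |μ| := by positivity
  ext p
  constructor
  · rintro ⟨s, hs, rfl⟩
    refine ⟨Fin.insertNth (α := fun _ => ℝ) j (s k * SignType.sign μ) s, ?_, ?_⟩
    · intro i
      refine Fin.succAboveCases j ?_ ?_ i
      · rw [Fin.insertNth_apply_same, abs_mul]
        have h1 : |((SignType.sign μ : SignType) : ℝ)| ≤ 1 := by
          rcases lt_trichotomy μ 0 with h | h | h
          · rw [sign_neg h]; simp
          · rw [h]; simp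
          · rw [sign_pos h]; simp
        calc |s k| * |((SignType.sign μ : SignType) : ℝ)| ≤ 1 / 2 * 1 :=
              mul_le_mul (hs k) h1 (abs_nonneg _) (by norm_num)
          _ = 1 / 2 := by norm_num
      · intro i
        rw [Fin.insertNth_apply_succAbove]
        exact hs i
    · rw [Fin.sum_univ_succAbove _ j]
      simp only [Fin.insertNth_apply_same, Fin.insertNth_apply_succAbove]
      have h1 : ∀ i : Fin m, (s i * (x (j.succAbove i) + if i = k then x j * |μ| else 0)) •
          toPlane (v (j.succAbove i)) = (s i * x (j.succAbove i)) • toPlane (v (j.succAbove i)) +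
          if i = k then (s k * x j * |μ|) • toPlane (v (j.succAbove k)) else 0 := by
        intro i
        by_cases hi : i = k
        · subst hi
          rw [if_pos rfl, if_pos rfl, ← add_smul]
          congr 1
          ring
        · rw [if_neg hi, if_neg hi, add_zero, add_zero]
      rw [Finset.sum_congr rfl (fun i _ => h1 i), Finset.sum_add_distrib, Finset.sum_ite_eq' Finset.univ k,
        if_pos (Finset.mem_univ k), add_comm, hμ, smul_smul]
      congr 2
      rw [← sign_mul_self μ]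
      ring
  · rintro ⟨s, hs, rfl⟩
    refine ⟨fun i => if i = k then (s (j.succAbove k) * x (j.succAbove k) + s j * x j * μ) /
      (x (j.succAbove k) + x j * |μ|) else s (j.succAbove i), ?_, ?_⟩
    · intro i
      by_cases hi : i = k
      · simp only [hi, if_true]
        rw [abs_div, abs_of_pos hpos, div_le_iff₀ hpos]
        calc |s (j.succAbove k) * x (j.succAbove k) + s j * x j * μ|
            ≤ |s (j.succAbove k) * x (j.succAbove k)| + |s j * x j * μ| := abs_add_le _ _
          _ = |s (j.succAbove k)| * x (j.succAbove k) + |s j| * (x j * |μ|) := by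
              rw [abs_mul, abs_mul, abs_mul, abs_of_pos hxj, abs_of_pos hxk]; ring
          _ ≤ 1 / 2 * x (j.succAbove k) + 1 / 2 * (x j * |μ|) :=
              add_le_add (mul_le_mul_of_nonneg_right (hs _) hxk.le)
                (mul_le_mul_of_nonneg_right (hs _) (by positivity))
          _ = 1 / 2 * (x (j.succAbove k) + x j * |μ|) := by ring
      · simp only [hi, if_false]
        exact hs _
    · rw [Fin.sum_univ_succAbove _ j]
      have h1 : ∀ i : Fin m, ((if i = k then (s (j.succAbove k) * x (j.succAbove k) + s j * x j * μ) /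
          (x (j.succAbove k) + x j * |μ|) else s (j.succAbove i)) *
          (x (j.succAbove i) + if i = k then x j * |μ| else 0)) •
          toPlane (v (j.succAbove i)) =
          (s (j.succAbove i) * x (j.succAbove i)) • toPlane (v (j.succAbove i)) +
          if i = k then (s j * x j * μ) • toPlane (v (j.succAbove k)) else 0 := by
        intro i
        by_cases hi : i = k
        · subst hi
          simp only [if_true]
          rw [div_mul_cancel₀ _ hpos.ne', add_smul]
        · simp only [if_neg hi, add_zero]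
      rw [Finset.sum_congr rfl (fun i _ => h1 i), Finset.sum_add_distrib, Finset.sum_ite_eq' Finset.univ k,
        if_pos (Finset.mem_univ k), add_comm, hμ, smul_smul]

private lemma fam_merge {β : ℝ} {m : ℕ} {Z : Set Plane} {K : ℝ} (v : Fin (m + 1) → Site)
    (x c : Fin (m + 1) → ℝ)
    (hx : ∀ i, 0 < x i) (hv : ∀ i, Realizable β (v i) (c i)) (hZ : zonogon v x = Z)
    (hK : ∑ i, x i * c i ≤ K) (j : Fin (m + 1)) (k : Fin m) (μ : ℝ)
    (hμ : toPlane (v j) = μ • toPlane (v (j.succAbove k)))
    (hc : |μ| * c (j.succAbove k) ≤ c j) : Fam β Z K m := by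
  have hxj := hx j
  refine ⟨fun i => v (j.succAbove i), fun i => x (j.succAbove i) + if i = k then x j * |μ| else 0,
    fun i => c (j.succAbove i), ?_, fun i => hv _, ?_, ?_⟩
  · intro i
    have := hx (j.succAbove i)
    show 0 < x (j.succAbove i) + if i = k then x j * |μ| else 0
    split_ifs
    · positivity
    · linarith
  · rw [zono_merge v x hx j k μ hμ, hZ]
  · refine le_trans ?_ hK
    rw [Fin.sum_univ_succAbove (fun i => x i * c i) j]
    have h1 : ∀ i : Fin m, (x (j.succAbove i) + if i = k then x j * |μ| else 0) * c (j.succAbove i) =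
        x (j.succAbove i) * c (j.succAbove i) +
          if i = k then x j * (|μ| * c (j.succAbove k)) else 0 := by
      intro i
      by_cases hi : i = k
      · subst hi
        simp only [if_true]
        ring
      · simp only [if_neg hi, add_zero]
    rw [Finset.sum_congr rfl (fun i _ => h1 i), Finset.sum_add_distrib, Finset.sum_ite_eq' Finset.univ k,
      if_pos (Finset.mem_univ k)]
    have h2 : x j * (|μ| * c (j.succAbove k)) ≤ x j * c j := mul_le_mul_of_nonneg_left hc hxj.le
    linarith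

private lemma cr_zero_smul {v w : Site} (hv : v ≠ 0) (h : cr v w = 0) :
    ∃ μ : ℝ, toPlane w = μ • toPlane v := by
  have h' : ((w.1 : ℝ)) * v.2 = w.2 * v.1 := by
    have : w.1 * v.2 - w.2 * v.1 = 0 := h
    have h2 : w.1 * v.2 = w.2 * v.1 := by linarith
    exact_mod_cast h2
  by_cases h1 : v.1 = 0
  · have h2 : v.2 ≠ 0 := fun h2 => hv (Prod.ext h1 h2)
    have h2' : (v.2 : ℝ) ≠ 0 := by exact_mod_cast h2
    refine ⟨w.2 / v.2, ?_⟩
    ext i
    fin_cases i
    · show (w.1 : ℝ) = w.2 / v.2 * v.1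
      rw [h1] at h' ⊢
      rw [Int.cast_zero, mul_zero] at h' ⊢
      rcases mul_eq_zero.1 h' with h3 | h3
      · exact h3
      · exact absurd h3 h2'
    · show (w.2 : ℝ) = w.2 / v.2 * v.2
      field_simp
  · have h1' : (v.1 : ℝ) ≠ 0 := by exact_mod_cast h1
    refine ⟨w.1 / v.1, ?_⟩
    ext i
    fin_cases i
    · show (w.1 : ℝ) = w.1 / v.1 * v.1
      field_simp
    · show (w.2 : ℝ) = w.1 / v.1 * v.2
      field_simp
      linarith

/-- Two parallel vectors: the family can be shortened. -/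
private lemma fam_step {β : ℝ} {m : ℕ} {Z : Set Plane} {K : ℝ} (v : Fin m → Site)
    (x c : Fin m → ℝ)
    (hx : ∀ i, 0 < x i) (hv : ∀ i, Realizable β (v i) (c i)) (hZ : zonogon v x = Z)
    (hK : ∑ i, x i * c i ≤ K) (i j : Fin m) (hij : i ≠ j) (hcr : cr (v i) (v j) = 0) :
    ∃ m' < m, Fam β Z K m' := by
  obtain ⟨m, rfl⟩ : ∃ n, m = n + 1 := ⟨m - 1, by have := i.pos; omega⟩
  obtain ⟨μ, hμ⟩ := cr_zero_smul (hv i).1 hcr
  have hvj : toPlane (v j) ≠ 0 := by
    intro h0
    apply (hv j).1
    have e0 := congrArg (fun p : Plane => p 0) h0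
    have e1 := congrArg (fun p : Plane => p 1) h0
    simp only [toPlane_zero, toPlane_one, PiLp.zero_apply, Int.cast_eq_zero] at e0 e1
    exact Prod.ext e0 e1
  have hμ0 : μ ≠ 0 := by
    rintro rfl
    rw [zero_smul] at hμ
    exact hvj hμ
  by_cases hc : |μ| * c i ≤ c j
  · obtain ⟨k, hk⟩ := Fin.exists_succAbove_eq hij
    exact ⟨m, Nat.lt_succ_self m, fam_merge v x c hx hv hZ hK j k μ (by rw [hk]; exact hμ)
      (by rw [hk]; exact hc)⟩
  · obtain ⟨k, hk⟩ := Fin.exists_succAbove_eq hij.symm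
    refine ⟨m, Nat.lt_succ_self m, fam_merge v x c hx hv hZ hK i k μ⁻¹ ?_ ?_⟩
    · rw [hk, hμ, smul_smul, inv_mul_cancel₀ hμ0, one_smul]
    · rw [hk, abs_inv, inv_mul_le_iff₀ (abs_pos.2 hμ0)]
      linarith

private lemma realizable_neg {β : ℝ} {v : Site} {c : ℝ} (h : Realizable β v c) :
    Realizable β (-v) c := by
  have := realizable_rot (realizable_rot h)
  exact this

private lemma toPlane_neg (v : Site) : toPlane (-v) = - toPlane v := by
  ext i
  fin_cases i
  · show ((-v.1 : ℤ) : ℝ) = - (v.1 : ℝ)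
    push_cast; ring
  · show ((-v.2 : ℤ) : ℝ) = - (v.2 : ℝ)
    push_cast; ring

/-- upper half plane -/
private def Up (v : Site) : Prop := 0 < v.2 ∨ (v.2 = 0 ∧ 0 < v.1)

private lemma up_or {v : Site} (hv : v ≠ 0) : Up v ∨ Up (-v) := by
  rcases lt_trichotomy v.2 0 with h | h | h
  · right; left; show 0 < -v.2; linarith
  · rcases lt_trichotomy v.1 0 with h1 | h1 | h1
    · right; right; exact ⟨by show -v.2 = 0; linarith, by show 0 < -v.1; linarith⟩
    · exact absurd (Prod.ext h1 h) hv
    · left; right; exact ⟨h, h1⟩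
  · left; left; exact h

/-- the sorting key -/
private noncomputable def key (M : ℝ) (v : Site) : ℝ := if v.2 = 0 then M else (v.1 : ℝ) / v.2

private lemma key_lt {M : ℝ} {v : Site} (hM : |(v.1 : ℝ)| < M) (hv : 0 < v.2) : key M v < M := by
  unfold key
  rw [if_neg (by omega)]
  have h1 : (1 : ℝ) ≤ v.2 := by exact_mod_cast hv
  calc (v.1 : ℝ) / v.2 ≤ |(v.1 : ℝ)| / v.2 := by gcongr; exact le_abs_self _
    _ ≤ |(v.1 : ℝ)| / 1 := by gcongr
    _ < M := by rw [div_one]; exact hM

private lemma cr_pos_of_key {M : ℝ} {v w : Site} (hMw : |(w.1 : ℝ)| < M)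
    (hv : Up v) (hw : Up w) (h : key M v ≤ key M w) (h0 : cr v w ≠ 0) : 0 < cr v w := by
  rcases hw with hw | ⟨hw, hw1⟩
  · have hlt := key_lt hMw hw
    rcases hv with hv | ⟨hv, hv1⟩
    · unfold key at h
      rw [if_neg (by omega), if_neg (by omega)] at h
      have hv' : (0 : ℝ) < v.2 := by exact_mod_cast hv
      have hw' : (0 : ℝ) < w.2 := by exact_mod_cast hw
      rw [div_le_div_iff₀ hv' hw'] at h
      have h1 : v.1 * w.2 ≤ w.1 * v.2 := by exact_mod_cast h
      have h2 : 0 ≤ cr v w := by unfold cr; linarith [mul_comm w.2 v.1]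
      exact lt_of_le_of_ne h2 (Ne.symm h0)
    · exfalso
      have : key M v = M := by unfold key; rw [if_pos hv]
      linarith
  · rcases hv with hv | ⟨hv, hv1⟩
    · unfold cr
      rw [hw, zero_mul, sub_zero]
      positivity
    · exfalso
      apply h0
      unfold cr
      rw [hw, hv]; ring

private lemma cr_neg_left (v w : Site) : cr (-v) w = - cr v w := by
  show w.1 * (-v.2) - w.2 * (-v.1) = -(w.1 * v.2 - w.2 * v.1)
  ring

private lemma cr_neg_right (v w : Site) : cr v (-w) = - cr v w := by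
  show (-w.1) * v.2 - (-w.2) * v.1 = -(w.1 * v.2 - w.2 * v.1)
  ring

private lemma zono_comp {m : ℕ} (v : Fin m → Site) (x : Fin m → ℝ) (σ : Equiv.Perm (Fin m)) :
    zonogon (v ∘ σ) (x ∘ σ) = zonogon v x := by
  ext p
  constructor
  · rintro ⟨s, hs, rfl⟩
    refine ⟨s ∘ σ.symm, fun i => hs _, ?_⟩
    rw [← Equiv.sum_comp σ (fun i => ((s ∘ σ.symm) i * x i) • toPlane (v i))]
    simp
  · rintro ⟨s, hs, rfl⟩
    refine ⟨s ∘ σ, fun i => hs _, ?_⟩
    rw [← Equiv.sum_comp σ (fun i => (s i * x i) • toPlane (v i))]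
    simp

private lemma zono_sign {m : ℕ} (v w : Fin m → Site) (x : Fin m → ℝ)
    (h : ∀ i, w i = v i ∨ w i = - v i) : zonogon w x ⊆ zonogon v x := by
  classical
  rintro p ⟨s, hs, rfl⟩
  refine ⟨fun i => if w i = v i then s i else - s i, fun i => ?_, ?_⟩
  · by_cases hi : w i = v i
    · simp only [hi, if_true]; exact hs i
    · simp only [hi, if_false, abs_neg]; exact hs i
  · refine Finset.sum_congr rfl fun i _ => ?_
    by_cases hi : w i = v i
    · simp only [hi, if_true]
    · have hi' := (h i).resolve_left hi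
      simp only [if_neg hi]
      rw [hi', toPlane_neg, smul_neg, neg_mul, neg_smul]

private lemma two_le {m : ℕ} (v : Fin m → Site) (x : Fin m → ℝ) (hv : ∀ i, v i ≠ 0)
    (hne : (interior (zonogon v x)).Nonempty) : 2 ≤ m := by
  by_contra hm
  obtain ⟨w, hw0, hw⟩ : ∃ w : Site, w ≠ 0 ∧ ∀ i, cr w (v i) = 0 := by
    rcases Nat.eq_zero_or_pos m with h0 | h0
    · subst h0
      exact ⟨(1, 0), by simp, fun i => i.elim0⟩
    · refine ⟨v ⟨0, h0⟩, hv _, fun i => ?_⟩
      have : i = ⟨0, h0⟩ := Fin.ext (by have := i.2; show (i : ℕ) = 0; omega)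
      rw [this]
      unfold cr
      ring
  let L : Plane →ₗ[ℝ] ℝ :=
    { toFun := fun p => p 0 * w.2 - p 1 * w.1
      map_add' := fun p q => by simp only [PiLp.add_apply]; ring
      map_smul' := fun a p => by simp only [PiLp.smul_apply, smul_eq_mul, RingHom.id_apply]; ring }
  have hsub : zonogon v x ⊆ (LinearMap.ker L : Set Plane) := by
    rintro p ⟨s, hs, rfl⟩
    show L _ = 0
    rw [map_sum]
    refine Finset.sum_eq_zero fun i _ => ?_
    rw [map_smul]
    have : L (toPlane (v i)) = ((cr w (v i) : ℤ) : ℝ) := by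
      show toPlane (v i) 0 * (w.2 : ℝ) - toPlane (v i) 1 * (w.1 : ℝ) = _
      rw [toPlane_zero, toPlane_one]
      unfold cr
      push_cast
      ring
    rw [this, hw i]
    simp
  have htop : LinearMap.ker L = ⊤ :=
    Submodule.eq_top_of_nonempty_interior' _ (hne.mono (interior_mono hsub))
  have h1 : L (toPlane (1, 0)) = 0 := by
    have : toPlane (1, 0) ∈ LinearMap.ker L := by rw [htop]; trivial
    exact this
  have h2 : L (toPlane (0, 1)) = 0 := by
    have : toPlane (0, 1) ∈ LinearMap.ker L := by rw [htop]; trivial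
    exact this
  have e1 : (toPlane (1, 0) 0 * (w.2 : ℝ) - toPlane (1, 0) 1 * (w.1 : ℝ)) = 0 := h1
  have e2 : (toPlane (0, 1) 0 * (w.2 : ℝ) - toPlane (0, 1) 1 * (w.1 : ℝ)) = 0 := h2
  rw [toPlane_zero, toPlane_one] at e1 e2
  simp at e1 e2
  exact hw0 (Prod.ext e2 e1)

theorem sorted_reduction {β : ℝ} {m : ℕ} (v : Fin m → Site) (x c : Fin m → ℝ)
    (hx : ∀ i, 0 < x i) (hv : ∀ i, Realizable β (v i) (c i))
    (hne : (interior (zonogon v x)).Nonempty) :
    ∃ (m' : ℕ) (v' : Fin m' → Site) (x' c' : Fin m' → ℝ), 2 ≤ m' ∧ (∀ i, 0 < x' i) ∧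
      (∀ i, Realizable β (v' i) (c' i)) ∧ zonogon v' x' = zonogon v x ∧
      (∀ i j, i < j → 0 < cr (v' i) (v' j)) ∧ ∑ i, x' i * c' i ≤ ∑ i, x i * c i := by
  classical
  have hex : ∃ m', Fam β (zonogon v x) (∑ i, x i * c i) m' := ⟨m, v, x, c, hx, hv, rfl, le_rfl⟩
  obtain ⟨n, ⟨v1, x1, c1, hx1, hv1, hZ1, hK1⟩, hmin⟩ : ∃ n, Fam β (zonogon v x) (∑ i, x i * c i) n ∧
      ∀ k < n, ¬ Fam β (zonogon v x) (∑ i, x i * c i) k :=
    ⟨Nat.find hex, Nat.find_spec hex, fun k hk => Nat.find_min hex hk⟩
  have hcr : ∀ i j, i ≠ j → cr (v1 i) (v1 j) ≠ 0 := by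
    intro i j hij h0
    obtain ⟨m', hm', hF⟩ := fam_step v1 x1 c1 hx1 hv1 hZ1 hK1 i j hij h0
    exact hmin m' hm' hF
  -- signs
  let v2 : Fin n → Site := fun i => if Up (v1 i) then v1 i else - v1 i
  have hv2 : ∀ i, v2 i = v1 i ∨ v2 i = - v1 i := by
    intro i
    by_cases h : Up (v1 i)
    · left; show (if Up (v1 i) then v1 i else - v1 i) = _; rw [if_pos h]
    · right; show (if Up (v1 i) then v1 i else - v1 i) = _; rw [if_neg h]
  have hup : ∀ i, Up (v2 i) := by
    intro i
    show Up (if Up (v1 i) then v1 i else - v1 i)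
    by_cases h : Up (v1 i)
    · rw [if_pos h]; exact h
    · rw [if_neg h]; exact (up_or (hv1 i).1).resolve_left h
  have hr2 : ∀ i, Realizable β (v2 i) (c1 i) := by
    intro i
    rcases hv2 i with h | h
    · rw [h]; exact hv1 i
    · rw [h]; exact realizable_neg (hv1 i)
  have hcr2 : ∀ i j, i ≠ j → cr (v2 i) (v2 j) ≠ 0 := by
    intro i j hij
    have h0 := hcr i j hij
    rcases hv2 i with h | h <;> rcases hv2 j with h' | h' <;> rw [h, h'] <;>
      simp only [cr_neg_left, cr_neg_right, neg_neg, ne_eq, neg_eq_zero] <;> exact h0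
  have hZ2 : zonogon v2 x1 = zonogon v x := by
    rw [← hZ1]
    refine Set.Subset.antisymm (zono_sign v1 v2 x1 hv2) (zono_sign v2 v1 x1 fun i => ?_)
    rcases hv2 i with h | h
    · left; rw [h]
    · right; rw [h, neg_neg]
  -- sorting
  let M : ℝ := 1 + ∑ i, |((v2 i).1 : ℝ)|
  have hM : ∀ i, |((v2 i).1 : ℝ)| < M := by
    intro i
    have : |((v2 i).1 : ℝ)| ≤ ∑ i, |((v2 i).1 : ℝ)| :=
      Finset.single_le_sum (f := fun i => |((v2 i).1 : ℝ)|) (fun i _ => abs_nonneg _)
        (Finset.mem_univ i)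
    show _ < 1 + ∑ i, |((v2 i).1 : ℝ)|
    linarith
  let f : Fin n → ℝ := fun i => key M (v2 i)
  let σ : Equiv.Perm (Fin n) := Tuple.sort f
  have hσ : Monotone (f ∘ σ) := Tuple.monotone_sort f
  refine ⟨n, v2 ∘ σ, x1 ∘ σ, c1 ∘ σ, ?_, fun i => hx1 _, fun i => hr2 _, ?_, ?_, ?_⟩
  · exact two_le v2 x1 (fun i => (hr2 i).1) (by rw [hZ2]; exact hne)
  · rw [zono_comp, hZ2]
  · intro i j hij
    exact cr_pos_of_key (hM _) (hup _) (hup _) (hσ hij.le)
      (hcr2 _ _ (fun h => hij.ne (σ.injective h)))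
  · refine le_trans (le_of_eq ?_) hK1
    exact Equiv.sum_comp σ (fun i => x1 i * c1 i)

end Pool.Agent.LB24
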