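import Pool.Agent.LB24.Final
import Pool.Agent.LB24.Sort

/-!
# LB24: the lower bound `lb_main` (same statement as in `WSB71/LBStat.lean`)
-/

open MeasureTheory Filter Topology
open scoped NNReal ENNReal Pointwise

namespace Pool.Agent.LB24

open Pool.Agent.LT Pool.Agent.WSB71

theorem lb_main {β : ℝ} (hβ : 1 ≤ β) {m : ℕ} (v : Fin m → Site) (x c : Fin m → ℝ)
    (hx : ∀ i, 0 < x i) (hv : ∀ i, Realizable β (v i) (c i))
    (hne : (interior (zonogon v x)).Nonempty) {ε : ℝ} (hε : 0 < ε) :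
    ∃ t₀ : ℝ≥0, ∀ t : ℝ≥0, t₀ ≤ t → ∀ μ : Measure WP, IsLaw μ →
      Real.exp (-((2 * ∑ i, x i * c i + lam (interior (zonogon v x)) + ε) * (t : ℝ) ^ ((1 : ℝ) / 3)))
        ≤ μ.real (evtE β t) := by
  obtain ⟨m', v', x', c', hm, hx', hr, hz, hs, hc⟩ := sorted_reduction v x c hx hv hne
  obtain ⟨t₀, ht⟩ := lb_sorted hβ hm v' hs x' c' hx' hr (by rw [hz]; exact hne) hε
  refine ⟨t₀, fun t htt μ hμ => ?_⟩
  refine le_trans ?_ (ht t htt μ hμ)
  rw [hz]
  apply Real.exp_le_exp.2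
  apply neg_le_neg
  apply mul_le_mul_of_nonneg_right _ (by positivity)
  linarith

end Pool.Agent.LB24
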